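import Pool.Agent.VPN.LowerC

/-!
# Counting level by level, with ranks

Here the coefficients `u m` are arbitrary, and the generic coefficients of level `m` are independent of everything
of lower level and of `u m`, in the sense of the rank of the matroid of algebraic independence.
-/

set_option autoImplicit false

open Finset Pool.Agent.VPO

namespace Pool.Agent.VPN

variable {K0 k : Type} [Field K0] [Field k] [Algebra K0 k] {n R : ℕ}

/-- the matroid of algebraic independence -/
noncomputable abbrev Mat (K0 k : Type) [Field K0] [Field k] [Algebra K0 k] : Matroid k :=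
  AlgebraicIndependent.matroid K0 k

/-- the elements which are algebraic over the field generated by `Y` -/
noncomputable def clF (K0 : Type) {k : Type} [Field K0] [Field k] [Algebra K0 k] (Y : Set k) : IntermediateField K0 k :=
  (algebraicClosure (IntermediateField.adjoin K0 Y) k).restrictScalars K0

theorem mem_clF {Y : Set k} {x : k} : x ∈ clF K0 Y ↔ IsAlgebraic (IntermediateField.adjoin K0 Y) x := by
  unfold clF
  rw [IntermediateField.mem_restrictScalars]
  exact mem_algebraicClosure_iff

theorem clF_iff {Y : Set k} {x : k} : x ∈ clF K0 Y ↔ x ∈ (Mat K0 k).closure Y := by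
  rw [mem_clF, AlgebraicIndependent.matroid_closure_eq, SetLike.mem_coe, Subalgebra.mem_algebraicClosure,
    ← IntermediateField.isAlgebraic_adjoin_iff]

theorem adjoin_le_clF (Y : Set k) : IntermediateField.adjoin K0 Y ≤ clF K0 Y := by
  intro x hx
  rw [mem_clF]
  exact isAlgebraic_algebraMap (⟨x, hx⟩ : IntermediateField.adjoin K0 Y)

theorem subset_clF (Y : Set k) {x : k} (hx : x ∈ Y) : x ∈ clF K0 Y :=
  adjoin_le_clF Y (IntermediateField.subset_adjoin _ _ hx)

/-- one level: the generic coefficients are in every field which contains the coefficients and values of the given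
linear forms, the polynomial `u` of this level and the coefficients with indices in `J` -/
theorem level_step {α : (Σ m, Ind m) → k} {u : ∀ m, (Fin (W m) → Fin (W m + 1)) → k} {E : IntermediateField K0 k}
    {S : Set (Ii n R → k)} (hS : ∀ v ∈ S, RatV E (cv α u n R) v) (hlev : ∀ v ∈ S, ∃ t : Fin R, ∀ i, v i ≠ 0 → i.1 = t)
    {J : Set (Ii n R)} (t : Fin R) (hu : ∀ ξ, u (n + t) ξ ∈ E) (hJ : ∀ j ∈ J, j.1 = t → cv α u n R j ∈ E)
    [DecidablePred (Fr : Ii n R → Prop)] [DecidableEq (Ii n R)]
    (i : Ind (n + t)) (hi : (Pi.single ⟨t, i⟩ 1 : Ii n R → k) ∈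
      Submodule.span k (pr k (Fr : Ii n R → Prop) '' S ∪ (fun i => Pi.single i 1) '' J)) :
    cv α u n R ⟨t, i⟩ ∈ E := by
  let π := pr k (Fr : Ii n R → Prop)
  let ρ := pr k (fun i : Ii n R => i.1 = t)
  have hspan : (Pi.single ⟨t, i⟩ 1 : Ii n R → k) ∈
      Submodule.span k (ρ '' (π '' S ∪ (fun i => Pi.single i 1) '' J)) := by
    rw [← Submodule.map_span]
    refine ⟨Pi.single ⟨t, i⟩ 1, hi, ?_⟩
    funext j
    rw [pr_apply]
    split_ifs with hj
    · rfl
    · rw [Pi.single_eq_of_ne]
      rintro rfl
      exact hj rfl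
  have hsub : ∀ v ∈ ρ '' (π '' S ∪ (fun i => Pi.single i 1) '' J), RatV E (cv α u n R) v := by
    rintro _ ⟨_, (⟨v, hv, rfl⟩ | ⟨j, hj, rfl⟩), rfl⟩
    · have hRv := hS v hv
      obtain ⟨t1, ht1⟩ := hlev v hv
      refine ⟨?_, ?_⟩
      · intro i
        rw [pr_apply, pr_apply]
        split_ifs
        · exact hRv.1 i
        · exact zero_mem _
        · exact zero_mem _
      · by_cases htt : t1 = t
        · have h4 : ∀ i, ρ (π v) i * cv α u n R i = v i * cv α u n R i - (if Fr i then 0 else v i * cv α u n R i) := by
            intro i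
            rw [pr_apply, pr_apply]
            by_cases hi0 : v i = 0
            · rw [hi0]
              split_ifs <;> simp
            · rw [if_pos ((ht1 i hi0).trans htt)]
              split_ifs <;> simp
          rw [sum_congr rfl fun i _ => h4 i, sum_sub_distrib]
          refine sub_mem hRv.2 (sum_mem fun i _ => ?_)
          split_ifs with hFi
          · exact zero_mem _
          · by_cases hi0 : v i = 0
            · rw [hi0, zero_mul]
              exact zero_mem _
            · refine mul_mem (hRv.1 i) ?_
              have hi1 : i.1 = t := (ht1 i hi0).trans htt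
              obtain ⟨t2, ⟨ξ, b⟩ | i2⟩ := i
              · dsimp only at hi1
                subst hi1
                show cc α u (n + t2) (Sum.inl (ξ, b)) ∈ _
                unfold cc
                dsimp only
                have hb : ¬ wt b < wt (one (n + t2)) := hFi
                rw [if_neg hb]
                split_ifs
                · exact hu ξ
                · exact zero_mem _
              · exact absurd trivial hFi
        · have h4 : ∀ i, ρ (π v) i * cv α u n R i = 0 := by
            intro i
            rw [pr_apply, pr_apply]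
            by_cases hi0 : v i = 0
            · rw [hi0]
              split_ifs <;> simp
            · rw [if_neg, zero_mul]
              intro h5
              exact htt ((ht1 i hi0).symm.trans h5)
          rw [sum_congr rfl fun i _ => h4 i, sum_const_zero]
          exact zero_mem _
    · refine ⟨?_, ?_⟩
      · intro i
        rw [pr_apply]
        split_ifs
        · show (Pi.single j (1 : k) : Ii n R → k) i ∈ _
          rcases eq_or_ne i j with rfl | hij
          · rw [Pi.single_eq_same]
            exact one_mem _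
          · rw [Pi.single_eq_of_ne hij]
            exact zero_mem _
        · exact zero_mem _
      · refine sum_mem fun i _ => ?_
        rw [pr_apply]
        split_ifs with hit
        · show (Pi.single j (1 : k) : Ii n R → k) i * _ ∈ _
          rcases eq_or_ne i j with rfl | hij
          · rw [Pi.single_eq_same, one_mul]
            exact hJ i hj hit
          · rw [Pi.single_eq_of_ne hij, zero_mul]
            exact zero_mem _
        · rw [zero_mul]
          exact zero_mem _
  have hfin := (descent hsub (v := Pi.single ⟨t, i⟩ 1) (by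
    intro j
    rcases eq_or_ne j ⟨t, i⟩ with rfl | hij
    · rw [Pi.single_eq_same]
      exact one_mem _
    · rw [Pi.single_eq_of_ne hij]
      exact zero_mem _) hspan).2
  rw [sum_eq_single ⟨t, i⟩] at hfin
  · rwa [Pi.single_eq_same, one_mul] at hfin
  · intro j _ hj
    rw [Pi.single_eq_of_ne hj, zero_mul]
  · intro h
    exact absurd (mem_univ _) h

/-- the coefficients `u m` -/
def Um (u : ∀ m, (Fin (W m) → Fin (W m + 1)) → k) (m : ℕ) : Set k := Set.range (u m)

/-- the generic coefficients of level `m` -/
def Am (α : (Σ m, Ind m) → k) (m : ℕ) : Set k := {x | ∃ i, Frm m i ∧ α ⟨m, i⟩ = x}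

/-- everything of level less than `m` -/
def Dm (α : (Σ m, Ind m) → k) (u : ∀ m, (Fin (W m) → Fin (W m + 1)) → k) (m : ℕ) : Set k :=
  {x | ∃ j < m, x ∈ Um u j ∪ Am α j}

theorem Um_finite (u : ∀ m, (Fin (W m) → Fin (W m + 1)) → k) (m : ℕ) : (Um u m).Finite := Set.finite_range _

theorem Am_finite (α : (Σ m, Ind m) → k) (m : ℕ) : (Am α m).Finite := by
  refine (Set.finite_range fun i => α ⟨m, i⟩).subset ?_
  rintro x ⟨i, _, rfl⟩
  exact ⟨i, rfl⟩

theorem Dm_succ (α : (Σ m, Ind m) → k) (u : ∀ m, (Fin (W m) → Fin (W m + 1)) → k) (m : ℕ) :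
    Dm α u (m + 1) = Dm α u m ∪ Um u m ∪ Am α m := by
  ext x
  constructor
  · rintro ⟨j, hj, hx⟩
    rcases Nat.lt_succ_iff_lt_or_eq.1 hj with hj | rfl
    · exact Or.inl (Or.inl ⟨j, hj, hx⟩)
    · rcases hx with hx | hx
      · exact Or.inl (Or.inr hx)
      · exact Or.inr hx
  · rintro ((⟨j, hj, hx⟩ | hx) | hx)
    · exact ⟨j, by omega, hx⟩
    · exact ⟨m, by omega, Or.inl hx⟩
    · exact ⟨m, by omega, Or.inr hx⟩

theorem Dm_finite (α : (Σ m, Ind m) → k) (u : ∀ m, (Fin (W m) → Fin (W m + 1)) → k) (m : ℕ) :
    (Dm α u m).Finite := by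
  induction m with
  | zero =>
    have h : Dm α u 0 = ∅ := by
      ext x
      constructor
      · rintro ⟨j, hj, _⟩
        exact absurd hj (Nat.not_lt_zero j)
      · intro h
        exact absurd h (Set.notMem_empty x)
    rw [h]
    exact Set.finite_empty
  | succ m ih =>
    rw [Dm_succ]
    exact (ih.union (Um_finite u m)).union (Am_finite α m)

/-- the rank as a natural number -/
noncomputable def rk (K0 : Type) {k : Type} [Field K0] [Field k] [Algebra K0 k] (X : Set k) : ℕ :=
  ((Mat K0 k).eRk X).toNat

theorem coe_rk {X : Set k} (hX : X.Finite) : ((rk K0 X : ℕ) : ℕ∞) = (Mat K0 k).eRk X := by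
  unfold rk
  refine ENat.natCast_toNat ?_
  have h1 := (Mat K0 k).eRk_le_encard X
  intro h2
  rw [h2, top_le_iff] at h1
  exact (Set.encard_ne_top_iff.2 hX) h1

theorem rk_mono {X Y : Set k} (hY : Y.Finite) (h : X ⊆ Y) : rk K0 X ≤ rk K0 Y := by
  have h1 := (Mat K0 k).eRk_mono h
  rw [← coe_rk hY, ← coe_rk (hY.subset h)] at h1
  exact_mod_cast h1

theorem rk_submod {X Y : Set k} (hX : X.Finite) (hY : Y.Finite) :
    rk K0 (X ∩ Y) + rk K0 (X ∪ Y) ≤ rk K0 X + rk K0 Y := by
  have h1 := (Mat K0 k).eRk_inter_add_eRk_union_le X Y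
  rw [← coe_rk hX, ← coe_rk hY, ← coe_rk (hX.union hY), ← coe_rk (hX.subset Set.inter_subset_left)] at h1
  exact_mod_cast h1

theorem rk_union_le {X : Set k} (hX : X.Finite) (s : Finset k) : rk K0 (X ∪ s) ≤ rk K0 X + s.card := by
  have h1 := (Mat K0 k).eRk_union_le_eRk_add_encard X s
  rw [Set.encard_coe_eq_coe_finsetCard, ← coe_rk hX, ← coe_rk (hX.union s.finite_toSet)] at h1
  exact_mod_cast h1

theorem rk_le_of_subset_clF {X Y : Set k} (hX : X.Finite) (hY : Y.Finite) (h : ∀ x ∈ X, x ∈ clF K0 Y) :
    rk K0 X ≤ rk K0 Y := by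
  have h1 : (Mat K0 k).eRk X ≤ (Mat K0 k).eRk ((Mat K0 k).closure Y) :=
    (Mat K0 k).eRk_mono fun x hx => clF_iff.1 (h x hx)
  rw [Matroid.eRk_closure_eq, ← coe_rk hX, ← coe_rk hY] at h1
  exact_mod_cast h1

theorem count_rank {α : (Σ m, Ind m) → k} {u : ∀ m, (Fin (W m) → Fin (W m + 1)) → k}
    (hind : ∀ m, n ≤ m → rk K0 (Dm α u m ∪ Um u m) + Nat.card {i : Ind m // Frm m i} ≤ rk K0 (Dm α u (m + 1)))
    (s : Finset k) (S : Set (Ii n R → k))
    (hS : ∀ v ∈ S, RatV (clF K0 (Dm α u n ∪ Um u n ∪ s)) (cv α u n R) v)
    (hlev : ∀ v ∈ S, ∃ t : Fin R, ∀ i, v i ≠ 0 → i.1 = t)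
    (hinj : ∀ v ∈ Submodule.span k S, (∀ i, Fr i → v i = 0) → v = 0) :
    Module.finrank k (Submodule.span k S) ≤ s.card := by
  classical
  let π := pr k (Fr : Ii n R → Prop)
  let Q : Finset (Ii n R) := univ.filter Fr
  obtain ⟨J, hJ1, hJ2, hJ3⟩ := exists_J (π '' S) Q
  have hrank : Module.finrank k (Submodule.span k S) ≤ Module.finrank k (Submodule.span k (π '' S)) := by
    rw [← Submodule.map_span]
    have h4 : Function.Injective (π.domRestrict (Submodule.span k S)) := by
      rw [← LinearMap.ker_eq_bot, LinearMap.ker_eq_bot']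
      rintro ⟨v, hv⟩ h5
      apply Subtype.ext
      refine hinj v hv fun i hi => ?_
      have h6 := congrFun h5 i
      have h7 : (π.domRestrict (Submodule.span k S)) ⟨v, hv⟩ i = if Fr i then v i else 0 := rfl
      rw [h7, if_pos hi] at h6
      exact h6
    have h5 := LinearMap.finrank_range_of_inj h4
    rw [LinearMap.range_domRestrict] at h5
    exact h5.ge
  have htop : Module.finrank k (Submodule.span k (π '' S ∪ (fun i => Pi.single i (1 : k)) '' (J : Set (Ii n R)))) ≤
      Q.card := by
    have h4 : Submodule.span k (π '' S ∪ (fun i => Pi.single i (1 : k)) '' (J : Set (Ii n R))) ≤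
        Submodule.span k ((Q.image fun i => (Pi.single i 1 : Ii n R → k) : Finset _) : Set (Ii n R → k)) := by
      rw [Submodule.span_le]
      rintro x (⟨v, _, rfl⟩ | ⟨i, hi, rfl⟩)
      · have h5 : π v = ∑ i ∈ Q, v i • (Pi.single i 1 : Ii n R → k) := by
          funext j
          rw [pr_apply, Finset.sum_apply]
          simp only [Pi.smul_apply, smul_eq_mul]
          by_cases hj : Fr j
          · rw [if_pos hj, sum_eq_single j]
            · rw [Pi.single_eq_same, mul_one]
            · intro i _ hi
              rw [Pi.single_eq_of_ne hi.symm, mul_zero]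
            · intro h6
              exact absurd (mem_filter.2 ⟨mem_univ _, hj⟩) h6
          · rw [if_neg hj]
            symm
            apply sum_eq_zero
            intro i hi
            rw [Pi.single_eq_of_ne, mul_zero]
            rintro rfl
            exact hj (mem_filter.1 hi).2
        rw [SetLike.mem_coe, h5]
        refine Submodule.sum_mem _ fun i hi => Submodule.smul_mem _ _ (Submodule.subset_span ?_)
        rw [coe_image]
        exact ⟨i, hi, rfl⟩
      · refine Submodule.subset_span ?_
        rw [coe_image]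
        exact ⟨i, hJ1 hi, rfl⟩
    refine (Submodule.finrank_mono h4).trans ((finrank_span_finset_le_card _).trans card_image_le)
  let lv : Finset (Ii n R) → ℕ → Finset (Ii n R) := fun X t => X.filter fun i => (i.1 : ℕ) = t
  have hUn : ∀ t, Um u n ⊆ Dm α u (n + t) ∪ Um u (n + t) := by
    intro t x hx
    rcases Nat.eq_zero_or_pos t with rfl | ht
    · exact Or.inr hx
    · exact Or.inl ⟨n, by omega, Or.inl hx⟩
  have key : ∀ t ≤ R, rk K0 (Dm α u (n + t) ∪ Um u n ∪ s) + ∑ t' ∈ range t, (lv Q t').card ≤
      s.card + rk K0 (Dm α u (n + t) ∪ Um u n) + ∑ t' ∈ range t, (lv J t').card := by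
    intro t
    induction t with
    | zero =>
      intro _
      have h1 := rk_union_le (K0 := K0) ((Dm_finite α u n).union (Um_finite u n)) s
      simp only [Nat.add_zero, range_zero, sum_empty]
      omega
    | succ t ih =>
      intro ht
      have ih' := ih (by omega)
      rw [sum_range_succ, sum_range_succ]
      have hfD := Dm_finite α u (n + t)
      have hfU := Um_finite u (n + t)
      have hfUn := Um_finite u n
      have hfs : (s : Set k).Finite := s.finite_toSet
      have hQt : (lv Q t).card = Nat.card {i : Ind (n + t) // Frm (n + t) i} := by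
        have e : lv Q t = (univ.filter (Frm (n + t))).map
            ⟨fun i => (⟨⟨t, by omega⟩, i⟩ : Ii n R), fun a b hab => by simpa using hab⟩ := by
          ext ⟨⟨t', ht'⟩, i⟩
          simp only [lv, Q, mem_filter, mem_univ, true_and, mem_map, Function.Embedding.coeFn_mk]
          constructor
          · rintro ⟨h1, h2⟩
            have h3 : t' = t := h2
            subst h3
            exact ⟨i, h1, rfl⟩
          · rintro ⟨i', h1, h2⟩
            obtain ⟨h3, h4⟩ := Sigma.mk.inj h2
            have h5 : t = t' := Fin.mk.inj h3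
            subst h5
            rw [← eq_of_heq h4]
            exact ⟨h1, rfl⟩
        rw [e, card_map, Nat.card_eq_fintype_card, Fintype.card_subtype]
      have h1 := hind (n + t) (Nat.le_add_right n t)
      -- the new level
      have h2 : rk K0 (Dm α u (n + (t + 1)) ∪ Um u n ∪ s) ≤
          rk K0 (Dm α u (n + t) ∪ Um u (n + t) ∪ s) + (lv J t).card := by
        have h3 : rk K0 (Dm α u (n + (t + 1)) ∪ Um u n ∪ s) ≤
            rk K0 (Dm α u (n + t) ∪ Um u (n + t) ∪ s ∪ ((lv J t).image (cv α u n R) : Finset k)) := by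
          refine rk_le_of_subset_clF (((Dm_finite α u _).union hfUn).union hfs)
            (((hfD.union hfU).union hfs).union (Finset.finite_toSet _)) ?_
          rintro x ((hx | hx) | hx)
          · have hx' : x ∈ Dm α u (n + t + 1) := hx
            rw [Dm_succ] at hx'
            rcases hx' with hx' | ⟨i, hi, rfl⟩
            · exact subset_clF _ (Or.inl (Or.inl hx'))
            · have hmono : clF K0 (Dm α u n ∪ Um u n ∪ s) ≤
                  clF K0 (Dm α u (n + t) ∪ Um u (n + t) ∪ s ∪ ((lv J t).image (cv α u n R) : Finset k)) := by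
                intro y hy
                rw [clF_iff] at hy ⊢
                refine (Mat K0 k).closure_subset_closure ?_ hy
                rintro z ((⟨j, hj, hz⟩ | hz) | hz)
                · exact Or.inl (Or.inl (Or.inl ⟨j, by omega, hz⟩))
                · exact Or.inl (Or.inl (hUn t hz))
                · exact Or.inl (Or.inr hz)
              have h4 := level_step (K0 := K0) (α := α) (u := u)
                (E := clF K0 (Dm α u (n + t) ∪ Um u (n + t) ∪ s ∪ ((lv J t).image (cv α u n R) : Finset k)))
                (S := S) (fun v hv => (hS v hv).mono hmono) hlev (J := J) ⟨t, by omega⟩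
                (fun ξ => subset_clF _ (Or.inl (Or.inl (Or.inr ⟨ξ, rfl⟩))))
                (fun j hj hjt => subset_clF _ (Or.inr (by
                  rw [mem_coe]
                  refine mem_image_of_mem _ (mem_filter.2 ⟨hj, ?_⟩)
                  rw [hjt]))) i (hJ2 _ (mem_filter.2 ⟨mem_univ _, hi⟩))
              have h5 : cv α u n R ⟨⟨t, by omega⟩, i⟩ = α ⟨n + t, i⟩ := by
                rcases i with ⟨ξ, b⟩ | i
                · exact if_pos hi
                · rfl
              rw [h5] at h4
              exact h4
          · exact subset_clF _ (Or.inl (Or.inl (hUn t hx)))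
          · exact subset_clF _ (Or.inl (Or.inr hx))
        refine h3.trans ((rk_union_le ((hfD.union hfU).union hfs) _).trans ?_)
        exact Nat.add_le_add_left card_image_le _
      -- submodularity
      have h3 : rk K0 (Dm α u (n + t) ∪ Um u n) + rk K0 (Dm α u (n + t) ∪ Um u (n + t) ∪ s) ≤
          rk K0 (Dm α u (n + t) ∪ Um u n ∪ s) + rk K0 (Dm α u (n + t) ∪ Um u (n + t)) := by
        have h4 := rk_submod (K0 := K0) ((hfD.union hfUn).union hfs) (hfD.union hfU)
        have h5 : rk K0 (Dm α u (n + t) ∪ Um u n) ≤
            rk K0 ((Dm α u (n + t) ∪ Um u n ∪ s) ∩ (Dm α u (n + t) ∪ Um u (n + t))) := by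
          refine rk_mono (((hfD.union hfUn).union hfs).subset Set.inter_subset_left) ?_
          rintro x (hx | hx)
          · exact ⟨Or.inl (Or.inl hx), Or.inl hx⟩
          · exact ⟨Or.inl (Or.inr hx), hUn t hx⟩
        have h6 : rk K0 (Dm α u (n + t) ∪ Um u (n + t) ∪ s) ≤
            rk K0 ((Dm α u (n + t) ∪ Um u n ∪ s) ∪ (Dm α u (n + t) ∪ Um u (n + t))) := by
          refine rk_mono (((hfD.union hfUn).union hfs).union (hfD.union hfU)) ?_
          rintro x ((hx | hx) | hx)
          · exact Or.inl (Or.inl (Or.inl hx))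
          · exact Or.inr (Or.inr hx)
          · exact Or.inl (Or.inr hx)
        omega
      have h7 : rk K0 (Dm α u (n + t + 1)) ≤ rk K0 (Dm α u (n + (t + 1)) ∪ Um u n) :=
        rk_mono ((Dm_finite α u _).union hfUn) Set.subset_union_left
      omega
  have h1 := key R le_rfl
  have h2 : rk K0 (Dm α u (n + R) ∪ Um u n) ≤ rk K0 (Dm α u (n + R) ∪ Um u n ∪ s) :=
    rk_mono (((Dm_finite α u _).union (Um_finite u n)).union s.finite_toSet) Set.subset_union_left
  have h3 : ∀ X : Finset (Ii n R), ∑ t' ∈ range R, (lv X t').card = X.card := by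
    intro X
    exact (card_eq_sum_card_fiberwise (f := fun i : Ii n R => (i.1 : ℕ)) (t := range R)
      fun i _ => mem_coe.2 (mem_range.2 i.1.2)).symm
  rw [h3, h3] at h1
  omega

end Pool.Agent.VPN
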