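import Pool.Agent.VPN.LowerD
import Pool.Agent.VPN.LowerE

/-!
# The lower bound, from the ranks
-/

set_option autoImplicit false

open Finset Pool.Agent.VPO

namespace Pool.Agent.VPN

variable {K0 k : Type} [Field K0] [Field k] [Algebra K0 k] {n : ℕ}

/-- a short program gives many linear forms with coefficients and values in a small field -/
theorem exists_inv {α : (Σ m, Ind m) → k} {u : ∀ m, (Fin (W m) → Fin (W m + 1)) → k}
    (hα : ∀ m < n, ∀ i : Ind m, ∃ z : K0, algebraMap K0 k z = cc α u m i) {r : ℕ}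
    (hc : ComputedBy (orc α u) (bsum (hpoly α n)) r) (hr : 2 * (r + 1) ^ 2 ≤ 2 ^ n) :
    ∃ (s : Finset k) (P : Finset (Nd k (r + 1))) (T : Finset (Fin n → Fin 2)), P.card < 2 ^ n ∧
      Inv K0 (cv α u n (r + 1)) s ((nf n : Nd k (r + 1) → Ii n (r + 1) → k) '' P ∪
        eH (r + 1) '' (T : Set (Fin n → Fin 2))) (2 * r + 2) (2 * r + 1) := by
  classical
  obtain ⟨l, hl, hf⟩ := hc
  have hT : 2 * r + 2 ≤ (univ : Finset (Fin n → Fin 2)).card := by
    rw [card_univ, Fintype.card_fun, Fintype.card_fin, Fintype.card_fin]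
    nlinarith
  obtain ⟨T, -, hTc⟩ := exists_subset_card_eq hT
  obtain ⟨s0, P, h0⟩ := main_indN (R := r + 1) hα hl (by omega) T
  obtain ⟨s, h1, h2', h3'⟩ := h0.avail hf
  have hP : P.card < 2 ^ n := by
    have := h2'.card
    rw [hTc] at this
    nlinarith
  have heb : ∀ β ∈ T, RatV (IntermediateField.adjoin K0 (s : Set k)) (cv α u n (r + 1)) (eH (r + 1) β) := by
    intro β hβ
    refine ⟨eH_mem β, ?_⟩
    rw [sum_eH α u (Nat.succ_pos r)]
    exact h3' β hβ
  have hgain : ∀ T' ⊆ T, Inv K0 (cv α u n (r + 1)) s ((nf n : Nd k (r + 1) → Ii n (r + 1) → k) '' P ∪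
      eH (r + 1) '' (T' : Set (Fin n → Fin 2))) T'.card (2 * r + 1) := by
    intro T'
    induction T' using Finset.induction_on with
    | empty =>
      intro _
      simpa using h2'.inv
    | insert β T' hβ ih =>
      intro hsub
      have hT' : T' ⊆ T := (subset_insert _ _).trans hsub
      have hβT : β ∈ T := hsub (mem_insert_self _ _)
      have h4 : (nf n : Nd k (r + 1) → Ii n (r + 1) → k) '' P ∪ eH (r + 1) '' ((insert β T' : Finset _) : Set _) =
          (insert (eH (r + 1) β) ((nf n : Nd k (r + 1) → Ii n (r + 1) → k) '' P ∪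
            eH (r + 1) '' (T' : Set (Fin n → Fin 2))) : Set (Ii n (r + 1) → k)) := by
        rw [coe_insert, Set.image_insert_eq, Set.union_insert]
      rw [h4, card_insert_of_notMem hβ]
      refine (ih hT').gain (heb β hβT) ?_
      intro hmem
      obtain ⟨Θ, hΘ1, hΘ2⟩ := exists_functionalH (Nat.succ_pos r) P hP β
      have h5 : Submodule.span k ((nf n : Nd k (r + 1) → Ii n (r + 1) → k) '' P ∪
          eH (r + 1) '' (T' : Set (Fin n → Fin 2))) ≤ LinearMap.ker Θ := by
        rw [Submodule.span_le]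
        rintro v (⟨p, hp, rfl⟩ | ⟨β', hβ', rfl⟩)
        · exact hΘ1 p hp
        · show Θ _ = 0
          rw [hΘ2, if_neg]
          rintro rfl
          exact hβ hβ'
      have h6 : Θ (eH (r + 1) β) = 0 := h5 hmem
      rw [hΘ2, if_pos rfl] at h6
      exact one_ne_zero h6
  have h4 := hgain T (Subset.refl _)
  rw [hTc] at h4
  exact ⟨s, P, T, hP, h4⟩

theorem lower_rank {α : (Σ m, Ind m) → k} {u : ∀ m, (Fin (W m) → Fin (W m + 1)) → k} (n : ℕ)
    (hind : ∀ m, n ≤ m → rk K0 (Dm α u m ∪ Um u m) + Nat.card {i : Ind m // Frm m i} ≤ rk K0 (Dm α u (m + 1))) :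
    2 ^ n < 2 * (L (orc α u) ((fam α).poly n) + 1) ^ 2 := by
  by_contra hcon
  push Not at hcon
  let K1 := IntermediateField.adjoin K0 (Dm α u n ∪ Um u n)
  have hα : ∀ m < n, ∀ i : Ind m, ∃ z : K1, algebraMap K1 k z = cc α u m i := by
    intro m hm i
    have h3 : ∀ x ∈ Dm α u n, x ∈ K1 := fun x hx => IntermediateField.subset_adjoin K0 _ (Or.inl hx)
    have h4 : cc α u m i ∈ K1 := cc_mem (fun ξ => h3 _ ⟨m, hm, Or.inl ⟨ξ, rfl⟩⟩) i
      fun hi => h3 _ ⟨m, hm, Or.inr ⟨i, hi, rfl⟩⟩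
    exact ⟨⟨_, h4⟩, rfl⟩
  obtain ⟨s, P, T, hP, hI⟩ := exists_inv (K0 := K1) hα (computedBy_L _ _) hcon
  have hle : ∀ x ∈ IntermediateField.adjoin K1 (s : Set k), x ∈ clF K0 (Dm α u n ∪ Um u n ∪ s) := by
    intro x hx
    have h1 : x ∈ (IntermediateField.adjoin K1 (s : Set k)).restrictScalars K0 := hx
    rw [IntermediateField.adjoin_adjoin_left] at h1
    exact adjoin_le_clF _ h1
  have h5 := count_rank hind s _ (fun v hv => ⟨fun i => hle _ ((hI.rat v hv).1 i), hle _ (hI.rat v hv).2⟩) (by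
    rintro v (⟨q, _, rfl⟩ | ⟨β, _, rfl⟩)
    · refine ⟨q.1, fun i hi => ?_⟩
      by_contra hne
      exact hi (if_neg hne)
    · refine ⟨⟨0, Nat.succ_pos _⟩, fun i hi => ?_⟩
      obtain ⟨t, i | i⟩ := i
      · exact absurd rfl hi
      · by_contra hne
        exact hi (if_neg fun h => hne (Fin.ext h)))
    (fun v hv hv0 => eq_zero_of_span P hP _ v hv hv0)
  have h6 := hI.card
  omega

end Pool.Agent.VPN
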