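import Pool.Agent.VPE.Final
import Pool.Agent.VPN.LowerE

/-!
# The recursive choice of the coefficients

`u m` is chosen to have a given property relative to the oracle with the coefficients of the levels below `m`; the
generic coefficients of level `m` are chosen after that, independent of `u m` and of everything of lower level.
-/

set_option autoImplicit false

open MvPolynomial Pool.Agent.VPO

namespace Pool.Agent.VPN

variable {K0 k : Type} [Field K0] [Field k] [Algebra K0 k]

theorem exists_new {x : ℕ → k} (hx : AlgebraicIndependent K0 x) {Y : Set k} (hY : Y.Finite) :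
    ∃ y, rk K0 Y + 1 ≤ rk K0 (insert y Y) := by
  classical
  by_contra hcon
  push Not at hcon
  have h1 : ∀ y, y ∈ (Mat K0 k).closure Y := by
    intro y
    by_contra hy
    have h2 := (Mat K0 k).eRk_insert_eq_add_one (e := y) (X := Y) ⟨Set.mem_univ _, hy⟩
    rw [← coe_rk hY, ← coe_rk (hY.insert y)] at h2
    have h3 : rk K0 (insert y Y) = rk K0 Y + 1 := by exact_mod_cast h2
    have h4 := hcon y
    omega
  let s : Finset k := (Finset.range (rk K0 Y + 1)).image x
  have hs : rk K0 (s : Set k) = rk K0 Y + 1 := by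
    have h2 : (Mat K0 k).Indep (s : Set k) := by
      rw [AlgebraicIndependent.matroid_indep_iff]
      have h3 : AlgebraicIndepOn K0 id (Set.range x) := hx.coe_range
      exact h3.mono (by
        intro y hy
        obtain ⟨i, _, rfl⟩ := Finset.mem_image.1 (Finset.mem_coe.1 hy)
        exact ⟨i, rfl⟩)
    have h3 := h2.eRk_eq_encard
    rw [← coe_rk s.finite_toSet, Set.encard_coe_eq_coe_finsetCard,
      Finset.card_image_of_injective _ hx.injective, Finset.card_range] at h3
    exact_mod_cast h3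
  have h2 := rk_le_of_subset_clF (K0 := K0) s.finite_toSet hY fun y _ => clF_iff.2 (h1 y)
  omega

theorem exists_gen {x : ℕ → k} (hx : AlgebraicIndependent K0 x) {Y : Set k} (hY : Y.Finite) (N : ℕ) :
    ∃ a : Fin N → k, rk K0 Y + N ≤ rk K0 (Y ∪ Set.range a) := by
  induction N with
  | zero => exact ⟨fun _ => 0, by rw [Set.range_eq_empty, Set.union_empty]; exact le_rfl⟩
  | succ N ih =>
    obtain ⟨a, ha⟩ := ih
    obtain ⟨y, hy⟩ := exists_new hx (hY.union (Set.finite_range a))
    refine ⟨Fin.cons y a, ?_⟩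
    have h1 : Y ∪ Set.range (Fin.cons y a : Fin (N + 1) → k) = insert y (Y ∪ Set.range a) := by
      rw [Fin.range_cons, Set.union_insert]
    rw [h1]
    omega

theorem exists_gen_level {x : ℕ → k} (hx : AlgebraicIndependent K0 x) {Y : Set k} (hY : Y.Finite) (m : ℕ) :
    ∃ a : Ind m → k, rk K0 Y + Nat.card {i : Ind m // Frm m i} ≤
      rk K0 (Y ∪ {y | ∃ i, Frm m i ∧ a i = y}) := by
  classical
  obtain ⟨a, ha⟩ := exists_gen hx hY (Nat.card {i : Ind m // Frm m i})
  let e : {i : Ind m // Frm m i} ≃ Fin (Nat.card {i : Ind m // Frm m i}) := Finite.equivFin _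
  refine ⟨fun i => if h : Frm m i then a (e ⟨i, h⟩) else 0, ha.trans (rk_mono (hY.union ?_) ?_)⟩
  · refine (Set.finite_range fun i : Ind m => if h : Frm m i then a (e ⟨i, h⟩) else 0).subset ?_
    rintro y ⟨i, _, rfl⟩
    exact ⟨i, rfl⟩
  · rintro y (hy | ⟨j, rfl⟩)
    · exact Or.inl hy
    · refine Or.inr ⟨(e.symm j).1, (e.symm j).2, ?_⟩
      refine (dif_pos (e.symm j).2).trans ?_
      exact congrArg a (e.apply_symm_apply j)

/-- The property `P m G v` for the coefficients `v` of level `m` can be obtained for every oracle `G`, and depends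
only on the levels below `m` of `G`. -/
theorem exists_seq_rank {x : ℕ → k} (hx : AlgebraicIndependent K0 x)
    (P : ∀ m : ℕ, PFamily k → ((Fin (W m) → Fin (W m + 1)) → k) → Prop)
    (hP : ∀ (m : ℕ) (α : (Σ m, Ind m) → k) (u : ∀ m, (Fin (W m) → Fin (W m + 1)) → k), ∃ v, P m (orc α u) v)
    (hc : ∀ (m : ℕ) (α α' : (Σ m, Ind m) → k) (u u' : ∀ m, (Fin (W m) → Fin (W m + 1)) → k),
      (∀ j < m, ∀ i, α ⟨j, i⟩ = α' ⟨j, i⟩) → (∀ j < m, u j = u' j) → ∀ v, P m (orc α u) v → P m (orc α' u') v) :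
    ∃ (α : (Σ m, Ind m) → k) (u : ∀ m, (Fin (W m) → Fin (W m + 1)) → k),
      (∀ m, P m (orc α u) (u m)) ∧
      ∀ m, rk K0 (Dm α u m ∪ Um u m) + Nat.card {i : Ind m // Frm m i} ≤ rk K0 (Dm α u (m + 1)) := by
  let B : ℕ → Type := fun m => (Ind m → k) × ((Fin (W m) → Fin (W m + 1)) → k)
  let al : ∀ m, (∀ i, i < m → B i) → (Σ m, Ind m) → k := fun m prev i => if h : i.1 < m then (prev i.1 h).1 i.2 else 0
  let ul : ∀ m, (∀ i, i < m → B i) → ∀ j, (Fin (W j) → Fin (W j + 1)) → k :=
    fun m prev j => if h : j < m then (prev j h).2 else 0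
  obtain ⟨β, hβ⟩ := VPE.exists_seq (α := B)
    (fun m prev g => P m (orc (al m prev) (ul m prev)) g.2 ∧
      rk K0 (Dm (al m prev) (ul m prev) m ∪ Set.range g.2) + Nat.card {i : Ind m // Frm m i} ≤
        rk K0 (Dm (al m prev) (ul m prev) m ∪ Set.range g.2 ∪ {y | ∃ i, Frm m i ∧ g.1 i = y}))
    (by
      intro m prev
      obtain ⟨v, hv⟩ := hP m (al m prev) (ul m prev)
      obtain ⟨a, ha⟩ := exists_gen_level hx ((Dm_finite (al m prev) (ul m prev) m).union (Set.finite_range v)) m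
      exact ⟨(a, v), hv, ha⟩)
  let α : (Σ m, Ind m) → k := fun i => (β i.1).1 i.2
  let u : ∀ m, (Fin (W m) → Fin (W m + 1)) → k := fun m => (β m).2
  have h1 : ∀ m, ∀ j < m, ∀ i, al m (fun i _ => β i) ⟨j, i⟩ = α ⟨j, i⟩ := by
    intro m j hj i
    exact dif_pos hj
  have h2 : ∀ m, ∀ j < m, ul m (fun i _ => β i) j = u j := by
    intro m j hj
    exact dif_pos hj
  refine ⟨α, u, fun m => hc m _ _ _ _ (h1 m) (h2 m) _ (hβ m).1, fun m => ?_⟩
  have h3 := (hβ m).2
  have h4 : Dm (al m fun i _ => β i) (ul m fun i _ => β i) m = Dm α u m := by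
    ext y
    constructor
    · rintro ⟨j, hj, hy⟩
      refine ⟨j, hj, ?_⟩
      rcases hy with ⟨ξ, hy⟩ | ⟨i, hi, hy⟩
      · rw [h2 m j hj] at hy
        exact Or.inl ⟨ξ, hy⟩
      · rw [h1 m j hj] at hy
        exact Or.inr ⟨i, hi, hy⟩
    · rintro ⟨j, hj, hy⟩
      refine ⟨j, hj, ?_⟩
      rcases hy with ⟨ξ, hy⟩ | ⟨i, hi, hy⟩
      · rw [← h2 m j hj] at hy
        exact Or.inl ⟨ξ, hy⟩
      · rw [← h1 m j hj] at hy
        exact Or.inr ⟨i, hi, hy⟩
  rw [h4] at h3
  rw [Dm_succ]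
  exact h3

end Pool.Agent.VPN
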