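import Mathlib

/-!
# [VPN-CODE] coding exponents and indices in binary

As in VPE/Bin, but the coded parameters are elements of an extension field `F` of `k`, and the coefficients
of the resulting polynomial are in every subring of `k` which contains the coefficients of the given ones.
-/

set_option autoImplicit false

open MvPolynomial

namespace Pool.Agent.VPN

/-- the polynomials with coefficients in `A` -/
def CS {R : Type} [CommRing R] (σ : Type) (A : Subring R) : Subring (MvPolynomial σ R) where
  carrier := {p | ∀ ν, coeff ν p ∈ A}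
  mul_mem' := by
    classical
    intro p q hp hq ν
    rw [coeff_mul]
    exact A.sum_mem fun x _ => A.mul_mem (hp _) (hq _)
  one_mem' := by
    classical
    intro ν
    rw [coeff_one]
    split_ifs
    · exact A.one_mem
    · exact A.zero_mem
  add_mem' := by
    intro p q hp hq ν
    rw [coeff_add]
    exact A.add_mem (hp ν) (hq ν)
  zero_mem' := by
    intro ν
    rw [coeff_zero]
    exact A.zero_mem
  neg_mem' := by
    intro p hp ν
    rw [coeff_neg]
    exact A.neg_mem (hp ν)

section

variable {R : Type} [CommRing R] {σ τ : Type} {A : Subring R}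

theorem mem_CS {p : MvPolynomial σ R} : p ∈ CS σ A ↔ ∀ ν, coeff ν p ∈ A := Iff.rfl

theorem C_mem_CS {c : R} (hc : c ∈ A) : (C c : MvPolynomial σ R) ∈ CS σ A := by
  classical
  intro ν
  rw [coeff_C]
  split_ifs
  · exact hc
  · exact A.zero_mem

theorem X_mem_CS (i : σ) : (X i : MvPolynomial σ R) ∈ CS σ A := by
  classical
  intro ν
  rw [coeff_X]
  split_ifs
  · exact A.one_mem
  · exact A.zero_mem

theorem monomial_mem_CS (s : σ →₀ ℕ) {c : R} (hc : c ∈ A) : (monomial s c : MvPolynomial σ R) ∈ CS σ A := by
  classical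
  intro ν
  rw [coeff_monomial]
  split_ifs
  · exact hc
  · exact A.zero_mem

/-- substitution in a polynomial with coefficients in `A` -/
theorem aeval_mem {S : Type} [CommRing S] [Algebra R S] {B : Subring S} (hAB : ∀ c ∈ A, algebraMap R S c ∈ B)
    {p : MvPolynomial σ R} (hp : p ∈ CS σ A) {a : σ → S} (ha : ∀ i, a i ∈ B) : aeval a p ∈ B := by
  rw [aeval_def]
  exact eval₂_mem (fun i _ => hAB _ (hp i)) ha

theorem rename_mem_CS (ρ : σ → τ) {p : MvPolynomial σ R} (hp : p ∈ CS σ A) : rename ρ p ∈ CS τ A := by
  have h := aeval_mem (S := MvPolynomial τ R) (B := CS τ A) (fun c hc => C_mem_CS hc) hp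
    (a := X ∘ ρ) (fun i => X_mem_CS _)
  rw [← aeval_rename, aeval_X_left_apply] at h
  exact h

end

variable {k : Type} [Field k]

/-- binary expansion of a power -/
private theorem bin_pow {F : Type} [Field F] (b : ℕ) : ∀ (n : ℕ) (c : F), n < 2 ^ b →
    ∏ t : Fin b, (if n.testBit t then c ^ 2 ^ (t : ℕ) else 1) = c ^ n := by
  induction b with
  | zero =>
    intro n c hn
    have : n = 0 := by simpa using hn
    simp [this]
  | succ b ih =>
    intro n c hn
    rw [Fin.prod_univ_succ]
    have h1 : n / 2 < 2 ^ b := by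
      rw [pow_succ] at hn
      omega
    have h2 := ih (n / 2) (c ^ 2) h1
    have h3 : ∀ t : Fin b, (if n.testBit ((t.succ : Fin (b + 1)) : ℕ) then c ^ 2 ^ ((t.succ : Fin (b + 1)) : ℕ) else 1) =
        (if (n / 2).testBit t then (c ^ 2) ^ 2 ^ (t : ℕ) else 1) := by
      intro t
      rw [Fin.val_succ, Nat.testBit_succ]
      congr 1
      rw [← pow_mul, pow_succ' 2 (t : ℕ)]
    rw [Finset.prod_congr rfl (fun t _ => h3 t), h2]
    have h4 : n.testBit ((0 : Fin (b + 1)) : ℕ) = decide (n % 2 = 1) := by
      simp [Nat.testBit_zero]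
    rw [h4, ← pow_mul]
    rcases Nat.mod_two_eq_zero_or_one n with h5 | h5
    · simp only [h5]
      have : 2 * (n / 2) = n := by omega
      simp [this]
    · simp only [h5]
      have : n = 2 * (n / 2) + 1 := by omega
      conv_rhs => rw [this]
      simp [pow_succ, mul_comm]

/-- the coded monomial -/
private noncomputable def binMon {P : Type} [Fintype P] {b : ℕ} (s : P →₀ ℕ) : MvPolynomial (P × Fin b) k :=
  ∏ i : P, ∏ t : Fin b, (if (s i).testBit t then X (i, t) else 1)

private theorem binMon_deg {P : Type} [Fintype P] {b : ℕ} (s : P →₀ ℕ) :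
    (binMon s : MvPolynomial (P × Fin b) k).totalDegree ≤ Fintype.card P * b := by
  unfold binMon
  refine (totalDegree_finsetProd _ _).trans ?_
  have h : ∀ i ∈ (Finset.univ : Finset P),
      (∏ t : Fin b, (if (s i).testBit t then X (i, t) else 1 : MvPolynomial (P × Fin b) k)).totalDegree ≤ b := by
    intro i _
    refine (totalDegree_finsetProd _ _).trans ?_
    refine (Finset.sum_le_card_nsmul _ _ 1 ?_).trans (by simp)
    intro t _
    split_ifs
    · rw [totalDegree_X]
    · simp
  refine (Finset.sum_le_card_nsmul _ _ b h).trans (by simp)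

private theorem binMon_mem {P : Type} [Fintype P] {b : ℕ} (s : P →₀ ℕ) (A : Subring k) :
    (binMon s : MvPolynomial (P × Fin b) k) ∈ CS _ A := by
  unfold binMon
  refine Subring.prod_mem _ fun i _ => Subring.prod_mem _ fun t _ => ?_
  split_ifs
  · exact X_mem_CS _
  · exact Subring.one_mem _

private theorem binMon_eval {F : Type} [Field F] [Algebra k F] {P : Type} [Fintype P] {b : ℕ} (s : P →₀ ℕ)
    (hs : ∀ i, s i < 2 ^ b) (c : P → F) :
    aeval (fun it : P × Fin b => c it.1 ^ 2 ^ (it.2 : ℕ)) (binMon s : MvPolynomial (P × Fin b) k) =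
      ∏ i, c i ^ s i := by
  unfold binMon
  rw [map_prod]
  refine Finset.prod_congr rfl fun i _ => ?_
  rw [map_prod, ← bin_pow b (s i) (c i) (hs i)]
  refine Finset.prod_congr rfl fun t _ => ?_
  split_ifs
  · rw [aeval_X]
  · rw [map_one]

theorem bin_polyN {P : Type} [Fintype P] {b : ℕ} (ψ : MvPolynomial P k) (hψ : ψ.totalDegree < 2 ^ b) :
    ∃ g : MvPolynomial (P × Fin b) k, g.totalDegree ≤ Fintype.card P * b ∧
      (∀ A : Subring k, ψ ∈ CS P A → g ∈ CS _ A) ∧
      ∀ (F : Type) [Field F] [Algebra k F] (c : P → F),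
        aeval (fun it : P × Fin b => c it.1 ^ 2 ^ (it.2 : ℕ)) g = aeval c ψ := by
  refine ⟨∑ s ∈ ψ.support, C (ψ.coeff s) * binMon s, ?_, ?_, ?_⟩
  · refine totalDegree_finsetSum_le fun s _ => ?_
    refine (totalDegree_mul _ _).trans ?_
    rw [totalDegree_C, zero_add]
    exact binMon_deg s
  · intro A hA
    exact Subring.sum_mem _ fun s _ => Subring.mul_mem _ (C_mem_CS (hA s)) (binMon_mem s A)
  · intro F _ _ c
    rw [map_sum, aeval_def c ψ, eval₂_eq']
    refine Finset.sum_congr rfl fun s hs => ?_
    rw [map_mul, aeval_C, binMon_eval]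
    intro i
    refine lt_of_le_of_lt ?_ hψ
    refine le_trans ?_ (le_totalDegree hs)
    by_cases hi : i ∈ s.support
    · exact Finset.single_le_sum (f := fun j => s j) (fun _ _ => Nat.zero_le _) hi
    · rw [Finsupp.notMem_support_iff.1 hi]
      exact Nat.zero_le _

/-- the selector -/
private noncomputable def binSel {B : ℕ} (u : Fin B → Bool) : MvPolynomial (Fin B) k :=
  ∏ i, (if u i then X i else 1 - X i)

private theorem binSel_deg {B : ℕ} (u : Fin B → Bool) : (binSel u : MvPolynomial (Fin B) k).totalDegree ≤ B := by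
  unfold binSel
  refine (totalDegree_finsetProd _ _).trans ?_
  refine (Finset.sum_le_card_nsmul _ _ 1 ?_).trans (by simp)
  intro i _
  split_ifs
  · rw [totalDegree_X]
  · refine (totalDegree_sub _ _).trans ?_
    rw [totalDegree_X, totalDegree_one]
    simp

private theorem binSel_mem {B : ℕ} (u : Fin B → Bool) (A : Subring k) :
    (binSel u : MvPolynomial (Fin B) k) ∈ CS _ A := by
  unfold binSel
  refine Subring.prod_mem _ fun i _ => ?_
  split_ifs
  · exact X_mem_CS _
  · exact Subring.sub_mem _ (Subring.one_mem _) (X_mem_CS _)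

private theorem binSel_eval (F : Type) [Field F] [Algebra k F] {B : ℕ} (u v : Fin B → Bool) :
    aeval (fun i => if v i then (1 : F) else 0) (binSel u : MvPolynomial (Fin B) k) = if u = v then 1 else 0 := by
  unfold binSel
  rw [map_prod]
  split_ifs with h
  · subst h
    refine Finset.prod_eq_one fun i _ => ?_
    by_cases hi : u i = true
    · simp [hi]
    · simp [hi]
  · obtain ⟨i, hi⟩ := Function.ne_iff.1 h
    refine Finset.prod_eq_zero (Finset.mem_univ i) ?_
    by_cases h1 : u i = true
    · have h2 : v i = false := by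
        by_contra h3
        exact hi (by rw [h1]; simpa using (Bool.eq_true_of_not_eq_false h3).symm)
      simp [h1, h2]
    · have h1' : u i = false := by simpa using h1
      have h2 : v i = true := by
        by_contra h3
        exact hi (by rw [h1']; simpa using (Bool.eq_false_of_not_eq_true h3).symm)
      simp [h1', h2]

private theorem bin_aevalC {F : Type} [Field F] [Algebra k F] {σ : Type} {m : ℕ} (x : σ → F)
    (p : MvPolynomial σ k) :
    aeval (fun i => (C (x i) : MvPolynomial (Fin m) F)) p = C (aeval x p) := by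
  have := aeval_algebraMap_apply (R := k) (MvPolynomial (Fin m) F) x p
  rw [algebraMap_eq] at this
  exact this

private theorem aeval_X_monomial {F : Type} [Field F] [Algebra k F] {m : ℕ} (s : Fin m →₀ ℕ) :
    aeval (X : Fin m → MvPolynomial (Fin m) F) (monomial s (1 : k)) = monomial s 1 := by
  rw [aeval_monomial, map_one, one_mul, monomial_eq, C_1, one_mul]

theorem encodeN {A : Type} [Fintype A] {P : Type} [Fintype P] {m b B d : ℕ} (hA : Fintype.card A ≤ 2 ^ B)
    {J : Type} [Fintype J]
    (e : J → (Fin m →₀ ℕ)) (he : ∀ j, (e j).sum (fun _ x => x) ≤ d) (Ψ : A → J → MvPolynomial P k)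
    (hΨ : ∀ a j, (Ψ a j).totalDegree < 2 ^ b) :
    ∃ g : MvPolynomial (Fin m ⊕ ((P × Fin b) ⊕ Fin B)) k, g.totalDegree ≤ d + Fintype.card P * b + B ∧
      (∀ A' : Subring k, (∀ a j, Ψ a j ∈ CS P A') → g ∈ CS _ A') ∧
      ∀ (F : Type) [Field F] [Algebra k F] (a : A) (c : P → F), ∃ x : ((P × Fin b) ⊕ Fin B) → F,
        aeval (Sum.elim (X : Fin m → MvPolynomial (Fin m) F) fun i => C (x i)) g =
          ∑ j, monomial (e j) (aeval c (Ψ a j)) := by
  classical
  have hcard : Fintype.card A ≤ Fintype.card (Fin B → Bool) := by simpa using hA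
  obtain ⟨code⟩ := Function.Embedding.nonempty_of_card_le hcard
  choose G hG1 hG2 hG3 using fun a j => bin_polyN (b := b) (Ψ a j) (hΨ a j)
  refine ⟨∑ a, rename (fun i => Sum.inr (Sum.inr i)) (binSel (code a)) *
    ∑ j, rename (fun it => Sum.inr (Sum.inl it)) (G a j) * rename Sum.inl (monomial (e j) 1), ?_, ?_, ?_⟩
  · refine totalDegree_finsetSum_le fun a _ => ?_
    refine (totalDegree_mul _ _).trans ?_
    have h1 : (rename (fun i => (Sum.inr (Sum.inr i) : Fin m ⊕ ((P × Fin b) ⊕ Fin B)))
        (binSel (code a) : MvPolynomial (Fin B) k)).totalDegree ≤ B :=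
      (totalDegree_rename_le _ _).trans (binSel_deg _)
    have h2 : (∑ j, rename (fun it => (Sum.inr (Sum.inl it) : Fin m ⊕ ((P × Fin b) ⊕ Fin B))) (G a j) *
        rename Sum.inl (monomial (e j) 1)).totalDegree ≤ Fintype.card P * b + d := by
      refine totalDegree_finsetSum_le fun j _ => ?_
      refine (totalDegree_mul _ _).trans (add_le_add ?_ ?_)
      · exact (totalDegree_rename_le _ _).trans (hG1 a j)
      · refine (totalDegree_rename_le _ _).trans ?_
        refine (totalDegree_monomial_le _ _).trans ?_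
        exact he j
    omega
  · intro A' hA'
    refine Subring.sum_mem _ fun a _ => Subring.mul_mem _ (rename_mem_CS _ (binSel_mem _ A')) ?_
    refine Subring.sum_mem _ fun j _ => Subring.mul_mem _ (rename_mem_CS _ (hG2 a j A' (hA' a j))) ?_
    exact rename_mem_CS _ (monomial_mem_CS _ A'.one_mem)
  · intro F _ _ a c
    refine ⟨Sum.elim (fun it => c it.1 ^ 2 ^ (it.2 : ℕ)) (fun i => if code a i then 1 else 0), ?_⟩
    rw [map_sum, Finset.sum_eq_single a]
    · rw [map_mul, aeval_rename]
      have h1 : aeval ((Sum.elim (X : Fin m → MvPolynomial (Fin m) F) fun i => C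
          ((Sum.elim (fun it : P × Fin b => c it.1 ^ 2 ^ (it.2 : ℕ)) (fun i => if code a i then 1 else 0) :
            ((P × Fin b) ⊕ Fin B) → F) i)) ∘ fun i => Sum.inr (Sum.inr i)) (binSel (code a) : MvPolynomial (Fin B) k) =
          (1 : MvPolynomial (Fin m) F) := by
        have := bin_aevalC (m := m) (fun i => if code a i then (1 : F) else 0) (binSel (code a) : MvPolynomial (Fin B) k)
        rw [binSel_eval, if_pos rfl, C_1] at this
        exact this
      rw [h1, one_mul, map_sum]
      refine Finset.sum_congr rfl fun j _ => ?_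
      rw [map_mul, aeval_rename, aeval_rename]
      have h2 : aeval ((Sum.elim (X : Fin m → MvPolynomial (Fin m) F) fun i => C
          ((Sum.elim (fun it : P × Fin b => c it.1 ^ 2 ^ (it.2 : ℕ)) (fun i => if code a i then 1 else 0) :
            ((P × Fin b) ⊕ Fin B) → F) i)) ∘ fun it => Sum.inr (Sum.inl it)) (G a j) =
          (C (aeval c (Ψ a j)) : MvPolynomial (Fin m) F) := by
        rw [← hG3 a j F c]
        exact bin_aevalC (m := m) (fun it : P × Fin b => c it.1 ^ 2 ^ (it.2 : ℕ)) (G a j)
      have h3 : aeval ((Sum.elim (X : Fin m → MvPolynomial (Fin m) F) fun i => C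
          ((Sum.elim (fun it : P × Fin b => c it.1 ^ 2 ^ (it.2 : ℕ)) (fun i => if code a i then 1 else 0) :
            ((P × Fin b) ⊕ Fin B) → F) i)) ∘ Sum.inl) (monomial (e j) (1 : k)) =
          (monomial (e j) 1 : MvPolynomial (Fin m) F) := by
        exact aeval_X_monomial _
      rw [h2, h3, C_mul_monomial, mul_one]
    · intro a' _ ha'
      rw [map_mul, aeval_rename]
      have h1 : aeval ((Sum.elim (X : Fin m → MvPolynomial (Fin m) F) fun i => C
          ((Sum.elim (fun it : P × Fin b => c it.1 ^ 2 ^ (it.2 : ℕ)) (fun i => if code a i then 1 else 0) :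
            ((P × Fin b) ⊕ Fin B) → F) i)) ∘ fun i => Sum.inr (Sum.inr i)) (binSel (code a') : MvPolynomial (Fin B) k) =
          (0 : MvPolynomial (Fin m) F) := by
        have := bin_aevalC (m := m) (fun i => if code a i then (1 : F) else 0) (binSel (code a') : MvPolynomial (Fin B) k)
        rw [binSel_eval, if_neg (fun h => ha' (code.injective h)), C_0] at this
        exact this
      rw [h1, zero_mul]
    · intro h
      exact absurd (Finset.mem_univ a) h

end Pool.Agent.VPN
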