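import Pool.Agent.VPO.Defs

/-!
# Exponential sums relative to an oracle

Valiant's class `VNP` and its closure, relative to an oracle `G` (for the oracle complexity see
`Pool.Agent.VPO.Defs`).
-/

set_option autoImplicit false

open MvPolynomial Pool.Agent.VPO

namespace Pool.Agent.VPN

variable {k : Type} [Field k]

/-- the exponential sum `∑ g(X, e)` over all `e ∈ {0, 1} ^ u` -/
noncomputable def bsum {F : Type} [Field F] {n u : ℕ} (g : MvPolynomial (Fin (n + u)) F) :
    MvPolynomial (Fin n) F :=
  ∑ e : Fin u → Fin 2, aeval (Fin.append (X : Fin n → MvPolynomial (Fin n) F)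
    fun j => C ((e j : ℕ) : F)) g

/-- `f` is an exponential sum of cost at most `r` over `F` relative to the oracle `G`: a sum over
`{0, 1} ^ u`, with `u ≤ r`, of a polynomial `g` with `L^G(g) ≤ r`. -/
def SumComputedBy (G : PFamily k) {F : Type} [Field F] [Algebra k F] {n : ℕ}
    (f : MvPolynomial (Fin n) F) (r : ℕ) : Prop :=
  ∃ (u : ℕ) (g : MvPolynomial (Fin (n + u)) F), u ≤ r ∧ L G g ≤ r ∧ f = bsum g

/-- the exponential sum complexity of `f` over `F` relative to `G` -/
noncomputable def LN (G : PFamily k) {F : Type} [Field F] [Algebra k F] {n : ℕ}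
    (f : MvPolynomial (Fin n) F) : ℕ :=
  sInf {r | SumComputedBy G f r}

/-- the approximative exponential sum complexity of `f`: the least exponential sum complexity over
`k(ε)` of a polynomial `F` whose coefficients are defined at `ε = 0` and which becomes `f` there. -/
noncomputable def LNapp (G : PFamily k) {n : ℕ} (f : MvPolynomial (Fin n) k) : ℕ :=
  sInf {r | ∃ F : MvPolynomial (Fin n) (RatFunc k),
    (∀ m, HasValueAtZero (coeff m F) (coeff m f)) ∧ LN G F = r}

/-- Valiant's class `VNP` relative to `G`: the p-families `f` for which there are a polynomially bounded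
`u` and polynomials `g n` in `f.vars n + u n` variables, of polynomially bounded degree and complexity
relative to `G`, with `f.poly n` the exponential sum of `g n`. -/
def VNP (G : PFamily k) : Set (PFamily k) :=
  {f | ∃ (u : ℕ → ℕ) (g : ∀ n, MvPolynomial (Fin (f.vars n + u n)) k), PBounded u ∧
    PBounded (fun n => (g n).totalDegree) ∧ PBounded (fun n => L G (g n)) ∧
    ∀ n, f.poly n = bsum (g n)}

/-- the class of the p-families of polynomially bounded approximative exponential sum complexity
relative to `G` -/
def VNPbar (G : PFamily k) : Set (PFamily k) := {f | PBounded fun n => LNapp G (f.poly n)}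

end Pool.Agent.VPN
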