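import Pool.Agent.VPO.Lower
import Pool.Agent.VPO.Upper
import Pool.Agent.VPN.Defs

/-!
# The oracle

The polynomial of level `m` has variables `X` (`W m` of them), `x` (`m`), `y` (`m`) and `w`. It is the sum of
a part of degree `0` in `w`, whose coefficient at `y_1 ⋯ y_m` is the polynomial `U_m(X)` with coefficients `u m`
and which has generic coefficients at the `y`-monomials of smaller weight, and of `w` times a generic polynomial
in `x` and `y`.
-/

set_option autoImplicit false

open Finset Pool.Agent.VPO

namespace Pool.Agent.VPN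

/-- the number of variables of `U_m`, also a bound for its degree -/
def W (m : ℕ) : ℕ := 32 * (m + 2) ^ 8

/-- the variables of the oracle polynomial of level `m` -/
abbrev Var (m : ℕ) : Type := Fin (W m) ⊕ (Fin m ⊕ (Fin m ⊕ Unit))

/-- exponents of the monomials in `X` and `y` -/
abbrev IC (m : ℕ) : Type := (Fin (W m) → Fin (W m + 1)) × (Fin m → Fin 3)

/-- exponents of the monomials in `x` and `y` -/
abbrev IH (m : ℕ) : Type := (Fin m → Fin 2) × (Fin m → Fin 3)

/-- all monomials of level `m` -/
abbrev Ind (m : ℕ) : Type := IC m ⊕ IH m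

section

variable {B : Type} [CommRing B] {m : ℕ} (p : Var m → B)

/-- the `X`-part of a point -/
def pX : Fin (W m) → B := fun v => p (Sum.inl v)

/-- the `x`-part of a point -/
def px : Fin m → B := fun v => p (Sum.inr (Sum.inl v))

/-- the `y`-part of a point -/
def py : Fin m → B := fun v => p (Sum.inr (Sum.inr (Sum.inl v)))

/-- the `w`-part of a point -/
def pw : B := p (Sum.inr (Sum.inr (Sum.inr ())))

/-- the monomial with index `i` at the point `p` -/
def me : Ind m → B
  | Sum.inl (ξ, b) => mon (pX p) ξ * mon (py p) b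
  | Sum.inr (e, b) => pw p * (mon (px p) e * mon (py p) b)

end

section

variable {A : Type} [CommRing A] {m : ℕ}

/-- the polynomial with coefficients `c` -/
noncomputable def qpoly (c : Ind m → A) : MvPolynomial (Var m) A :=
  ∑ i : Ind m, MvPolynomial.C (c i) * me (fun v => MvPolynomial.X v) i

theorem map_me {B B' : Type} [CommRing B] [CommRing B'] (φ : B →+* B') (p : Var m → B) (i : Ind m) :
    φ (me p i) = me (fun v => φ (p v)) i := by
  rcases i with ⟨ξ, b⟩ | ⟨e, b⟩
  · show φ (mon (pX p) ξ * mon (py p) b) = _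
    rw [map_mul, map_mon, map_mon]
    rfl
  · show φ (pw p * (mon (px p) e * mon (py p) b)) = _
    rw [map_mul, map_mul, map_mon, map_mon]
    rfl

theorem aeval_qpoly {B : Type} [CommRing B] [Algebra A B] (c : Ind m → A) (p : Var m → B) :
    MvPolynomial.aeval p (qpoly c) = ∑ i : Ind m, algebraMap A B (c i) * me p i := by
  unfold qpoly
  rw [map_sum]
  apply sum_congr rfl
  intro i _
  rw [map_mul, MvPolynomial.aeval_C]
  congr 1
  have h := map_me ((MvPolynomial.aeval p : MvPolynomial (Var m) A →ₐ[A] B) : MvPolynomial (Var m) A →+* B)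
    (fun v => MvPolynomial.X v) i
  refine h.trans ?_
  congr 1
  funext v
  exact MvPolynomial.aeval_X p v

theorem totalDegree_qpoly_le (c : Ind m → A) : (qpoly c).totalDegree ≤ W m * W m + 2 * m + 1 := by
  unfold qpoly
  refine MvPolynomial.totalDegree_finsetSum_le ?_
  intro i _
  refine (MvPolynomial.totalDegree_mul _ _).trans ?_
  rw [MvPolynomial.totalDegree_C, zero_add]
  have hX : ∀ v : Var m, (MvPolynomial.X v : MvPolynomial (Var m) A).totalDegree ≤ 1 := totalDegree_X_le
  rcases i with ⟨ξ, b⟩ | ⟨e, b⟩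
  · refine (MvPolynomial.totalDegree_mul _ _).trans ?_
    have h1 := totalDegree_mon_le (W m) (le_refl _) (pX (m := m) fun v => (MvPolynomial.X v : MvPolynomial (Var m) A))
      (fun j => hX _) ξ
    have h2 := totalDegree_mon_le 2 (le_refl _) (py (m := m) fun v => (MvPolynomial.X v : MvPolynomial (Var m) A))
      (fun j => hX _) b
    omega
  · refine (MvPolynomial.totalDegree_mul _ _).trans ?_
    have h0 : (pw (m := m) fun v => (MvPolynomial.X v : MvPolynomial (Var m) A)).totalDegree ≤ 1 := hX _
    have h1 := totalDegree_mon_le 1 (le_refl _) (px (m := m) fun v => (MvPolynomial.X v : MvPolynomial (Var m) A))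
      (fun j => hX _) e
    have h2 := totalDegree_mon_le 2 (le_refl _) (py (m := m) fun v => (MvPolynomial.X v : MvPolynomial (Var m) A))
      (fun j => hX _) b
    have h3 := MvPolynomial.totalDegree_mul (mon (px (m := m) fun v => (MvPolynomial.X v : MvPolynomial (Var m) A)) e)
      (mon (py (m := m) fun v => (MvPolynomial.X v : MvPolynomial (Var m) A)) b)
    have h4 : m ≤ W m * W m := by
      have : m ≤ W m := by
        unfold W
        have h5 : m + 2 ≤ (m + 2) ^ 8 := Nat.le_self_pow (by norm_num) _
        omega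
      nlinarith
    omega

end

/-- the number of variables of the oracle polynomial of level `m` (there are unused variables) -/
def NV (m : ℕ) : ℕ := W m * W m + 2 * m + 1

theorem le_NV (m : ℕ) : m ≤ NV m := by
  unfold NV
  omega

theorem card_Var (m : ℕ) : Fintype.card (Var m) ≤ Fintype.card (Fin (NV m)) := by
  have h : W m ≤ W m * W m := by nlinarith [Nat.zero_le (W m), Nat.le_mul_self (W m)]
  simp only [Fintype.card_sum, Fintype.card_fin, Fintype.card_unit]
  unfold NV
  omega

/-- the variables of level `m` among `NV m` variables -/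
noncomputable def emb (m : ℕ) : Var m ↪ Fin (NV m) :=
  (Function.Embedding.nonempty_of_card_le (card_Var m)).some

theorem NV_bdd {t : ℕ → ℕ} (h : ∀ n, t n ≤ NV n) : PBounded t := by
  refine ⟨(32 * (Polynomial.X + 2) ^ 8) * (32 * (Polynomial.X + 2) ^ 8) + 2 * Polynomial.X + 1, fun n => (h n).trans (le_of_eq ?_)⟩
  unfold NV W
  simp

variable {k : Type} [Field k]

/-- the coefficients of the oracle polynomial of level `m` -/
noncomputable def cc (α : (Σ m, Ind m) → k) (u : ∀ m, (Fin (W m) → Fin (W m + 1)) → k) (m : ℕ) : Ind m → k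
  | Sum.inl (ξ, b) => if wt b < wt (one m) then α ⟨m, Sum.inl (ξ, b)⟩ else if b = one m then u m ξ else 0
  | Sum.inr i => α ⟨m, Sum.inr i⟩

/-- the oracle -/
noncomputable def orc (α : (Σ m, Ind m) → k) (u : ∀ m, (Fin (W m) → Fin (W m + 1)) → k) : PFamily k where
  vars := NV
  poly := fun m => MvPolynomial.rename (emb m) (qpoly (cc α u m))
  vars_bdd := NV_bdd fun _ => le_rfl
  deg_bdd := NV_bdd fun _ => (MvPolynomial.totalDegree_rename_le _ _).trans (totalDegree_qpoly_le _)

/-- the generic polynomial in `x` and `y` of level `n` -/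
noncomputable def hpoly (α : (Σ m, Ind m) → k) (n : ℕ) : MvPolynomial (Fin (n + n)) k :=
  ∑ i : IH n, MvPolynomial.C (α ⟨n, Sum.inr i⟩) *
    (mon (fun j => MvPolynomial.X (Fin.castAdd n j)) i.1 * mon (fun j => MvPolynomial.X (Fin.natAdd n j)) i.2)

theorem bsum_hpoly (α : (Σ m, Ind m) → k) (n : ℕ) : bsum (hpoly α n) =
    ∑ i : IH n, MvPolynomial.C (α ⟨n, Sum.inr i⟩ * ∑ y : Fin n → Fin 2, mon (fun j => ((y j : ℕ) : k)) i.2) *
      mon (fun j => (MvPolynomial.X j : MvPolynomial (Fin n) k)) i.1 := by
  unfold bsum hpoly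
  have h : ∀ y : Fin n → Fin 2, MvPolynomial.aeval (Fin.append (MvPolynomial.X : Fin n → MvPolynomial (Fin n) k)
      fun j => MvPolynomial.C ((y j : ℕ) : k))
      (∑ i : IH n, MvPolynomial.C (α ⟨n, Sum.inr i⟩) *
        (mon (fun j => MvPolynomial.X (Fin.castAdd n j)) i.1 * mon (fun j => MvPolynomial.X (Fin.natAdd n j)) i.2)) =
      ∑ i : IH n, MvPolynomial.C (α ⟨n, Sum.inr i⟩) * (mon (fun j => (MvPolynomial.X j : MvPolynomial (Fin n) k)) i.1 *
        MvPolynomial.C (mon (fun j => ((y j : ℕ) : k)) i.2)) := by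
    intro y
    rw [map_sum]
    apply sum_congr rfl
    intro i _
    rw [map_mul, map_mul, aeval_mon, aeval_mon, MvPolynomial.aeval_C]
    simp only [MvPolynomial.aeval_X, Fin.append_left, Fin.append_right]
    rw [map_mon (MvPolynomial.C : k →+* MvPolynomial (Fin n) k)]
    rfl
  rw [sum_congr rfl fun y _ => h y, sum_comm]
  apply sum_congr rfl
  intro i _
  rw [map_mul, map_sum, mul_sum, sum_mul]
  apply sum_congr rfl
  intro y _
  ring

theorem totalDegree_bsum_hpoly_le (α : (Σ m, Ind m) → k) (n : ℕ) : (bsum (hpoly α n)).totalDegree ≤ n := by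
  rw [bsum_hpoly]
  refine MvPolynomial.totalDegree_finsetSum_le ?_
  intro i _
  refine (MvPolynomial.totalDegree_mul _ _).trans ?_
  rw [MvPolynomial.totalDegree_C, zero_add]
  have h1 := totalDegree_mon_le 1 (le_refl _) (fun j => (MvPolynomial.X j : MvPolynomial (Fin n) k))
    (fun j => totalDegree_X_le _) i.1
  omega

/-- the family of the sums of the generic polynomials in `x` and `y` over `y ∈ {0, 1} ^ n` -/
noncomputable def fam (α : (Σ m, Ind m) → k) : PFamily k where
  vars := fun n => n
  poly := fun n => bsum (hpoly α n)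
  vars_bdd := pbounded_of_le 1 fun n => by omega
  deg_bdd := pbounded_of_le 1 fun n => by
    have := totalDegree_bsum_hpoly_le α n
    omega

end Pool.Agent.VPN
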