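import Pool.Agent.VPE.UnivB
import Pool.Agent.VPE.Lim
import Pool.Agent.VPN.Orc
import Pool.Agent.VPN.Code

/-!
# [VPN-STEP] one polynomial which covers the exponential sums of cost `m`

Like VPE/Step, but for the exact classes and over every extension field `F` of `k`.

The parameters are `Par (m + m) m` (`VPE.univ` with `n := m + m`), the index is a pair of the gates `w` and the length `u ≤ m`
of the sum. `BS u p` is the sum over `e ∈ {0, 1} ^ u` of the polynomial `p` in `m + m` variables, of which the last `m` are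
replaced by `e` and zeros. The coefficients of `BS u` of the universal polynomials `uout G (gen k (m + m) m) (gates w)` have
degree at most `(m + 3) ^ m` in the parameters, and they have coefficients in every subring of `k` which contains the
coefficients of the oracle polynomials in less than `m` variables. They are coded in one polynomial by `encodeN`.
-/

set_option autoImplicit false

open MvPolynomial Pool.Agent.VPO Pool.Agent.VPE

namespace Pool.Agent.VPN

/-- exponents `≤ m` as a finitely supported function -/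
noncomputable def ex (m : ℕ) (j : Fin m → Fin (m + 1)) : Fin m →₀ ℕ :=
  Finsupp.equivFunOnFinite.symm fun i => (j i : ℕ)

private theorem ex_apply' (m : ℕ) (j : Fin m → Fin (m + 1)) (i : Fin m) : ex m j i = (j i : ℕ) := rfl

private theorem ex_sum' (m : ℕ) (j : Fin m → Fin (m + 1)) : (ex m j).sum (fun _ x => x) ≤ m * m := by
  rw [Finsupp.sum_fintype _ _ (fun _ => rfl)]
  calc ∑ i, ex m j i ≤ ∑ _i : Fin m, m := Finset.sum_le_sum fun i _ => by rw [ex_apply']; omega
    _ = m * m := by simp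

section BS

/-- the point `e` of `{0, 1} ^ u`, continued by zeros, as constants -/
noncomputable def pt {R : Type} [CommRing R] (m u : ℕ) (e : Fin u → Fin 2) : Fin (m + m) → MvPolynomial (Fin m) R :=
  Fin.append (X : Fin m → MvPolynomial (Fin m) R) fun j => C (if h : (j : ℕ) < u then ((e ⟨j, h⟩ : ℕ) : R) else 0)

/-- the exponential sum with `u` summation variables -/
noncomputable def BS {R : Type} [CommRing R] {m : ℕ} (u : ℕ) (p : MvPolynomial (Fin (m + m)) R) :
    MvPolynomial (Fin m) R :=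
  ∑ e : Fin u → Fin 2, aeval (pt m u e) p

theorem map_pt {R R' : Type} [CommRing R] [CommRing R'] (φ : R →+* R') (m u : ℕ) (e : Fin u → Fin 2)
    (i : Fin (m + m)) : MvPolynomial.map φ (pt m u e i) = pt m u e i := by
  unfold pt
  refine Fin.addCases (fun i => ?_) (fun j => ?_) i
  · rw [Fin.append_left, Fin.append_left, map_X]
  · rw [Fin.append_right, Fin.append_right, map_C]
    congr 1
    split_ifs
    · rw [map_natCast]
    · rw [map_zero]

theorem map_BS {R R' : Type} [CommRing R] [CommRing R'] (φ : R →+* R') {m : ℕ} (u : ℕ)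
    (p : MvPolynomial (Fin (m + m)) R) : MvPolynomial.map φ (BS u p) = BS u (MvPolynomial.map φ p) := by
  unfold BS
  rw [map_sum]
  refine Finset.sum_congr rfl fun e _ => ?_
  have h := MvPolynomial.map_bind₁ φ (pt m u e) p
  rw [← aeval_eq_bind₁, ← aeval_eq_bind₁] at h
  rw [h]
  congr 2
  funext i
  exact map_pt φ m u e i

theorem BS_mem {R : Type} [CommRing R] {A : Subring R} {m : ℕ} (u : ℕ) {p : MvPolynomial (Fin (m + m)) R}
    (hp : p ∈ CS _ A) : BS u p ∈ CS _ A := by
  unfold BS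
  refine Subring.sum_mem _ fun e _ => ?_
  refine aeval_mem (S := MvPolynomial (Fin m) R) (B := CS _ A) (fun c hc => C_mem_CS hc) hp fun i => ?_
  unfold pt
  refine Fin.addCases (fun i => ?_) (fun j => ?_) i
  · rw [Fin.append_left]
    exact X_mem_CS _
  · rw [Fin.append_right]
    refine C_mem_CS ?_
    split_ifs
    · exact natCast_mem A _
    · exact A.zero_mem

/-- the embedding of the variables -/
def rho {n u m : ℕ} (hn : n ≤ m) (hu : u ≤ m) : Fin (n + u) → Fin (m + m) :=
  Fin.append (fun i => Fin.castAdd m (Fin.castLE hn i)) (fun j => Fin.natAdd m (Fin.castLE hu j))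

theorem BS_rename {F : Type} [Field F] {n u m : ℕ} (hn : n ≤ m) (hu : u ≤ m) (g : MvPolynomial (Fin (n + u)) F) :
    BS u (rename (rho hn hu) g) = rename (Fin.castLE hn) (bsum g) := by
  unfold BS bsum
  rw [map_sum]
  refine Finset.sum_congr rfl fun e _ => ?_
  rw [aeval_rename, MvPolynomial.comp_aeval_apply]
  congr 2
  funext i
  refine Fin.addCases (fun i => ?_) (fun j => ?_) i
  · rw [Function.comp_apply, rho, Fin.append_left, Fin.append_left, pt, Fin.append_left, rename_X]
  · rw [Function.comp_apply, rho, Fin.append_right, Fin.append_right, pt, Fin.append_right, rename_C]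
    have h : ((Fin.castLE hu j : Fin m) : ℕ) < u := j.2
    rw [dif_pos h]
    rfl

end BS

section deg

variable {k : Type} [Field k] {S : Type}

private theorem cb_mono {n : ℕ} {d e : ℕ} {p : MvPolynomial (Fin n) (MvPolynomial S k)} (hp : CB d p)
    (h : d ≤ e) : CB e p := fun ν => (hp ν).trans h

private theorem cb_zero {n : ℕ} {d : ℕ} : CB d (0 : MvPolynomial (Fin n) (MvPolynomial S k)) := by
  intro ν
  rw [coeff_zero, totalDegree_zero]
  exact Nat.zero_le _

private theorem cb_sum {n : ℕ} {ι : Type} {d : ℕ} (s : Finset ι) {p : ι → MvPolynomial (Fin n) (MvPolynomial S k)}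
    (hp : ∀ i ∈ s, CB d (p i)) : CB d (∑ i ∈ s, p i) := by
  intro ν
  rw [coeff_sum]
  exact totalDegree_finsetSum_le fun i hi => hp i hi ν

private theorem cb_C {n : ℕ} {d : ℕ} {c : MvPolynomial S k} (hc : c.totalDegree ≤ d) :
    CB d (C c : MvPolynomial (Fin n) (MvPolynomial S k)) := by
  classical
  intro ν
  rw [coeff_C]
  split_ifs
  · exact hc
  · rw [totalDegree_zero]; exact Nat.zero_le _

private theorem cb_one {n : ℕ} : CB 0 (1 : MvPolynomial (Fin n) (MvPolynomial S k)) := by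
  have h : CB (n := n) (k := k) 0 (C (1 : MvPolynomial S k)) := cb_C (by rw [totalDegree_one])
  rwa [C_1] at h

private theorem cb_X {n : ℕ} (i : Fin n) : CB 0 (X i : MvPolynomial (Fin n) (MvPolynomial S k)) := by
  classical
  intro ν
  rw [coeff_X]
  split_ifs
  · rw [totalDegree_one]
  · rw [totalDegree_zero]

private theorem cb_pow {n : ℕ} {p : MvPolynomial (Fin n) (MvPolynomial S k)} (hp : CB 0 p)
    (j : ℕ) : CB 0 (p ^ j) := by
  induction j with
  | zero => rw [pow_zero]; exact cb_one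
  | succ j ih =>
    rw [pow_succ]
    exact ih.mul hp

private theorem cb_prod {n : ℕ} {ι : Type} (s : Finset ι)
    {p : ι → MvPolynomial (Fin n) (MvPolynomial S k)}
    (hp : ∀ i ∈ s, CB 0 (p i)) : CB 0 (∏ i ∈ s, p i) := by
  classical
  induction s using Finset.induction_on with
  | empty => rw [Finset.prod_empty]; exact cb_one
  | insert a s ha ih =>
    rw [Finset.prod_insert ha]
    exact (hp a (Finset.mem_insert_self _ _)).mul (ih fun i hi => hp i (Finset.mem_insert_of_mem hi))

private theorem cb_pt (m u : ℕ) (e : Fin u → Fin 2) (i : Fin (m + m)) :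
    CB 0 (pt m u e i : MvPolynomial (Fin m) (MvPolynomial S k)) := by
  unfold pt
  refine Fin.addCases (fun i => ?_) (fun j => ?_) i
  · rw [Fin.append_left]
    exact cb_X _
  · rw [Fin.append_right]
    refine cb_C ?_
    split_ifs
    · have h : ((((e ⟨j, by assumption⟩ : Fin 2) : ℕ) : MvPolynomial S k)) =
          C (((e ⟨j, by assumption⟩ : Fin 2) : ℕ) : k) := by rw [map_natCast]
      rw [h, totalDegree_C]
    · rw [totalDegree_zero]

theorem cb_BS {m d : ℕ} (u : ℕ) {p : MvPolynomial (Fin (m + m)) (MvPolynomial S k)} (hp : CB d p) :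
    CB d (BS u p) := by
  unfold BS
  refine cb_sum _ fun e _ => ?_
  rw [aeval_def, eval₂_eq']
  refine cb_sum _ fun ν _ => ?_
  have h1 : CB d (algebraMap (MvPolynomial S k) (MvPolynomial (Fin m) (MvPolynomial S k)) (coeff ν p)) :=
    cb_C (hp ν)
  have h2 : CB 0 (∏ i, (pt m u e i : MvPolynomial (Fin m) (MvPolynomial S k)) ^ ν i) :=
    cb_prod _ fun i _ => cb_pow (cb_pt m u e i) _
  exact h1.mul h2

end deg

section mem

variable {k : Type} [Field k] {S : Type} {A : Subring k}

private theorem aff_mem_CS {n : ℕ} {l : List (MvPolynomial (Fin n) (MvPolynomial S k))}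
    (hl : ∀ p ∈ l, p ∈ CS (Fin n) (CS S A)) {c : Option (Fin n ⊕ ℕ) → MvPolynomial S k} (hc : ∀ t, c t ∈ CS S A) :
    aff l c ∈ CS (Fin n) (CS S A) := by
  unfold aff
  refine Subring.add_mem _ (Subring.add_mem _ (C_mem_CS (hc _)) ?_) ?_
  · exact Subring.sum_mem _ fun i _ => Subring.mul_mem _ (C_mem_CS (hc _)) (X_mem_CS _)
  · refine Subring.sum_mem _ fun q hq => Subring.mul_mem _ (C_mem_CS (hc _)) ?_
    rw [List.getD_eq_getElem _ _ (Finset.mem_range.1 hq)]
    exact hl _ (List.getElem_mem _)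

private theorem ulist_mem_CS (G : PFamily k) {n m : ℕ} (hA : ∀ i, G.vars i < m → ∀ ν, coeff ν (G.poly i) ∈ A)
    {c : ℕ → ℕ → Option (Fin n ⊕ ℕ) → MvPolynomial S k} (hc : ∀ b a t, c b a t ∈ CS S A)
    (w : List (Option ℕ)) (hw : ∀ i, some i ∈ w → G.vars i < m) :
    ∀ p ∈ ulist G c w, p ∈ CS (Fin n) (CS S A) := by
  induction w with
  | nil => simp [ulist]
  | cons g w ih =>
    have ih' := ih fun i hi => hw i (List.mem_cons_of_mem _ hi)
    have haff : ∀ a, aff (ulist G c w) (c w.length a) ∈ CS (Fin n) (CS S A) := fun a => aff_mem_CS ih' (hc _ _)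
    cases g with
    | none =>
      intro p hp
      simp only [ulist, List.mem_cons] at hp
      rcases hp with rfl | hp
      · exact Subring.mul_mem _ (haff 0) (haff 1)
      · exact ih' p hp
    | some i =>
      intro p hp
      simp only [ulist, List.mem_cons] at hp
      rcases hp with rfl | hp
      · refine aeval_mem (A := A) (S := MvPolynomial (Fin n) (MvPolynomial S k)) (B := CS (Fin n) (CS S A))
          (fun c hc => ?_) (hA i (hw i List.mem_cons_self)) fun a : Fin (G.vars i) => haff a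
        have h : algebraMap k (MvPolynomial (Fin n) (MvPolynomial S k)) c = C (C c) := rfl
        rw [h]
        exact C_mem_CS (C_mem_CS hc)
      · exact ih' p hp

theorem uout_mem_CS (G : PFamily k) {n m : ℕ} (hA : ∀ i, G.vars i < m → ∀ ν, coeff ν (G.poly i) ∈ A)
    (w : List (Option ℕ)) (hw : ∀ i, some i ∈ w → G.vars i < m) :
    uout G (gen k n m) w ∈ CS (Fin n) (CS (Par n m) A) := by
  have hc : ∀ b a t, gen k n m b a t ∈ CS (Par n m) A := by
    intro b a t
    unfold gen
    split_ifs with h1 h2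
    · rcases t with _ | (i | q)
      · exact X_mem_CS _
      · exact X_mem_CS _
      · simp only
        split_ifs
        · exact X_mem_CS _
        · exact Subring.zero_mem _
    · exact Subring.zero_mem _
    · exact Subring.zero_mem _
  exact aff_mem_CS (ulist_mem_CS G hA hc w hw) (hc _ _)

end mem

private theorem num_pow (m : ℕ) : (m + 3) ^ m < 2 ^ ((m + 3) ^ 2) := by
  have h1 : m + 3 ≤ 2 ^ (m + 3) := Nat.lt_two_pow_self.le
  calc (m + 3) ^ m ≤ (2 ^ (m + 3)) ^ m := Nat.pow_le_pow_left h1 m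
    _ = 2 ^ ((m + 3) * m) := by rw [← pow_mul]
    _ < 2 ^ ((m + 3) ^ 2) := Nat.pow_lt_pow_right (by norm_num) (by nlinarith)

private theorem num_cardN (m : ℕ) : (m + 1) ^ m * (m + 1) ≤ 2 ^ ((m + 3) ^ 2) := by
  have h1 : m + 1 ≤ 2 ^ (m + 1) := Nat.lt_two_pow_self.le
  calc (m + 1) ^ m * (m + 1) = (m + 1) ^ (m + 1) := by rw [pow_succ]
    _ ≤ (2 ^ (m + 1)) ^ (m + 1) := Nat.pow_le_pow_left h1 _
    _ = 2 ^ ((m + 1) * (m + 1)) := by rw [← pow_mul]
    _ ≤ 2 ^ ((m + 3) ^ 2) := Nat.pow_le_pow_right (by norm_num) (by nlinarith)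

private theorem card_parN (m : ℕ) : Fintype.card (Par (m + m) m) = (m + 1) * (m + 2) * (3 * m + 1) := by
  unfold Par
  simp only [Fintype.card_prod, Fintype.card_option, Fintype.card_sum, Fintype.card_fin]
  ring

private theorem num_W0 (m : ℕ) : 4 * (m + 3) ^ 5 ≤ W m := by
  unfold W
  have h1 : (2 * (m + 3)) ^ 5 ≤ (3 * (m + 2)) ^ 5 := Nat.pow_le_pow_left (by omega) 5
  have h2 : (2 * (m + 3)) ^ 5 = 32 * (m + 3) ^ 5 := by ring
  have h3 : (3 * (m + 2)) ^ 5 = 243 * (m + 2) ^ 5 := by ring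
  have h4 : (m + 2) ^ 5 ≤ (m + 2) ^ 8 := Nat.pow_le_pow_right (by omega) (by norm_num)
  omega

private theorem num_W (m : ℕ) : (m + 1) * (m + 2) * (3 * m + 1) * (m + 3) ^ 2 + (m + 3) ^ 2 + m ≤ W m := by
  refine le_trans ?_ (num_W0 m)
  have h1 : (m + 1) * (m + 2) * (3 * m + 1) ≤ 3 * (m + 3) ^ 3 := by nlinarith [Nat.zero_le m, Nat.zero_le (m * m), Nat.zero_le (m * m * m)]
  have h2 : (m + 1) * (m + 2) * (3 * m + 1) * (m + 3) ^ 2 ≤ 3 * (m + 3) ^ 3 * (m + 3) ^ 2 := Nat.mul_le_mul_right _ h1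
  have h3 : 3 * (m + 3) ^ 3 * (m + 3) ^ 2 = 3 * (m + 3) ^ 5 := by ring
  have h4 : (m + 3) ^ 5 = (m + 3) ^ 2 * (m + 3) ^ 3 := by ring
  have h5 : 27 ≤ (m + 3) ^ 3 := by
    calc 27 = 3 ^ 3 := by norm_num
      _ ≤ (m + 3) ^ 3 := Nat.pow_le_pow_left (by omega) 3
  have h6 : m ≤ (m + 3) ^ 2 := by nlinarith
  nlinarith

private theorem num_W2 (m : ℕ) : m * m + (m + 1) * (m + 2) * (3 * m + 1) * (m + 3) ^ 2 + (m + 3) ^ 2 ≤ W m := by
  refine le_trans ?_ (num_W0 m)
  have h1 : (m + 1) * (m + 2) * (3 * m + 1) ≤ 3 * (m + 3) ^ 3 := by nlinarith [Nat.zero_le m, Nat.zero_le (m * m), Nat.zero_le (m * m * m)]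
  have h2 : (m + 1) * (m + 2) * (3 * m + 1) * (m + 3) ^ 2 ≤ 3 * (m + 3) ^ 3 * (m + 3) ^ 2 := Nat.mul_le_mul_right _ h1
  have h3 : 3 * (m + 3) ^ 3 * (m + 3) ^ 2 = 3 * (m + 3) ^ 5 := by ring
  have h4 : (m + 3) ^ 5 = (m + 3) ^ 2 * (m + 3) ^ 3 := by ring
  have h5 : 27 ≤ (m + 3) ^ 3 := by
    calc 27 = 3 ^ 3 := by norm_num
      _ ≤ (m + 3) ^ 3 := Nat.pow_le_pow_left (by omega) 3
  have h6 : m * m ≤ (m + 3) ^ 2 := by nlinarith
  nlinarith

theorem stepN {k : Type} [Field k] (G : PFamily k) (hG : ∀ i, i ≤ G.vars i) (m : ℕ)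
    (hdeg : ∀ i, G.vars i < m → (G.poly i).totalDegree ≤ m) :
    ∃ g : MvPolynomial (Fin (W m)) k, g.totalDegree ≤ W m ∧
      (∀ A : Subring k, (∀ i, G.vars i < m → ∀ ν, coeff ν (G.poly i) ∈ A) → ∀ ν, coeff ν g ∈ A) ∧
      ∀ (F : Type) [Field F] [Algebra k F] (n : ℕ) (hn : n ≤ m) (f : MvPolynomial (Fin n) F), SumComputedBy G f m →
        ∃ a : Fin (W m) → MvPolynomial (Fin m) F, (∀ i, Avail [] (a i)) ∧
          aeval a g = ∑ j : Fin m → Fin (m + 1), monomial (ex m j) (coeff (ex m j) (rename (Fin.castLE hn) f)) := by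
  classical
  let good : (Fin m → Option (Fin m)) → Prop := fun w => ∀ i, some i ∈ gates w → G.vars i < m
  let Ψ : (Fin m → Option (Fin m)) × Fin (m + 1) → (Fin m → Fin (m + 1)) → MvPolynomial (Par (m + m) m) k :=
    fun a j => if good a.1 then coeff (ex m j) (BS (a.2 : ℕ) (uout G (gen k (m + m) m) (gates a.1))) else 0
  have hΨ : ∀ a j, (Ψ a j).totalDegree < 2 ^ ((m + 3) ^ 2) := by
    intro a j
    refine lt_of_le_of_lt ?_ (num_pow m)
    show (if good a.1 then coeff (ex m j) (BS (a.2 : ℕ) (uout G (gen k (m + m) m) (gates a.1))) else 0).totalDegree ≤ _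
    split_ifs with hw
    · exact cb_BS (d := (m + 3) ^ m) _ (fun ν => deg_univ G hdeg a.1 hw ν) _
    · rw [totalDegree_zero]; exact Nat.zero_le _
  have hcardA : Fintype.card ((Fin m → Option (Fin m)) × Fin (m + 1)) ≤ 2 ^ ((m + 3) ^ 2) := by
    rw [Fintype.card_prod, Fintype.card_fin, Fintype.card_fun, Fintype.card_option, Fintype.card_fin]
    exact num_cardN m
  obtain ⟨g0, hg0, hg1, hg2⟩ := encodeN (k := k) (m := m) (b := (m + 3) ^ 2) (B := (m + 3) ^ 2) (d := m * m)
    hcardA (ex m) (ex_sum' m) Ψ hΨ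
  have hcard : Fintype.card (Fin m ⊕ ((Par (m + m) m × Fin ((m + 3) ^ 2)) ⊕ Fin ((m + 3) ^ 2))) ≤
      Fintype.card (Fin (W m)) := by
    rw [Fintype.card_sum, Fintype.card_sum, Fintype.card_prod, Fintype.card_fin, Fintype.card_fin,
      Fintype.card_fin, card_parN]
    have := num_W m
    omega
  obtain ⟨ι⟩ := Function.Embedding.nonempty_of_card_le hcard
  refine ⟨rename ι g0, ?_, ?_, ?_⟩
  · refine (totalDegree_rename_le _ _).trans (hg0.trans ?_)
    rw [card_parN]
    exact num_W2 m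
  · intro A hA
    have h : rename ι g0 ∈ CS (Fin (W m)) A := by
      refine rename_mem_CS _ (hg1 A fun a j => ?_)
      show (if good a.1 then coeff (ex m j) (BS (a.2 : ℕ) (uout G (gen k (m + m) m) (gates a.1))) else 0) ∈ _
      split_ifs with hw
      · exact BS_mem _ (uout_mem_CS G hA _ hw) _
      · exact Subring.zero_mem _
    exact h
  · intro F _ _ n hn f hf
    obtain ⟨u, g, hu, hgm, rfl⟩ := hf
    obtain ⟨l, hl, hgl⟩ := computedBy_L G g
    have hcomp : ComputedBy G (rename (rho hn hu) g) (L G g) := by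
      refine ⟨_, Comp.rename G (rho hn hu) hl, ?_⟩
      rcases hgl with ⟨c, rfl⟩ | ⟨i, rfl⟩ | h
      · exact Or.inl ⟨c, rename_C _ _⟩
      · exact Or.inr (Or.inl ⟨_, rename_X _ _⟩)
      · exact Or.inr (Or.inr (List.mem_map_of_mem h))
    obtain ⟨w, κ, hw, hκ⟩ := univ G hG hgm hcomp
    obtain ⟨x, hx⟩ := hg2 F (w, ⟨u, Nat.lt_succ_of_le hu⟩) κ
    have hval : ∀ j, aeval κ (Ψ (w, ⟨u, Nat.lt_succ_of_le hu⟩) j) =
        coeff (ex m j) (rename (Fin.castLE hn) (bsum g)) := by
      intro j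
      rw [← BS_rename hn hu g, hκ, ← map_BS, coeff_map]
      show aeval κ (if good w then coeff (ex m j) (BS u (uout G (gen k (m + m) m) (gates w))) else 0) = _
      rw [if_pos hw]
      rfl
    refine ⟨Function.extend ι (Sum.elim (X : Fin m → MvPolynomial (Fin m) F) fun i => C (x i)) (fun _ => C 0), ?_, ?_⟩
    · intro v
      by_cases hv : ∃ i, ι i = v
      · obtain ⟨i, rfl⟩ := hv
        rw [ι.injective.extend_apply]
        rcases i with i | i
        · exact Or.inr (Or.inl ⟨i, rfl⟩)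
        · exact Or.inl ⟨x i, rfl⟩
      · rw [Function.extend_apply' _ _ _ hv]
        exact Or.inl ⟨0, rfl⟩
    · rw [aeval_rename]
      have h1 : Function.extend ι (Sum.elim (X : Fin m → MvPolynomial (Fin m) F) fun i => C (x i)) (fun _ => C 0) ∘ ι =
          Sum.elim (X : Fin m → MvPolynomial (Fin m) F) fun i => C (x i) := by
        funext i
        rw [Function.comp_apply, ι.injective.extend_apply]
      rw [h1, hx]
      exact Finset.sum_congr rfl fun j _ => by rw [hval j]

end Pool.Agent.VPN
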