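import Pool.Agent.VPE.Cover
import Pool.Agent.VPP.CoverP
import Pool.Agent.VPE.Bin
import Pool.Agent.VPN.StepN

/-!
# [VPN-STEPC] one polynomial which covers the closure of the exponential sums of cost `m`

VPE/Step, for exponential sums (`BS` of VPN/StepN).
-/

set_option autoImplicit false

open MvPolynomial Pool.Agent.VPO Pool.Agent.VPE

namespace Pool.Agent.VPN

section num

/-- the number of parameters -/
private def npC (m : ℕ) : ℕ := (m + 1) * (m + 2) * (3 * m + 1)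

/-- number of bits -/
private def nbC (m : ℕ) : ℕ := 10 * (m + 2) ^ 5

private theorem numC_np (m : ℕ) : npC m + 5 ≤ 3 * (m + 2) ^ 3 := by
  have h : 3 * (m + 2) ^ 3 = npC m + 5 + (8 * m ^ 2 + 27 * m + 17) := by
    unfold npC
    ring
  omega

private theorem numC_two_pow (m : ℕ) : 2 * (m + 2) ≤ 2 ^ (m + 2) := by
  induction m with
  | zero => norm_num
  | succ m ih =>
    rw [show m + 1 + 2 = (m + 2) + 1 from rfl, pow_succ]
    omega

private theorem numC_cube (m : ℕ) : 3 * (m + 2) ^ 3 ≤ 2 ^ (3 * (m + 2)) := by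
  have h := Nat.pow_le_pow_left (numC_two_pow m) 3
  rw [← pow_mul, mul_comm (m + 2) 3, mul_pow] at h
  calc 3 * (m + 2) ^ 3 ≤ 2 ^ 3 * (m + 2) ^ 3 := Nat.mul_le_mul_right _ (by norm_num)
    _ ≤ _ := h

private theorem numC_five (x : ℕ) (hx : 2 ≤ x) : (x ^ 2 + 3 * x) * (3 * x ^ 3) + 3 * x + 2 ≤ 9 * x ^ 5 := by
  have h1 : 2 * x ^ 4 ≤ x ^ 5 := by
    calc 2 * x ^ 4 ≤ x * x ^ 4 := Nat.mul_le_mul_right _ hx
      _ = x ^ 5 := by ring
  have h2 : 16 * x ≤ x ^ 5 := by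
    have h3 : 2 ^ 4 ≤ x ^ 4 := Nat.pow_le_pow_left hx 4
    calc 16 * x ≤ x ^ 4 * x := Nat.mul_le_mul_right _ (by simpa using h3)
      _ = x ^ 5 := by ring
  have h4 : 2 * ((x ^ 2 + 3 * x) * (3 * x ^ 3)) = 6 * x ^ 5 + 9 * (2 * x ^ 4) := by ring
  omega

private theorem numC_sq (m : ℕ) : m * m + m + 3 ≤ (m + 2) ^ 5 := by
  have h1 : m * m + m + 3 ≤ (m + 2) ^ 2 := by
    have : (m + 2) ^ 2 = m * m + m + 3 + (3 * m + 1) := by ring
    omega
  exact h1.trans (Nat.pow_le_pow_right (by omega) (by norm_num))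

private theorem numC_mm (m : ℕ) : (m + 1) ^ m ≤ 2 ^ (m * m) := by
  rw [pow_mul]
  exact Nat.pow_le_pow_left (Nat.lt_two_pow_self (n := m)) m

private theorem TbC_bound (m : ℕ) : Tb ((m + 3) ^ m) (npC m + 1) ≤ 2 ^ (9 * (m + 2) ^ 5) := by
  obtain ⟨x, hx⟩ : ∃ x, x = m + 2 := ⟨_, rfl⟩
  have hx2 : 2 ≤ x := by omega
  have h1 := numC_np m
  have h2 := numC_cube m
  rw [← hx] at h1 h2
  have hE : (m + 3) ^ m ≤ 2 ^ (x ^ 2) := by
    have h3 : m + 3 ≤ 2 ^ x := by
      have := numC_two_pow m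
      rw [← hx] at this
      omega
    calc (m + 3) ^ m ≤ (2 ^ x) ^ m := Nat.pow_le_pow_left h3 m
      _ = 2 ^ (x * m) := by rw [pow_mul]
      _ ≤ 2 ^ (x ^ 2) := by
        refine Nat.pow_le_pow_right (by norm_num) ?_
        rw [pow_two]
        exact Nat.mul_le_mul_left _ (by omega)
  rw [← hx]
  unfold Tb
  have hb : (m + 3) ^ m * (npC m + 1 + 1) + 1 ≤ 2 ^ (x ^ 2 + 3 * x) := by
    have hpos : 1 ≤ 2 ^ (x ^ 2) := Nat.one_le_two_pow
    calc (m + 3) ^ m * (npC m + 1 + 1) + 1 ≤ 2 ^ (x ^ 2) * (npC m + 1 + 1) + 2 ^ (x ^ 2) :=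
          Nat.add_le_add (Nat.mul_le_mul_right _ hE) hpos
      _ = 2 ^ (x ^ 2) * (npC m + 3) := by ring
      _ ≤ 2 ^ (x ^ 2) * 2 ^ (3 * x) := Nat.mul_le_mul_left _ (by omega)
      _ = 2 ^ (x ^ 2 + 3 * x) := by rw [← pow_add]
  have hc : ((m + 3) ^ m * (npC m + 1 + 1) + 1) ^ (npC m + 1) ≤ 2 ^ ((x ^ 2 + 3 * x) * (3 * x ^ 3)) := by
    calc ((m + 3) ^ m * (npC m + 1 + 1) + 1) ^ (npC m + 1) ≤ (2 ^ (x ^ 2 + 3 * x)) ^ (npC m + 1) :=
          Nat.pow_le_pow_left hb _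
      _ = 2 ^ ((x ^ 2 + 3 * x) * (npC m + 1)) := by rw [← pow_mul]
      _ ≤ 2 ^ ((x ^ 2 + 3 * x) * (3 * x ^ 3)) :=
          Nat.pow_le_pow_right (by norm_num) (Nat.mul_le_mul_left _ (by omega))
  have hd : npC m + 1 + 2 ≤ 2 ^ (3 * x) := by omega
  have he : 2 * ((m + 3) ^ m * (npC m + 1 + 1) + 1) ^ (npC m + 1) * (npC m + 1 + 2)
      ≤ 2 ^ ((x ^ 2 + 3 * x) * (3 * x ^ 3) + 3 * x + 1) := by
    calc 2 * ((m + 3) ^ m * (npC m + 1 + 1) + 1) ^ (npC m + 1) * (npC m + 1 + 2)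
        ≤ 2 * 2 ^ ((x ^ 2 + 3 * x) * (3 * x ^ 3)) * 2 ^ (3 * x) :=
          Nat.mul_le_mul (Nat.mul_le_mul_left _ hc) hd
      _ = 2 ^ ((x ^ 2 + 3 * x) * (3 * x ^ 3) + 3 * x + 1) := by
          rw [pow_succ, pow_add]
          ring
  have hf : 1 ≤ 2 ^ ((x ^ 2 + 3 * x) * (3 * x ^ 3) + 3 * x + 1) := Nat.one_le_two_pow
  calc 2 * ((m + 3) ^ m * (npC m + 1 + 1) + 1) ^ (npC m + 1) * (npC m + 1 + 2) + 1
      ≤ 2 ^ ((x ^ 2 + 3 * x) * (3 * x ^ 3) + 3 * x + 1)
        + 2 ^ ((x ^ 2 + 3 * x) * (3 * x ^ 3) + 3 * x + 1) := Nat.add_le_add he hf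
    _ = 2 ^ ((x ^ 2 + 3 * x) * (3 * x ^ 3) + 3 * x + 2) := by
        rw [pow_succ 2 ((x ^ 2 + 3 * x) * (3 * x ^ 3) + 3 * x + 1)]
        ring
    _ ≤ 2 ^ (9 * x ^ 5) := Nat.pow_le_pow_right (by norm_num) (numC_five x hx2)

private theorem numC_deg (m : ℕ) : 1 + 2 * Tb ((m + 3) ^ m) (npC m + 1) * ((m + 1) ^ m + 1) < 2 ^ nbC m := by
  have h1 := TbC_bound m
  have h2 := numC_mm m
  have h3 := numC_sq m
  unfold nbC
  have h4 : (m + 1) ^ m + 1 ≤ 2 ^ (m * m + 1) := by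
    have : 1 ≤ 2 ^ (m * m) := Nat.one_le_two_pow
    rw [pow_succ]
    omega
  have h5 : 2 * Tb ((m + 3) ^ m) (npC m + 1) * ((m + 1) ^ m + 1)
      ≤ 2 ^ (9 * (m + 2) ^ 5 + m * m + 2) := by
    calc 2 * Tb ((m + 3) ^ m) (npC m + 1) * ((m + 1) ^ m + 1)
        ≤ 2 * 2 ^ (9 * (m + 2) ^ 5) * 2 ^ (m * m + 1) :=
          Nat.mul_le_mul (Nat.mul_le_mul_left _ h1) h4
      _ = 2 ^ (9 * (m + 2) ^ 5 + m * m + 2) := by
          rw [show 9 * (m + 2) ^ 5 + m * m + 2 = 9 * (m + 2) ^ 5 + (m * m + 1) + 1 from by ring,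
            pow_succ 2 (9 * (m + 2) ^ 5 + (m * m + 1)), pow_add 2 (9 * (m + 2) ^ 5) (m * m + 1)]
          ring
  have h6 : 3 ≤ 2 ^ (9 * (m + 2) ^ 5 + m * m + 2) := by
    have : 2 ^ 2 ≤ 2 ^ (9 * (m + 2) ^ 5 + m * m + 2) :=
      Nat.pow_le_pow_right (by norm_num) (by omega)
    omega
  calc 1 + 2 * Tb ((m + 3) ^ m) (npC m + 1) * ((m + 1) ^ m + 1)
      ≤ 1 + 2 ^ (9 * (m + 2) ^ 5 + m * m + 2) := Nat.add_le_add_left h5 1
    _ < 2 ^ (9 * (m + 2) ^ 5 + m * m + 2 + 1) := by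
        rw [pow_succ 2 (9 * (m + 2) ^ 5 + m * m + 2)]
        omega
    _ ≤ 2 ^ (10 * (m + 2) ^ 5) := Nat.pow_le_pow_right (by norm_num) (by omega)

private theorem numC_card (m : ℕ) :
    (m + 1) ^ m * (m + 1) * (Tb ((m + 3) ^ m) (npC m + 1) + 1) ≤ 2 ^ nbC m := by
  have h1 := TbC_bound m
  have h2 := numC_mm m
  have h3 := numC_sq m
  have h0 : m + 1 ≤ 2 ^ m := Nat.lt_two_pow_self (n := m)
  unfold nbC
  have h4 : Tb ((m + 3) ^ m) (npC m + 1) + 1 ≤ 2 ^ (9 * (m + 2) ^ 5 + 1) := by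
    have : 1 ≤ 2 ^ (9 * (m + 2) ^ 5) := Nat.one_le_two_pow
    rw [pow_succ]
    omega
  calc (m + 1) ^ m * (m + 1) * (Tb ((m + 3) ^ m) (npC m + 1) + 1)
      ≤ 2 ^ (m * m) * 2 ^ m * 2 ^ (9 * (m + 2) ^ 5 + 1) := Nat.mul_le_mul (Nat.mul_le_mul h2 h0) h4
    _ = 2 ^ (m * m + m + (9 * (m + 2) ^ 5 + 1)) := by rw [← pow_add, ← pow_add]
    _ ≤ 2 ^ (10 * (m + 2) ^ 5) := Nat.pow_le_pow_right (by norm_num) (by omega)

private theorem numC_main (m : ℕ) : (npC m + 4) * nbC m + nbC m ≤ 30 * (m + 2) ^ 8 := by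
  have h1 := numC_np m
  unfold nbC
  calc (npC m + 4) * (10 * (m + 2) ^ 5) + 10 * (m + 2) ^ 5 = (npC m + 5) * (10 * (m + 2) ^ 5) := by ring
    _ ≤ 3 * (m + 2) ^ 3 * (10 * (m + 2) ^ 5) := Nat.mul_le_mul_right _ h1
    _ = 30 * (m + 2) ^ 8 := by ring

private theorem numC_vars (m : ℕ) : m + ((npC m + 4) * nbC m + nbC m) ≤ W m := by
  have h1 := numC_main m
  have h2 : m ≤ (m + 2) ^ 8 := by
    have : m + 2 ≤ (m + 2) ^ 8 := Nat.le_self_pow (by norm_num) _
    omega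
  unfold W
  omega

private theorem numC_tot (m : ℕ) : m * m + (npC m + 4) * nbC m + nbC m ≤ W m := by
  have h1 := numC_main m
  have h2 : m * m ≤ (m + 2) ^ 8 := by
    have h4 := numC_sq m
    have h5 : (m + 2) ^ 5 ≤ (m + 2) ^ 8 := Nat.pow_le_pow_right (by omega) (by norm_num)
    omega
  unfold W
  omega

end num

section lib

variable {k : Type} [Field k]

theorem SumComputedBy.mono {G : PFamily k} {F : Type} [Field F] [Algebra k F] {n r s : ℕ}
    {f : MvPolynomial (Fin n) F} (h : SumComputedBy G f r) (hrs : r ≤ s) : SumComputedBy G f s := by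
  obtain ⟨u, g, h1, h2, h3⟩ := h
  exact ⟨u, g, h1.trans hrs, h2.trans hrs, h3⟩

theorem exists_sumComputedBy (G : PFamily k) {F : Type} [Field F] [Algebra k F] {n : ℕ}
    (f : MvPolynomial (Fin n) F) : ∃ r, SumComputedBy G f r := by
  refine ⟨L G (rename (Fin.castAdd 0) f), 0, rename (Fin.castAdd 0) f, Nat.zero_le _, le_rfl, ?_⟩
  unfold bsum
  have h : ∀ e : Fin 0 → Fin 2, (Fin.append (X : Fin n → MvPolynomial (Fin n) F) fun j =>
      C (((e j : Fin 2) : ℕ) : F)) ∘ Fin.castAdd 0 = X := by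
    intro e
    funext i
    rw [Function.comp_apply, Fin.append_left]
  rw [Fintype.sum_unique, aeval_rename, h, aeval_X_left_apply]

theorem sumComputedBy_LN (G : PFamily k) {F : Type} [Field F] [Algebra k F] {n : ℕ}
    (f : MvPolynomial (Fin n) F) : SumComputedBy G f (LN G f) :=
  Nat.sInf_mem (s := {r | SumComputedBy G f r}) (exists_sumComputedBy G f)

theorem exists_LNapp (G : PFamily k) {n : ℕ} (f : MvPolynomial (Fin n) k) :
    ∃ F : MvPolynomial (Fin n) (RatFunc k), (∀ ν, HasValueAtZero (coeff ν F) (coeff ν f)) ∧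
      SumComputedBy G F (LNapp G f) := by
  have hne : {r | ∃ F : MvPolynomial (Fin n) (RatFunc k),
      (∀ m, HasValueAtZero (coeff m F) (coeff m f)) ∧ LN G F = r}.Nonempty := by
    refine ⟨_, MvPolynomial.map (algebraMap k (RatFunc k)) f, fun m => ?_, rfl⟩
    rw [MvPolynomial.coeff_map]
    have h1 := hasValueAtZero_algebraMap (Polynomial.C (MvPolynomial.coeff m f))
    rw [Polynomial.eval_C] at h1
    exact h1
  obtain ⟨F, h1, h2⟩ := Nat.sInf_mem hne
  refine ⟨F, h1, ?_⟩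
  have h3 := sumComputedBy_LN G F
  rw [h2] at h3
  exact h3

theorem hv_rename {n m : ℕ} (ρ : Fin n → Fin m) (hρ : Function.Injective ρ)
    {F : MvPolynomial (Fin n) (RatFunc k)} {f : MvPolynomial (Fin n) k}
    (h : ∀ ν, HasValueAtZero (coeff ν F) (coeff ν f)) (ν : Fin m →₀ ℕ) :
    HasValueAtZero (coeff ν (rename ρ F)) (coeff ν (rename ρ f)) := by
  by_cases h' : ∃ u : Fin n →₀ ℕ, u.mapDomain ρ = ν
  · obtain ⟨u, rfl⟩ := h'
    rw [coeff_rename_mapDomain _ hρ, coeff_rename_mapDomain _ hρ]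
    exact h u
  · have e1 : coeff ν (rename ρ F) = 0 := coeff_rename_eq_zero ρ F ν fun u hu => absurd ⟨u, hu⟩ h'
    have e2 : coeff ν (rename ρ f) = 0 := coeff_rename_eq_zero ρ f ν fun u hu => absurd ⟨u, hu⟩ h'
    rw [e1, e2]
    have h0 := hasValueAtZero_algebraMap (0 : Polynomial k)
    rw [map_zero, Polynomial.eval_zero] at h0
    exact h0

end lib

variable {k : Type} [Field k] [Infinite k] [PerfectField k]

private theorem exC_apply (m : ℕ) (j : Fin m → Fin (m + 1)) (i : Fin m) : ex m j i = (j i : ℕ) := rfl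

private theorem exC_inj (m : ℕ) : Function.Injective (ex m) := by
  intro j j' h
  funext i
  apply Fin.ext
  rw [← exC_apply, ← exC_apply, h]

private theorem exC_sum (m : ℕ) (j : Fin m → Fin (m + 1)) : (ex m j).sum (fun _ x => x) ≤ m * m := by
  rw [Finsupp.sum_fintype _ _ (fun _ => rfl)]
  calc ∑ i, ex m j i ≤ ∑ _i : Fin m, m := Finset.sum_le_sum fun i _ => by rw [exC_apply]; omega
    _ = m * m := by simp

omit [Infinite k] [PerfectField k] in
theorem sum_ex (m : ℕ) (f : MvPolynomial (Fin m) k) (hf : f.totalDegree ≤ m) :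
    ∑ j : Fin m → Fin (m + 1), monomial (ex m j) (coeff (ex m j) f) = f := by
  classical
  ext ν
  rw [coeff_sum]
  simp only [coeff_monomial]
  by_cases h : ∃ j, ex m j = ν
  · obtain ⟨j, rfl⟩ := h
    rw [Finset.sum_eq_single j]
    · rw [if_pos rfl]
    · intro j' _ hj'
      rw [if_neg (fun h => hj' (exC_inj m h))]
    · intro h; exact absurd (Finset.mem_univ _) h
  · have h0 : coeff ν f = 0 := by
      by_contra h1
      apply h
      have h2 : ν ∈ f.support := mem_support_iff.2 h1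
      have h3 : ν.sum (fun _ x => x) ≤ m := (le_totalDegree h2).trans hf
      rw [Finsupp.sum_fintype _ _ (fun _ => rfl)] at h3
      have h4 : ∀ i, ν i < m + 1 := fun i =>
        Nat.lt_succ_of_le ((Finset.single_le_sum (f := fun i => ν i) (fun _ _ => Nat.zero_le _)
          (Finset.mem_univ i)).trans h3)
      refine ⟨fun i => ⟨ν i, h4 i⟩, ?_⟩
      ext i
      rw [exC_apply]
    rw [h0]
    exact Finset.sum_eq_zero fun j _ => if_neg (fun h' => h ⟨j, h'⟩)

private theorem cardC_par (m : ℕ) : Fintype.card (Par (m + m) m) = npC m := by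
  unfold Par npC
  simp only [Fintype.card_prod, Fintype.card_option, Fintype.card_sum, Fintype.card_fin]
  ring

theorem stepC (G : PFamily k) (hG : ∀ i, i ≤ G.vars i) (m : ℕ)
    (hdeg : ∀ i, G.vars i < m → (G.poly i).totalDegree ≤ m) :
    ∃ g : MvPolynomial (Fin (W m)) k, g.totalDegree ≤ W m ∧
      ∀ n ≤ m, ∀ f : MvPolynomial (Fin n) k, f.totalDegree ≤ m → LNapp G f ≤ m →
        ∃ a : Fin (W m) → MvPolynomial (Fin n) k, (∀ i, Avail [] (a i)) ∧ f = aeval a g := by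
  classical
  have hJ : Fintype.card (Fin m → Fin (m + 1)) = (m + 1) ^ m := by simp
  let good : (Fin m → Option (Fin m)) → Prop := fun w => ∀ i, some i ∈ gates w → G.vars i < m
  let z : (Fin m → Option (Fin m)) × Fin (m + 1) → (Fin m → Fin (m + 1)) → MvPolynomial (Par (m + m) m) k :=
    fun a j => if good a.1 then coeff (ex m j) (BS (a.2 : ℕ) (uout G (gen k (m + m) m) (gates a.1))) else 0
  have hz : ∀ a j, (z a j).totalDegree ≤ (m + 3) ^ m := by
    intro a j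
    show (if good a.1 then coeff (ex m j) (BS (a.2 : ℕ) (uout G (gen k (m + m) m) (gates a.1))) else 0).totalDegree ≤ _
    split_ifs with hw
    · exact cb_BS (d := (m + 3) ^ m) _ (fun ν => deg_univ G hdeg a.1 hw ν) _
    · rw [totalDegree_zero]; exact Nat.zero_le _
  choose Ψ hΨ1 hΨ2 using fun a => VPP.cover' (z a) (hz a)
  let T := Tb ((m + 3) ^ m) (Fintype.card (Par (m + m) m) + 1)
  let A := ((Fin m → Option (Fin m)) × Fin (m + 1)) × Fin (T + 1)
  have hA : Fintype.card A ≤ 2 ^ nbC m := by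
    have h1 : Fintype.card A = (m + 1) ^ m * (m + 1) * (Tb ((m + 3) ^ m) (npC m + 1) + 1) := by
      show Fintype.card (((Fin m → Option (Fin m)) × Fin (m + 1)) × Fin (T + 1)) = _
      rw [Fintype.card_prod, Fintype.card_prod, Fintype.card_fin, Fintype.card_fun, Fintype.card_option,
        Fintype.card_fin, Fintype.card_fin]
      show (m + 1) ^ m * (m + 1) * (Tb ((m + 3) ^ m) (Fintype.card (Par (m + m) m) + 1) + 1) = _
      rw [cardC_par]
    rw [h1]
    exact numC_card m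
  obtain ⟨g0, hg0, hg1⟩ := encode (k := k) (A := A) (m := m) (M := Fintype.card (Par (m + m) m) + 4) (b := nbC m)
    (B := nbC m) (d := m * m) hA (ex m) (exC_sum m) (fun a j => Ψ a.1 a.2 j) (by
      intro a j
      refine (hΨ1 a.1 a.2 j).trans_lt ?_
      rw [cardC_par, hJ]
      exact numC_deg m)
  have hcard : Fintype.card (Fin m ⊕ ((Fin (Fintype.card (Par (m + m) m) + 4) × Fin (nbC m)) ⊕ Fin (nbC m))) ≤
      Fintype.card (Fin (W m)) := by
    rw [Fintype.card_sum, Fintype.card_sum, Fintype.card_prod, Fintype.card_fin, Fintype.card_fin,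
      Fintype.card_fin, Fintype.card_fin, cardC_par]
    exact numC_vars m
  obtain ⟨ι⟩ := Function.Embedding.nonempty_of_card_le hcard
  refine ⟨rename ι g0, ?_, ?_⟩
  · refine (totalDegree_rename_le _ _).trans (hg0.trans ?_)
    rw [cardC_par]
    exact numC_tot m
  · intro n hn f hf hL
    let f' : MvPolynomial (Fin m) k := rename (Fin.castLE hn) f
    have hf' : f'.totalDegree ≤ m := (totalDegree_rename_le _ _).trans hf
    obtain ⟨F, hF1, hF2⟩ := exists_LNapp G f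
    obtain ⟨u, g, hu', hgm', hFg⟩ := hF2.mono hL
    have hF1' := hv_rename (Fin.castLE hn) (Fin.castLE_injective hn) hF1
    have hu : u ≤ m := hu'
    obtain ⟨l, hl, hgl⟩ := computedBy_L G g
    have hcomp : ComputedBy G (rename (rho hn hu) g) (L G g) := by
      refine ⟨_, Comp.rename G (rho hn hu) hl, ?_⟩
      rcases hgl with ⟨c, rfl⟩ | ⟨i, rfl⟩ | h
      · exact Or.inl ⟨c, rename_C _ _⟩
      · exact Or.inr (Or.inl ⟨_, rename_X _ _⟩)
      · exact Or.inr (Or.inr (List.mem_map_of_mem h))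
    obtain ⟨w, κ, hw, hκ⟩ := univ G hG hgm' hcomp
    have hFw : rename (Fin.castLE hn) F = MvPolynomial.map
        ((aeval κ : MvPolynomial (Par (m + m) m) k →ₐ[k] RatFunc k) : MvPolynomial (Par (m + m) m) k →+* RatFunc k)
        (BS u (uout G (gen k (m + m) m) (gates w))) := by
      rw [hFg, ← BS_rename hn hu g, hκ, ← map_BS]
    have hrel : ∀ p : MvPolynomial (Fin m → Fin (m + 1)) k, aeval (z (w, ⟨u, Nat.lt_succ_of_le hu⟩)) p = 0 →
        eval (fun j => coeff (ex m j) f') p = 0 := by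
      intro p hp
      refine lim hF1' (BS u (uout G (gen k (m + m) m) (gates w))) κ hFw (ex m) p ?_
      rw [← hp]
      congr 2
      funext j
      show _ = if good w then coeff (ex m j) (BS u (uout G (gen k (m + m) m) (gates w))) else 0
      rw [if_pos hw]
    obtain ⟨μ, c, hμ, hc⟩ := hΨ2 (w, ⟨u, Nat.lt_succ_of_le hu⟩) _ hrel
    obtain ⟨x, hx⟩ := hg1 ((w, ⟨u, Nat.lt_succ_of_le hu⟩), ⟨μ, Nat.lt_succ_of_le hμ⟩) c
    have hx2 : aeval (Sum.elim (X : Fin m → MvPolynomial (Fin m) k) fun i => C (x i)) g0 = f' := by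
      rw [hx, ← sum_ex m f' hf']
      refine Finset.sum_congr rfl fun j _ => ?_
      rw [hc j]
    let σ : Fin m → MvPolynomial (Fin n) k := fun i => if h : (i : ℕ) < n then X ⟨i, h⟩ else C 0
    have hσ : aeval σ f' = f := by
      show aeval σ (rename (Fin.castLE hn) f) = f
      rw [aeval_rename]
      have h1 : σ ∘ Fin.castLE hn = X := by
        funext i
        show (if h : ((Fin.castLE hn i : Fin m) : ℕ) < n then X ⟨(Fin.castLE hn i : Fin m), h⟩ else C 0) = X i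
        rw [dif_pos (by simp)]
        rfl
      rw [h1, aeval_X_left, AlgHom.id_apply]
    let y : (Fin m ⊕ ((Fin (Fintype.card (Par (m + m) m) + 4) × Fin (nbC m)) ⊕ Fin (nbC m))) →
        MvPolynomial (Fin n) k := Sum.elim σ fun i => C (x i)
    have hy : aeval y g0 = f := by
      rw [← hσ, ← hx2, ← AlgHom.comp_apply, comp_aeval]
      congr 2
      funext i
      rcases i with i | i
      · show σ i = aeval σ (X i)
        rw [aeval_X]
      · show C (x i) = aeval σ (C (x i))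
        rw [aeval_C]
        rfl
    refine ⟨Function.extend ι y (fun _ => C 0), ?_, ?_⟩
    · intro v
      by_cases hv : ∃ i, ι i = v
      · obtain ⟨i, rfl⟩ := hv
        rw [ι.injective.extend_apply]
        rcases i with i | i
        · show Avail [] (if h : (i : ℕ) < n then X ⟨i, h⟩ else C 0)
          split_ifs with h
          · exact Or.inr (Or.inl ⟨_, rfl⟩)
          · exact Or.inl ⟨0, rfl⟩
        · exact Or.inl ⟨x i, rfl⟩
      · rw [Function.extend_apply' _ _ _ hv]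
        exact Or.inl ⟨0, rfl⟩
    · rw [aeval_rename]
      have h1 : Function.extend ι y (fun _ => C 0) ∘ ι = y := by
        funext i
        rw [Function.comp_apply, ι.injective.extend_apply]
      rw [h1, hy]

end Pool.Agent.VPN
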