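import Pool.Agent.VPN.UpperN

/-!
# [VPN-UPPERC] the coefficient of `y_1 ⋯ y_m` is an exponential sum

`∑ ξ, C (u m ξ) * mon a ξ` is the coefficient of `y_1 ⋯ y_m` in `P(x, y) = G_m(X = a, x = 0, y, w = 0)`, which has degree at most `2` in every `y_j`; so it is
the sum over `e ∈ {0, 1} ^ m` of `∏ j, ((1 - 2 e_j) / 2) * P(x, (1 - 2 e_j)_j)` (`(p_0 + p_1 + p_2) / 2 - (p_0 - p_1 + p_2) / 2 = p_1`). Use `aeval_qpoly`; for the exponents `b` of `y`:
`∑ e, ∏ j, ((1 - 2 e_j) / 2) * (1 - 2 e_j) ^ b_j = ∏ j, (1 / 2 - (-1) ^ b_j / 2)`, which is `1` for `b = one m` and `0` if some `b_j` is `0` or `2`.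
-/

set_option autoImplicit false

open MvPolynomial Pool.Agent.VPO Pool.Agent.VPE

namespace Pool.Agent.VPN

variable {k : Type} [Field k]

/-- the sign `1 - 2 t` -/
def sgn (k : Type) [Field k] (t : Fin 2) : k := 1 - 2 * ((t : ℕ) : k)

theorem sgn_zero : sgn k 0 = 1 := by simp [sgn]

theorem sgn_one : sgn k 1 = -1 := by
  unfold sgn
  norm_num

theorem sum_sgn (b : Fin 3) : ∑ t : Fin 2, sgn k t ^ ((b : ℕ) + 1) = if b = 1 then 2 else 0 := by
  rw [Fin.sum_univ_two, sgn_zero, sgn_one]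
  fin_cases b <;> norm_num

theorem sum_prod_sgn (m : ℕ) (b : Fin m → Fin 3) :
    ∑ e : Fin m → Fin 2, ∏ j, sgn k (e j) ^ ((b j : ℕ) + 1) = if b = one m then 2 ^ m else 0 := by
  have h1 : ∑ e : Fin m → Fin 2, ∏ j, sgn k (e j) ^ ((b j : ℕ) + 1) =
      ∏ j, ∑ t : Fin 2, sgn k t ^ ((b j : ℕ) + 1) := by
    rw [Finset.prod_univ_sum, Fintype.piFinset_univ]
  rw [h1]
  simp only [sum_sgn]
  by_cases hb : b = one m
  · rw [if_pos hb, hb]
    simp [one]
  · rw [if_neg hb]
    obtain ⟨j, hj⟩ : ∃ j, b j ≠ 1 := by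
      by_contra hcon
      push Not at hcon
      exact hb (funext hcon)
    exact Finset.prod_eq_zero (Finset.mem_univ j) (if_neg hj)

/-- the polynomial `1 - 2 y_j` -/
noncomputable def yp (k : Type) [Field k] (n m : ℕ) (j : Fin m) : MvPolynomial (Fin (n + m)) k :=
  C 1 - C 2 * X (Fin.natAdd n j)

theorem prog_y (G : PFamily k) (n m s : ℕ) (hs : s ≤ m) :
    ∃ l : List (MvPolynomial (Fin (n + m)) k), Comp G (2 * s) l ∧ ∀ j : Fin m, (j : ℕ) < s → yp k n m j ∈ l := by
  induction s with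
  | zero => exact ⟨[], Comp.nil, fun j hj => absurd hj (by omega)⟩
  | succ s ih =>
    obtain ⟨l, h1, h2⟩ := ih (by omega)
    let j₀ : Fin m := ⟨s, by omega⟩
    have h3 : Comp G (2 * s + 1) ((C 2 * X (Fin.natAdd n j₀)) :: l) :=
      Comp.mul h1 (Or.inl ⟨2, rfl⟩) (Or.inr (Or.inl ⟨_, rfl⟩))
    have h4 : Comp G (2 * s + 1 + 1) ((C 1 - C 2 * X (Fin.natAdd n j₀)) :: (C 2 * X (Fin.natAdd n j₀)) :: l) :=
      Comp.sub h3 (Or.inl ⟨1, rfl⟩) (Or.inr (Or.inr List.mem_cons_self))
    refine ⟨_, h4, fun j hj => ?_⟩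
    by_cases hjs : (j : ℕ) = s
    · have : j = j₀ := Fin.ext hjs
      rw [this]
      exact List.mem_cons_self
    · exact List.mem_cons_of_mem _ (List.mem_cons_of_mem _ (h2 j (by omega)))

theorem prog_prod (G : PFamily k) (n m : ℕ) {r : ℕ} {l : List (MvPolynomial (Fin (n + m)) k)} (hl : Comp G r l)
    (hy : ∀ j, yp k n m j ∈ l) (p : MvPolynomial (Fin (n + m)) k) (hp : p ∈ l) (s : ℕ) (hs : s ≤ m) :
    ∃ l' : List (MvPolynomial (Fin (n + m)) k), Comp G (r + s) l' ∧ (∀ q ∈ l, q ∈ l') ∧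
      p * ∏ j ∈ Finset.univ.filter (fun j : Fin m => (j : ℕ) < s), yp k n m j ∈ l' := by
  classical
  induction s with
  | zero =>
    refine ⟨l, hl, fun q hq => hq, ?_⟩
    have : (Finset.univ.filter fun j : Fin m => (j : ℕ) < 0) = ∅ := by
      ext j
      simp
    rw [this, Finset.prod_empty, mul_one]
    exact hp
  | succ s ih =>
    obtain ⟨l', h1, h2, h3⟩ := ih (by omega)
    let j₀ : Fin m := ⟨s, by omega⟩
    have h4 : (Finset.univ.filter fun j : Fin m => (j : ℕ) < s + 1) =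
        insert j₀ (Finset.univ.filter fun j : Fin m => (j : ℕ) < s) := by
      ext j
      simp only [Finset.mem_filter, Finset.mem_univ, true_and, Finset.mem_insert]
      constructor
      · intro h
        by_cases hjs : (j : ℕ) = s
        · exact Or.inl (Fin.ext hjs)
        · exact Or.inr (by omega)
      · rintro (rfl | h)
        · show s < s + 1
          omega
        · omega
    have h5 : j₀ ∉ (Finset.univ.filter fun j : Fin m => (j : ℕ) < s) := by
      rw [Finset.mem_filter]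
      rintro ⟨-, h⟩
      exact lt_irrefl s h
    have h6 : Comp G (r + s + 1) (((p * ∏ j ∈ Finset.univ.filter (fun j : Fin m => (j : ℕ) < s), yp k n m j) *
        yp k n m j₀) :: l') :=
      Comp.mul h1 (Or.inr (Or.inr h3)) (Or.inr (Or.inr (h2 _ (hy j₀))))
    refine ⟨_, h6, fun q hq => List.mem_cons_of_mem _ (h2 q hq), ?_⟩
    rw [h4, Finset.prod_insert h5]
    have h7 : p * (yp k n m j₀ * ∏ j ∈ Finset.univ.filter (fun j : Fin m => (j : ℕ) < s), yp k n m j) =
        (p * ∏ j ∈ Finset.univ.filter (fun j : Fin m => (j : ℕ) < s), yp k n m j) * yp k n m j₀ := by ring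
    rw [h7]
    exact List.mem_cons_self

theorem totalDegree_yp_le (n m : ℕ) (j : Fin m) : (yp k n m j).totalDegree ≤ 1 := by
  unfold yp
  refine (totalDegree_sub _ _).trans (max_le ?_ ?_)
  · rw [totalDegree_C]
    omega
  · refine (totalDegree_mul _ _).trans ?_
    rw [totalDegree_C, zero_add]
    exact totalDegree_X_le _

theorem coeff_is_sum (h2 : (2 : k) ≠ 0) (α : (Σ m, Ind m) → k) (u : ∀ m, (Fin (W m) → Fin (W m + 1)) → k)
    (m n : ℕ) (a : Fin (W m) → MvPolynomial (Fin n) k) (ha : ∀ i, Avail [] (a i)) :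
    ∃ g : MvPolynomial (Fin (n + m)) k, g.totalDegree ≤ NV m + m ∧ L (orc α u) g ≤ 2 * NV m + 2 ∧
      bsum g = ∑ ξ : Fin (W m) → Fin (W m + 1), C (u m ξ) * mon a ξ := by
  classical
  let a' : Fin (W m) → MvPolynomial (Fin (n + m)) k := fun v => rename (Fin.castAdd m) (a v)
  have ha' : ∀ l v, Avail l (a' v) := by
    intro l v
    rcases ha v with ⟨c, hc⟩ | ⟨i, hi⟩ | h
    · refine Or.inl ⟨c, ?_⟩
      show rename (Fin.castAdd m) (a v) = _
      rw [hc, rename_C]
    · refine Or.inr (Or.inl ⟨Fin.castAdd m i, ?_⟩)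
      show rename (Fin.castAdd m) (a v) = _
      rw [hi, rename_X]
    · simp at h
  have ha'd : ∀ v, (a' v).totalDegree ≤ 1 := by
    intro v
    rcases ha' [] v with ⟨c, hc⟩ | ⟨i, hi⟩ | h
    · rw [hc, totalDegree_C]
      omega
    · rw [hi]
      exact totalDegree_X_le _
    · simp at h
  let p : Var m → MvPolynomial (Fin (n + m)) k := Sum.elim a' (Sum.elim (fun _ => C 0)
    (Sum.elim (yp k n m) fun _ => C 0))
  obtain ⟨g₀, hg₀⟩ : ∃ g₀, g₀ = aeval (Function.extend (emb m) p fun _ => C 0) ((orc α u).poly m) := ⟨_, rfl⟩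
  -- the value of the gate
  have hval : g₀ = ∑ i : IC m, C (cc α u m (Sum.inl i)) * (mon a' i.1 * mon (yp k n m) i.2) := by
    rw [hg₀, gate_value, Fintype.sum_sum_type]
    have h0 : ∑ i : IH m, C (algebraMap k k (cc α u m (Sum.inr i))) * me p (Sum.inr i) = 0 := by
      apply Finset.sum_eq_zero
      rintro ⟨e, b⟩ _
      show _ * (pw p * _) = 0
      have : pw p = 0 := by
        show (C 0 : MvPolynomial (Fin (n + m)) k) = 0
        exact C_0
      rw [this, zero_mul, mul_zero]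
    rw [h0, add_zero]
    rfl
  -- the program
  obtain ⟨l₁, c1, hy⟩ := prog_y (orc α u) n m m le_rfl
  have hy' : ∀ j : Fin m, yp k n m j ∈ l₁ := fun j => hy j j.2
  have hp : ∀ v, Avail l₁ (p v) := by
    rintro (v | v | v | v)
    · exact ha' l₁ v
    · exact Or.inl ⟨0, rfl⟩
    · exact Or.inr (Or.inr (hy' v))
    · exact Or.inl ⟨0, rfl⟩
  have c2 : Comp (orc α u) (2 * m + (NV m + 1)) (g₀ :: l₁) := by
    rw [hg₀]
    exact Comp.oracle (G := orc α u) m _ c1 (gate_avail m p hp)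
  obtain ⟨l₂, c3, -, hl₂⟩ := prog_prod (orc α u) n m c2 (fun j => List.mem_cons_of_mem _ (hy' j)) g₀
    List.mem_cons_self m le_rfl
  have hfil : (Finset.univ.filter fun j : Fin m => (j : ℕ) < m) = Finset.univ := by
    ext j
    simp
  rw [hfil] at hl₂
  have c4 : Comp (orc α u) (2 * m + (NV m + 1) + m + 1)
      ((C ((2 ^ m)⁻¹) * (g₀ * ∏ j, yp k n m j)) :: l₂) :=
    Comp.mul c3 (Or.inl ⟨_, rfl⟩) (Or.inr (Or.inr hl₂))
  refine ⟨C ((2 ^ m)⁻¹) * (g₀ * ∏ j, yp k n m j), ?_, ?_, ?_⟩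
  · -- degree
    refine (totalDegree_mul _ _).trans ?_
    rw [totalDegree_C, zero_add]
    refine (totalDegree_mul _ _).trans ?_
    have e1 : (∏ j, yp k n m j).totalDegree ≤ m := by
      refine (totalDegree_finsetProd _ _).trans ?_
      refine (Finset.sum_le_card_nsmul _ _ 1 fun j _ => totalDegree_yp_le n m j).trans ?_
      simp
    have e2 : g₀.totalDegree ≤ NV m := by
      rw [hval]
      refine totalDegree_finsetSum_le ?_
      intro i _
      refine (totalDegree_mul _ _).trans ?_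
      rw [totalDegree_C, zero_add]
      refine (totalDegree_mul _ _).trans ?_
      have h3 := totalDegree_mon_le (W m) (le_refl _) a' ha'd i.1
      have h4 := totalDegree_mon_le 2 (le_refl _) (yp k n m) (totalDegree_yp_le n m) i.2
      unfold NV
      omega
    omega
  · -- cost
    refine (L_le ⟨_, c4, Or.inr (Or.inr List.mem_cons_self)⟩).trans ?_
    have h3 : 3 * m ≤ NV m := by
      have h4 : m ≤ W m := by
        unfold W
        have h5 : m + 2 ≤ (m + 2) ^ 8 := Nat.le_self_pow (by norm_num) _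
        omega
      have h5 : W m ≤ W m * W m := by
        rcases Nat.eq_zero_or_pos (W m) with h | h
        · rw [h]
        · exact Nat.le_mul_of_pos_left _ h
      unfold NV
      omega
    omega
  · -- the sum
    unfold bsum
    have hev : ∀ e : Fin m → Fin 2, aeval (Fin.append (X : Fin n → MvPolynomial (Fin n) k)
        fun j => C ((e j : ℕ) : k)) (C ((2 ^ m)⁻¹) * (g₀ * ∏ j, yp k n m j)) =
        ∑ i : IC m, C ((2 ^ m)⁻¹ * ∏ j, sgn k (e j) ^ ((i.2 j : ℕ) + 1)) *
          (C (cc α u m (Sum.inl i)) * mon a i.1) := by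
      intro e
      obtain ⟨Ψ, hΨ⟩ : ∃ Ψ : MvPolynomial (Fin (n + m)) k →ₐ[k] MvPolynomial (Fin n) k,
        Ψ = aeval (Fin.append (X : Fin n → MvPolynomial (Fin n) k) fun j => C ((e j : ℕ) : k)) := ⟨_, rfl⟩
      rw [← hΨ]
      have hC : ∀ c : k, Ψ (C c) = C c := fun c => by rw [hΨ, aeval_C]; rfl
      have hyΨ : ∀ j, Ψ (yp k n m j) = C (sgn k (e j)) := by
        intro j
        unfold yp sgn
        rw [map_sub, map_mul, hC, hC, hΨ, aeval_X, Fin.append_right, C_sub, C_mul]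
      have haΨ : ∀ v, Ψ (a' v) = a v := by
        intro v
        show Ψ (rename (Fin.castAdd m) (a v)) = a v
        rw [hΨ, aeval_rename]
        have : (Fin.append (X : Fin n → MvPolynomial (Fin n) k) fun j => C ((e j : ℕ) : k)) ∘ Fin.castAdd m = X := by
          funext i
          exact Fin.append_left _ _ _
        rw [this, aeval_X_left, AlgHom.id_apply]
      have hmonΨ : ∀ {A : Type} (q : ℕ) (N : ℕ) (x : Fin N → MvPolynomial (Fin (n + m)) k) (b : Fin N → Fin q),
          Ψ (mon x b) = mon (fun j => Ψ (x j)) b := by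
        intro A q N x b
        unfold mon
        rw [map_prod]
        simp only [map_pow]
      rw [map_mul, map_mul, hC, map_prod, hval, map_sum, Finset.sum_mul, Finset.mul_sum]
      apply Finset.sum_congr rfl
      intro i _
      rw [map_mul, map_mul, hC, hmonΨ (A := ℕ), hmonΨ (A := ℕ)]
      have h3 : (fun j => Ψ (a' j)) = a := funext haΨ
      rw [h3]
      have h4 : mon (fun j => Ψ (yp k n m j)) i.2 * ∏ j, Ψ (yp k n m j) =
          C (∏ j, sgn k (e j) ^ ((i.2 j : ℕ) + 1)) := by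
        unfold mon
        rw [← Finset.prod_mul_distrib, map_prod]
        apply Finset.prod_congr rfl
        intro j _
        show Ψ (yp k n m j) ^ (i.2 j : ℕ) * Ψ (yp k n m j) = _
        rw [hyΨ j, ← C_pow, ← C_mul, ← pow_succ]
      have h5 : C ((2 ^ m)⁻¹ * ∏ j, sgn k (e j) ^ ((i.2 j : ℕ) + 1)) =
          (C ((2 ^ m)⁻¹) * C (∏ j, sgn k (e j) ^ ((i.2 j : ℕ) + 1)) : MvPolynomial (Fin n) k) := C_mul
      rw [h5, ← h4]
      ring
    rw [Finset.sum_congr rfl fun e _ => hev e, Finset.sum_comm, Fintype.sum_prod_type]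
    apply Finset.sum_congr rfl
    intro ξ _
    have h6 : ∀ b : Fin m → Fin 3, ∑ e : Fin m → Fin 2, (C ((2 ^ m)⁻¹ * ∏ j, sgn k (e j) ^ ((b j : ℕ) + 1)) *
        (C (cc α u m (Sum.inl (ξ, b))) * mon a ξ) : MvPolynomial (Fin n) k) =
        if b = one m then C (u m ξ) * mon a ξ else 0 := by
      intro b
      rw [← Finset.sum_mul, ← map_sum, ← Finset.mul_sum, sum_prod_sgn]
      by_cases hb : b = one m
      · rw [if_pos hb, if_pos hb, inv_mul_cancel₀ (pow_ne_zero _ h2), C_1, one_mul]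
        congr 2
        show (if wt b < wt (one m) then α ⟨m, Sum.inl (ξ, b)⟩ else if b = one m then u m ξ else 0) = u m ξ
        rw [hb, if_neg (lt_irrefl _), if_pos rfl]
      · rw [if_neg hb, if_neg hb, mul_zero, C_0, zero_mul]
    rw [Finset.sum_congr rfl fun b _ => h6 b]
    exact Finset.sum_ite_eq' Finset.univ (one m) _ |>.trans (if_pos (Finset.mem_univ _))

end Pool.Agent.VPN
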