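import Pool.Agent.VPE.Final
import Pool.Agent.VPO.Final
import Pool.Agent.VPN.LowerF
import Pool.Agent.VPN.Rec
import Pool.Agent.VPN.StepC
import Pool.Agent.VPN.UpperC

/-!
# The oracle with `VP ≠ VNP`, and with the closure of `VP` equal to the closure of `VNP`

In characteristic `0` also `VNP` is equal to its closure.
-/

set_option autoImplicit false

open MvPolynomial Pool.Agent.VPO

namespace Pool.Agent.VPN

variable {k : Type} [Field k]

/-! ### Generalities on exponential sums -/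

theorem bsum_zero {F : Type} [Field F] {n : ℕ} (f : MvPolynomial (Fin (n + 0)) F) : bsum f = f := by
  unfold bsum
  rw [Fintype.sum_unique]
  have h : ∀ c : Fin 0 → MvPolynomial (Fin n) F, Fin.append (X : Fin n → MvPolynomial (Fin n) F) c = X := by
    intro c
    funext i
    exact Fin.append_left (X : Fin n → MvPolynomial (Fin n) F) _ i
  refine (congrArg (fun x : Fin (n + 0) → MvPolynomial (Fin n) F => aeval x f) (h _)).trans ?_
  exact aeval_X_left_apply f

theorem sumComputedBy_L (G : PFamily k) {F : Type} [Field F] [Algebra k F] {n : ℕ} (f : MvPolynomial (Fin n) F) :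
    SumComputedBy G f (L G f) :=
  ⟨0, f, Nat.zero_le _, le_rfl, (bsum_zero f).symm⟩

theorem LN_le {G : PFamily k} {F : Type} [Field F] [Algebra k F] {n : ℕ} {f : MvPolynomial (Fin n) F} {r : ℕ}
    (h : SumComputedBy G f r) : LN G f ≤ r := Nat.sInf_le h

theorem LNapp_le {G : PFamily k} {n : ℕ} {f : MvPolynomial (Fin n) k} {F : MvPolynomial (Fin n) (RatFunc k)} {r : ℕ}
    (h : ∀ m, HasValueAtZero (coeff m F) (coeff m f)) (hF : SumComputedBy G F r) : LNapp G f ≤ r :=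
  (Nat.sInf_le (⟨F, h, rfl⟩ : LN G F ∈ {r | ∃ F : MvPolynomial (Fin n) (RatFunc k),
    (∀ m, HasValueAtZero (coeff m F) (coeff m f)) ∧ LN G F = r})).trans (LN_le hF)

theorem hasValue_map {n : ℕ} (f : MvPolynomial (Fin n) k) (m : Fin n →₀ ℕ) :
    HasValueAtZero (coeff m (MvPolynomial.map (algebraMap k (RatFunc k)) f)) (coeff m f) := by
  rw [coeff_map]
  have h1 := hasValueAtZero_algebraMap (Polynomial.C (coeff m f))
  rw [Polynomial.eval_C] at h1
  exact h1

theorem LNapp_le_Lapp (G : PFamily k) {n : ℕ} (f : MvPolynomial (Fin n) k) : LNapp G f ≤ Lapp G f := by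
  obtain ⟨F, h1, h2⟩ := VPE.exists_Lapp G f
  exact LNapp_le h1 ((sumComputedBy_L G F).mono (L_le h2))

theorem map_bsum {F F' : Type} [Field F] [Field F'] (φ : F →+* F') {n u : ℕ} (g : MvPolynomial (Fin (n + u)) F) :
    MvPolynomial.map φ (bsum g) = bsum (MvPolynomial.map φ g) := by
  unfold bsum
  rw [map_sum]
  apply Finset.sum_congr rfl
  intro e _
  have h : ∀ p : MvPolynomial (Fin (n + u)) F, MvPolynomial.map φ (aeval (Fin.append (X : Fin n → MvPolynomial (Fin n) F)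
      fun j => C ((e j : ℕ) : F)) p) = aeval (Fin.append (X : Fin n → MvPolynomial (Fin n) F')
      fun j => C ((e j : ℕ) : F')) (MvPolynomial.map φ p) := by
    intro p
    induction p using MvPolynomial.induction_on with
    | C a => simp [algebraMap_eq]
    | add p q hp hq => simp only [map_add, hp, hq]
    | mul_X p i hp =>
      simp only [map_mul, hp, map_X, aeval_X]
      congr 1
      refine Fin.addCases (fun j => ?_) (fun j => ?_) i
      · rw [Fin.append_left, Fin.append_left, map_X]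
      · rw [Fin.append_right, Fin.append_right, map_C, map_natCast]
  exact h g

theorem LNapp_le_of_sum (G : PFamily k) {n u r : ℕ} (g : MvPolynomial (Fin (n + u)) k) (hu : u ≤ r) (hg : L G g ≤ r) :
    LNapp G (bsum g) ≤ r := by
  refine LNapp_le (F := MvPolynomial.map (algebraMap k (RatFunc k)) (bsum g)) (hasValue_map _)
    ⟨u, MvPolynomial.map (algebraMap k (RatFunc k)) g, hu, ?_, map_bsum _ g⟩
  obtain ⟨l, h1, h2⟩ := computedBy_L G g
  exact (L_le ⟨_, h1.map, h2.map _⟩).trans hg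

theorem VP_subset_VNP (G : PFamily k) : VP G ⊆ VNP G := by
  intro f hf
  refine ⟨fun _ => 0, fun n => f.poly n, ⟨0, fun n => Nat.zero_le _⟩, f.deg_bdd, hf, fun n => (bsum_zero _).symm⟩

theorem VNP_subset_VNPbar (G : PFamily k) : VNP G ⊆ VNPbar G := by
  rintro f ⟨u, g, ⟨p1, hp1⟩, _, ⟨p2, hp2⟩, hf⟩
  refine ⟨p1 + p2, fun n => ?_⟩
  show LNapp G (f.poly n) ≤ _
  rw [hf n, Polynomial.eval_add]
  exact LNapp_le_of_sum G (g n) ((hp1 n).trans (Nat.le_add_right _ _)) ((hp2 n).trans (Nat.le_add_left _ _))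

theorem VPbar_subset_VNPbar (G : PFamily k) : VPbar G ⊆ VNPbar G := by
  rintro f ⟨p, hp⟩
  exact ⟨p, fun n => (LNapp_le_Lapp G _).trans (hp n)⟩

/-! ### The recursion -/

/-- exponents as a finitely supported function -/
noncomputable def exW {W : ℕ} (ξ : Fin W → Fin (W + 1)) : Fin W →₀ ℕ :=
  Finsupp.equivFunOnFinite.symm fun v => (ξ v : ℕ)

theorem exW_apply {W : ℕ} (ξ : Fin W → Fin (W + 1)) (v : Fin W) : exW ξ v = (ξ v : ℕ) := rfl

theorem exW_inj {W : ℕ} : Function.Injective (exW : (Fin W → Fin (W + 1)) → (Fin W →₀ ℕ)) := by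
  intro j j' h
  funext i
  apply Fin.ext
  rw [← exW_apply, ← exW_apply, h]

theorem sum_exW {W : ℕ} {F : Type} [Field F] (g : MvPolynomial (Fin W) F) (hg : g.totalDegree ≤ W) :
    ∑ ξ : Fin W → Fin (W + 1), monomial (exW ξ) (coeff (exW ξ) g) = g := by
  classical
  ext ν
  rw [coeff_sum]
  simp only [coeff_monomial]
  by_cases h : ∃ j, exW j = ν
  · obtain ⟨j, rfl⟩ := h
    rw [Finset.sum_eq_single j]
    · rw [if_pos rfl]
    · intro j' _ hj'
      rw [if_neg (fun h => hj' (exW_inj h))]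
    · intro h; exact absurd (Finset.mem_univ _) h
  · have h0 : coeff ν g = 0 := by
      by_contra h1
      apply h
      have h2 : ν ∈ g.support := mem_support_iff.2 h1
      have h3 : ν.sum (fun _ x => x) ≤ W := (le_totalDegree h2).trans hg
      rw [Finsupp.sum_fintype _ _ (fun _ => rfl)] at h3
      have h4 : ∀ i, ν i < W + 1 := fun i =>
        Nat.lt_succ_of_le ((Finset.single_le_sum (f := fun i => ν i) (fun _ _ => Nat.zero_le _)
          (Finset.mem_univ i)).trans h3)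
      refine ⟨fun i => ⟨ν i, h4 i⟩, ?_⟩
      ext i
      rw [exW_apply]
    rw [h0]
    exact Finset.sum_eq_zero fun j _ => if_neg (fun h' => h ⟨j, h'⟩)

theorem aeval_eq_sum {W : ℕ} {B : Type} [CommRing B] [Algebra k B] (g : MvPolynomial (Fin W) k) (hg : g.totalDegree ≤ W)
    (a : Fin W → B) : aeval a g = ∑ ξ : Fin W → Fin (W + 1), algebraMap k B (coeff (exW ξ) g) * mon a ξ := by
  conv_lhs => rw [← sum_exW g hg]
  rw [map_sum]
  apply Finset.sum_congr rfl
  intro ξ _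
  rw [aeval_monomial]
  congr 1
  unfold mon
  rw [Finsupp.prod_fintype _ _ fun i => pow_zero _]
  rfl

theorem cc_congr {α α' : (Σ m, Ind m) → k} {u u' : ∀ m, (Fin (W m) → Fin (W m + 1)) → k} {m : ℕ}
    (hα : ∀ i, α ⟨m, i⟩ = α' ⟨m, i⟩) (h : u m = u' m) : cc α u m = cc α' u' m := by
  funext i
  rcases i with ⟨ξ, b⟩ | i
  · unfold cc
    dsimp only
    rw [h, hα]
  · exact hα _

theorem comp_congr {α α' : (Σ m, Ind m) → k} {u u' : ∀ m, (Fin (W m) → Fin (W m + 1)) → k} {m : ℕ}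
    (hα : ∀ j < m, ∀ i, α ⟨j, i⟩ = α' ⟨j, i⟩) (h : ∀ j < m, u j = u' j) {F : Type} [Field F] [Algebra k F] {n r : ℕ}
    {l : List (MvPolynomial (Fin n) F)} (hc : Comp (orc α u) r l) (hr : r ≤ m) : Comp (orc α' u') r l := by
  induction hc with
  | nil => exact Comp.nil
  | add _ hp hq ih => exact Comp.add (ih (by omega)) hp hq
  | sub _ hp hq ih => exact Comp.sub (ih (by omega)) hp hq
  | mul _ hp hq ih => exact Comp.mul (ih (by omega)) hp hq
  | oracle i a _ ha ih =>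
    have hv : (orc α u).vars i = NV i := rfl
    rw [hv] at hr
    have hi : i < m := by
      have := le_NV i
      omega
    have e : (orc α u).poly i = (orc α' u').poly i := by
      show rename (emb i) (qpoly (cc α u i)) = rename (emb i) (qpoly (cc α' u' i))
      rw [cc_congr (hα i hi) (h i hi)]
    rw [e]
    exact Comp.oracle (G := orc α' u') i a (ih (by omega)) ha

theorem sumComputedBy_congr {α α' : (Σ m, Ind m) → k} {u u' : ∀ m, (Fin (W m) → Fin (W m + 1)) → k} {m : ℕ}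
    (hα : ∀ j < m, ∀ i, α ⟨j, i⟩ = α' ⟨j, i⟩) (h : ∀ j < m, u j = u' j) {F : Type} [Field F] [Algebra k F] {n r : ℕ}
    {f : MvPolynomial (Fin n) F} (hf : SumComputedBy (orc α u) f r) (hr : r ≤ m) :
    SumComputedBy (orc α' u') f r := by
  obtain ⟨d, g, h1, h2, h3⟩ := hf
  obtain ⟨l, h4, h5⟩ := computedBy_L (orc α u) g
  exact ⟨d, g, h1, (L_le ⟨l, comp_congr hα h h4 (h2.trans hr), h5⟩).trans h2, h3⟩

/-- `v` gives a polynomial which covers the exponential sums of cost `m` over all extension fields -/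
def CovN (m : ℕ) (G : PFamily k) (v : (Fin (W m) → Fin (W m + 1)) → k) : Prop :=
  ∀ (F : Type) [Field F] [Algebra k F] (n : ℕ) (hn : n ≤ m) (f : MvPolynomial (Fin n) F),
    SumComputedBy G f m → ∃ a : Fin (W m) → MvPolynomial (Fin m) F, (∀ i, Avail [] (a i)) ∧
      ∑ ξ : Fin (W m) → Fin (W m + 1), C (algebraMap k F (v ξ)) * mon a ξ =
        ∑ j : Fin m → Fin (m + 1), monomial (ex m j) (coeff (ex m j) (rename (Fin.castLE hn) f))

/-- `v` gives a polynomial which covers the polynomials of approximative exponential sum complexity at most `m` -/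
def CovC (m : ℕ) (G : PFamily k) (v : (Fin (W m) → Fin (W m + 1)) → k) : Prop :=
  ∀ (n : ℕ) (f : MvPolynomial (Fin n) k), n ≤ m → f.totalDegree ≤ m → LNapp G f ≤ m →
    ∃ a : Fin (W m) → MvPolynomial (Fin n) k, (∀ i, Avail [] (a i)) ∧
      f = ∑ ξ : Fin (W m) → Fin (W m + 1), C (v ξ) * mon a ξ

theorem exists_covN (m : ℕ) (α : (Σ m, Ind m) → k) (u : ∀ m, (Fin (W m) → Fin (W m + 1)) → k) :
    ∃ v, CovN m (orc α u) v := by
  obtain ⟨g, h1, _, h3⟩ := stepN (orc α u) le_NV m (by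
    intro i hi
    have hi' : NV i < m := hi
    exact ((totalDegree_rename_le _ _).trans (totalDegree_qpoly_le _)).trans hi'.le)
  refine ⟨fun ξ => coeff (exW ξ) g, ?_⟩
  intro F _ _ n hn f hf
  obtain ⟨a, ha1, ha2⟩ := h3 F n hn f hf
  refine ⟨a, ha1, ?_⟩
  rw [← ha2, aeval_eq_sum g h1]
  rfl

theorem exists_covC [Infinite k] [PerfectField k] (m : ℕ) (α : (Σ m, Ind m) → k) (u : ∀ m, (Fin (W m) → Fin (W m + 1)) → k) :
    ∃ v, CovC m (orc α u) v := by
  obtain ⟨g, h1, h2⟩ := stepC (orc α u) le_NV m (by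
    intro i hi
    have hi' : NV i < m := hi
    exact ((totalDegree_rename_le _ _).trans (totalDegree_qpoly_le _)).trans hi'.le)
  refine ⟨fun ξ => coeff (exW ξ) g, ?_⟩
  intro n f hn hf hL
  obtain ⟨a, ha1, ha2⟩ := h2 n hn f hf hL
  refine ⟨a, ha1, ?_⟩
  rw [ha2, aeval_eq_sum g h1]
  rfl

theorem covN_congr (m : ℕ) (α α' : (Σ m, Ind m) → k) (u u' : ∀ m, (Fin (W m) → Fin (W m + 1)) → k)
    (hα : ∀ j < m, ∀ i, α ⟨j, i⟩ = α' ⟨j, i⟩) (h : ∀ j < m, u j = u' j) (v : (Fin (W m) → Fin (W m + 1)) → k)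
    (hv : CovN m (orc α u) v) : CovN m (orc α' u') v := by
  intro F _ _ n hn f hf
  exact hv F n hn f (sumComputedBy_congr (fun j hj i => (hα j hj i).symm) (fun j hj => (h j hj).symm) hf le_rfl)

theorem covC_congr (m : ℕ) (α α' : (Σ m, Ind m) → k) (u u' : ∀ m, (Fin (W m) → Fin (W m + 1)) → k)
    (hα : ∀ j < m, ∀ i, α ⟨j, i⟩ = α' ⟨j, i⟩) (h : ∀ j < m, u j = u' j) (v : (Fin (W m) → Fin (W m + 1)) → k)
    (hv : CovC m (orc α u) v) : CovC m (orc α' u') v := by
  intro n f hn hf hL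
  refine hv n f hn hf ?_
  obtain ⟨F, h1, h2⟩ := exists_LNapp (orc α' u') f
  exact (LNapp_le h1
    (sumComputedBy_congr (fun j hj i => (hα j hj i).symm) (fun j hj => (h j hj).symm) h2 hL)).trans hL

/-! ### The closure -/

theorem Lapp_le_of_LNapp (α : (Σ m, Ind m) → k) (u : ∀ m, (Fin (W m) → Fin (W m + 1)) → k)
    (hu : ∀ (m : ℕ) (F : Type) [Field F] [Algebra k F] (n : ℕ) (hn : n ≤ m) (f : MvPolynomial (Fin n) F),
      SumComputedBy (orc α u) f m → ∃ a : Fin (W m) → MvPolynomial (Fin m) F, (∀ i, Avail [] (a i)) ∧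
        ∑ ξ : Fin (W m) → Fin (W m + 1), C (algebraMap k F (u m ξ)) * mon a ξ =
          ∑ j : Fin m → Fin (m + 1), monomial (ex m j) (coeff (ex m j) (rename (Fin.castLE hn) f)))
    {s n : ℕ} (f : MvPolynomial (Fin n) k) (hn : n ≤ s) (hf : f.totalDegree ≤ s) (hL : LNapp (orc α u) f ≤ s) :
    Lapp (orc α u) f ≤ NV s + 2 := by
  classical
  obtain ⟨F, h1, h2⟩ := exists_LNapp (orc α u) f
  obtain ⟨a, ha1, ha2⟩ := hu s (RatFunc k) n hn F (h2.mono hL)
  refine (Lapp_castLE _ hn f).trans (border α u s a ha1 _ fun ν => ?_)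
  rw [ha2]
  simp only [show ∀ j : Fin s → Fin (s + 1), ex s j = exW j from fun _ => rfl]
  have hval : ∀ ν, HasValueAtZero (coeff ν (rename (Fin.castLE hn) F)) (coeff ν (rename (Fin.castLE hn) f)) := by
    intro ν
    by_cases h : ∃ u : Fin n →₀ ℕ, u.mapDomain (Fin.castLE hn) = ν
    · obtain ⟨u, rfl⟩ := h
      rw [coeff_rename_mapDomain _ (Fin.castLE_injective hn), coeff_rename_mapDomain _ (Fin.castLE_injective hn)]
      exact h1 u
    · have e1 : coeff ν (rename (Fin.castLE hn) F) = 0 :=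
        coeff_rename_eq_zero _ F ν fun u hu => absurd ⟨u, hu⟩ h
      have e2 : coeff ν (rename (Fin.castLE hn) f) = 0 :=
        coeff_rename_eq_zero _ f ν fun u hu => absurd ⟨u, hu⟩ h
      rw [e1, e2]
      have h := hasValueAtZero_algebraMap (0 : Polynomial k)
      rw [map_zero, Polynomial.eval_zero] at h
      exact h
  rw [coeff_sum]
  simp only [coeff_monomial]
  by_cases h : ∃ j, exW j = ν
  · obtain ⟨j, rfl⟩ := h
    rw [Finset.sum_eq_single j]
    · rw [if_pos rfl]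
      exact hval _
    · intro j' _ hj'
      rw [if_neg (fun h => hj' (exW_inj h))]
    · intro h; exact absurd (Finset.mem_univ _) h
  · rw [Finset.sum_eq_zero fun j _ => if_neg (fun h' => h ⟨j, h'⟩)]
    have h0 : coeff ν (rename (Fin.castLE hn) f) = 0 := by
      by_contra h1
      apply h
      have h2 : ν ∈ (rename (Fin.castLE hn) f).support := mem_support_iff.2 h1
      have h3 : ν.sum (fun _ x => x) ≤ s :=
        (le_totalDegree h2).trans ((totalDegree_rename_le _ _).trans hf)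
      rw [Finsupp.sum_fintype _ _ (fun _ => rfl)] at h3
      have h4 : ∀ i, ν i < s + 1 := fun i =>
        Nat.lt_succ_of_le ((Finset.single_le_sum (f := fun i => ν i) (fun _ _ => Nat.zero_le _)
          (Finset.mem_univ i)).trans h3)
      refine ⟨fun i => ⟨ν i, h4 i⟩, ?_⟩
      ext i
      rw [exW_apply]
    rw [h0]
    have h := hasValueAtZero_algebraMap (0 : Polynomial k)
    rw [map_zero, Polynomial.eval_zero] at h
    exact h

theorem VNPbar_eq_of_bound {G : PFamily k}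
    (h : ∀ (s n : ℕ) (f : MvPolynomial (Fin n) k), n ≤ s → f.totalDegree ≤ s → LNapp G f ≤ s →
        Lapp G f ≤ NV s + 2) : VNPbar G = VPbar G := by
  apply Set.Subset.antisymm _ (VPbar_subset_VNPbar G)
  rintro f ⟨p1, hp1⟩
  obtain ⟨p2, hp2⟩ := f.vars_bdd
  obtain ⟨p3, hp3⟩ := f.deg_bdd
  refine ⟨(32 * (p1 + p2 + p3 + 2) ^ 8) * (32 * (p1 + p2 + p3 + 2) ^ 8) + 2 * (p1 + p2 + p3) + 1 + 2, fun n => ?_⟩
  obtain ⟨m, hm⟩ : ∃ m, m = (p1 + p2 + p3).eval n := ⟨_, rfl⟩
  have hm' : m = p1.eval n + p2.eval n + p3.eval n := by rw [hm]; simp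
  have h1 : LNapp G (f.poly n) ≤ m := (hp1 n).trans (by omega)
  have h2 : f.vars n ≤ m := (hp2 n).trans (by omega)
  have h3 : (f.poly n).totalDegree ≤ m := (hp3 n).trans (by omega)
  have h6 : NV m + 2 = ((32 * (p1 + p2 + p3 + 2) ^ 8) * (32 * (p1 + p2 + p3 + 2) ^ 8) + 2 * (p1 + p2 + p3) + 1 + 2 :
      Polynomial ℕ).eval n := by
    unfold NV W
    rw [hm]
    simp
  rw [← h6]
  exact h m (f.vars n) (f.poly n) h2 h3 h1

theorem Lapp_le_of_cov {α : (Σ m, Ind m) → k} {u : ∀ m, (Fin (W m) → Fin (W m + 1)) → k} {s n : ℕ}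
    (f : MvPolynomial (Fin n) k) (hn : n ≤ s) (a : Fin (W s) → MvPolynomial (Fin n) k) (ha : ∀ i, Avail [] (a i))
    (hf : f = ∑ ξ : Fin (W s) → Fin (W s + 1), C (u s ξ) * mon a ξ) : Lapp (orc α u) f ≤ NV s + 2 := by
  classical
  let φ : MvPolynomial (Fin n) k →+* MvPolynomial (Fin s) (RatFunc k) :=
    (rename (Fin.castLE hn) : MvPolynomial (Fin n) (RatFunc k) →ₐ[RatFunc k] _).toRingHom.comp
      (MvPolynomial.map (algebraMap k (RatFunc k)))
  have hφ : ∀ p, φ p = MvPolynomial.map (algebraMap k (RatFunc k)) (rename (Fin.castLE hn) p) := by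
    intro p
    exact (map_rename _ _ _).symm
  refine (Lapp_castLE _ hn f).trans (border α u s (fun i => φ (a i)) ?_ _ fun ν => ?_)
  · intro i
    rcases ha i with ⟨c, hc⟩ | ⟨j, hj⟩ | h
    · refine Or.inl ⟨algebraMap k (RatFunc k) c, ?_⟩
      rw [hφ, hc, rename_C, map_C]
    · refine Or.inr (Or.inl ⟨Fin.castLE hn j, ?_⟩)
      rw [hφ, hj, rename_X, map_X]
    · exact absurd h List.not_mem_nil
  · have h1 : ∑ ξ : Fin (W s) → Fin (W s + 1), C (algebraMap k (RatFunc k) (u s ξ)) * mon (fun i => φ (a i)) ξ =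
        MvPolynomial.map (algebraMap k (RatFunc k)) (rename (Fin.castLE hn) f) := by
      rw [← hφ, hf, map_sum]
      apply Finset.sum_congr rfl
      intro ξ _
      rw [map_mul, map_mon, hφ (C (u s ξ)), rename_C, map_C]
    rw [h1]
    exact hasValue_map _ ν

theorem sum_of_cov (h2 : (2 : k) ≠ 0) {α : (Σ m, Ind m) → k} {u : ∀ m, (Fin (W m) → Fin (W m + 1)) → k}
    (hu : ∀ m, CovC m (orc α u) (u m)) (s n : ℕ) (f : MvPolynomial (Fin n) k) (hn : n ≤ s) (hf : f.totalDegree ≤ s)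
    (hL : LNapp (orc α u) f ≤ s) :
    ∃ g : MvPolynomial (Fin (n + s)) k, g.totalDegree ≤ NV s + s ∧ L (orc α u) g ≤ 2 * NV s + 2 ∧ f = bsum g := by
  obtain ⟨a, ha, hfa⟩ := hu s n f hn hf hL
  obtain ⟨g, h3, h4, h5⟩ := coeff_is_sum h2 α u s n a ha
  exact ⟨g, h3, h4, by rw [h5, hfa]⟩

theorem VNP_eq_of_bound {G : PFamily k}
    (h : ∀ (s n : ℕ) (f : MvPolynomial (Fin n) k), n ≤ s → f.totalDegree ≤ s → LNapp G f ≤ s →
      ∃ g : MvPolynomial (Fin (n + s)) k, g.totalDegree ≤ NV s + s ∧ L G g ≤ 2 * NV s + 2 ∧ f = bsum g) :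
    VNPbar G ⊆ VNP G := by
  rintro f ⟨p1, hp1⟩
  obtain ⟨p2, hp2⟩ := f.vars_bdd
  obtain ⟨p3, hp3⟩ := f.deg_bdd
  obtain ⟨q, hq⟩ := NV_bdd (t := NV) fun n => le_rfl
  let s : ℕ → ℕ := fun n => (p1 + p2 + p3).eval n
  have hs : ∀ n, s n = p1.eval n + p2.eval n + p3.eval n := fun n => by simp [s]
  choose g hg1 hg2 hg3 using fun n => h (s n) (f.vars n) (f.poly n) ((hp2 n).trans (by rw [hs]; omega))
    ((hp3 n).trans (by rw [hs]; omega)) ((hp1 n).trans (by rw [hs]; omega))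
  have hNV : ∀ n, NV (s n) = ((32 * (p1 + p2 + p3 + 2) ^ 8) * (32 * (p1 + p2 + p3 + 2) ^ 8) +
      2 * (p1 + p2 + p3) + 1 : Polynomial ℕ).eval n := by
    intro n
    unfold NV W
    rw [hs]
    simp
  refine ⟨s, g, ⟨p1 + p2 + p3, fun n => le_rfl⟩,
    ⟨(32 * (p1 + p2 + p3 + 2) ^ 8) * (32 * (p1 + p2 + p3 + 2) ^ 8) + 2 * (p1 + p2 + p3) + 1 + (p1 + p2 + p3),
      fun n => ?_⟩,
    ⟨2 * ((32 * (p1 + p2 + p3 + 2) ^ 8) * (32 * (p1 + p2 + p3 + 2) ^ 8) + 2 * (p1 + p2 + p3) + 1) + 2,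
      fun n => ?_⟩, hg3⟩
  · refine (hg1 n).trans ?_
    rw [Polynomial.eval_add, ← hNV]
  · refine (hg2 n).trans ?_
    rw [Polynomial.eval_add, Polynomial.eval_mul, ← hNV]
    simp

theorem main (k : Type) [Field k]
    (hk : Uncountable k ∨ ∃ (K0 : Subfield k) (x : ℕ → k), AlgebraicIndependent K0 x) :
    ∃ G f : PFamily k,
      (∀ n, G.vars n = NV n ∧ (G.poly n).totalDegree ≤ NV n ∧ f.vars n = n ∧ (f.poly n).totalDegree ≤ n) ∧
      f ∈ VNP G ∧
      (∀ n, 2 ^ n < 2 * (L G (f.poly n) + 1) ^ 2) ∧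
      (∀ (s n : ℕ) (g : MvPolynomial (Fin n) k), n ≤ s → g.totalDegree ≤ s → LNapp G g ≤ s →
        Lapp G g ≤ NV s + 2) ∧
      (CharZero k → ∀ (s n : ℕ) (g : MvPolynomial (Fin n) k), n ≤ s → g.totalDegree ≤ s → LNapp G g ≤ s →
        ∃ h : MvPolynomial (Fin (n + s)) k, h.totalDegree ≤ NV s + s ∧ L G h ≤ 2 * NV s + 2 ∧ g = bsum h) := by
  have key : ∃ (K0 : Subfield k) (x : ℕ → k), AlgebraicIndependent K0 x := by
    rcases hk with hk | h
    · obtain ⟨x, hx⟩ := exists_algebraicIndependent k ℕ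
      exact ⟨_, x, hx⟩
    · exact h
  obtain ⟨K0, x, hx⟩ := key
  have hsize : ∀ (α : (Σ m, Ind m) → k) (u : ∀ m, (Fin (W m) → Fin (W m + 1)) → k) (n : ℕ),
      (orc α u).vars n = NV n ∧ ((orc α u).poly n).totalDegree ≤ NV n ∧ (fam α).vars n = n ∧
        ((fam α).poly n).totalDegree ≤ n := fun α u n =>
    ⟨rfl, (totalDegree_rename_le _ _).trans (totalDegree_qpoly_le _), rfl, totalDegree_bsum_hpoly_le α n⟩
  by_cases hchar : CharZero k
  · obtain ⟨α, u, hu, hrk⟩ := exists_seq_rank hx (fun m G v => CovC m G v) exists_covC covC_congr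
    refine ⟨orc α u, fam α, hsize α u, fam_mem_VNP α u, (fun n => lower_rank n fun m _ => hrk m), ?_, fun _ => ?_⟩
    · intro s n g hn hg hL
      obtain ⟨a, ha, hga⟩ := hu s n g hn hg hL
      exact Lapp_le_of_cov g hn a ha hga
    · exact sum_of_cov two_ne_zero hu
  · obtain ⟨α, u, hu, hrk⟩ := exists_seq_rank hx (fun m G v => CovN m G v) exists_covN covN_congr
    refine ⟨orc α u, fam α, hsize α u, fam_mem_VNP α u, (fun n => lower_rank n fun m _ => hrk m), ?_, fun h => absurd h hchar⟩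
    intro s n g hn hg hL
    exact Lapp_le_of_LNapp α u hu g hn hg hL

end Pool.Agent.VPN
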