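import Pool.Agent.VPN.FinalC

/-!
# The oracle which makes `VP` equal to the closure of `VNP` (infinite perfect fields)

The polynomial of level `m` covers all polynomials whose approximative exponential sum complexity relative to the
levels below `m` is at most `m`.
-/

set_option autoImplicit false

open MvPolynomial Pool.Agent.VPO

namespace Pool.Agent.VPN

private theorem W_bdd {t : ℕ → ℕ} (h : ∀ n, t n ≤ W n) : PBounded t := by
  refine ⟨32 * (Polynomial.X + 2) ^ 8, fun n => (h n).trans (le_of_eq ?_)⟩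
  unfold W
  simp

private theorem le_W (m : ℕ) : m ≤ W m := by
  unfold W
  have h5 : m + 2 ≤ (m + 2) ^ 8 := Nat.le_self_pow (by norm_num) _
  omega

/-- the family of polynomials `g i` for `i < m` and `0` for `i ≥ m` -/
private noncomputable def trN {k : Type} [Field k] (m : ℕ)
    (prev : ∀ i, i < m → {g : MvPolynomial (Fin (W i)) k // g.totalDegree ≤ W i}) : PFamily k where
  vars := W
  poly := fun i => if h : i < m then (prev i h).1 else 0
  vars_bdd := W_bdd fun n => le_rfl
  deg_bdd := by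
    refine W_bdd fun i => ?_
    by_cases h : i < m
    · rw [dif_pos h]
      exact (prev i h).2
    · rw [dif_neg h]
      simp

/-- the family of polynomials `g i` -/
private noncomputable def faN {k : Type} [Field k]
    (g : ∀ i, {g : MvPolynomial (Fin (W i)) k // g.totalDegree ≤ W i}) : PFamily k where
  vars := W
  poly := fun i => (g i).1
  vars_bdd := W_bdd fun n => le_rfl
  deg_bdd := W_bdd fun i => (g i).2

private theorem trN_comp {k : Type} [Field k] (g : ∀ i, {g : MvPolynomial (Fin (W i)) k // g.totalDegree ≤ W i})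
    {F : Type} [Field F] [Algebra k F] {n : ℕ} {r : ℕ} {l : List (MvPolynomial (Fin n) F)}
    (h : Comp (faN g) r l) {m : ℕ} (hr : r ≤ m) : Comp (trN m fun i _ => g i) r l := by
  induction h with
  | nil => exact Comp.nil
  | add _ hp hq ih => exact Comp.add (ih (by omega)) hp hq
  | sub _ hp hq ih => exact Comp.sub (ih (by omega)) hp hq
  | mul _ hp hq ih => exact Comp.mul (ih (by omega)) hp hq
  | oracle i a _ ha ih =>
    have hv : (faN g).vars i = W i := rfl
    rw [hv] at hr
    have h1 : i < m := by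
      have := le_W i
      omega
    have h2 : (trN m fun i _ => g i).poly i = (faN g).poly i := dif_pos h1
    rw [← h2]
    exact Comp.oracle (G := trN m fun i _ => g i) i a (ih (by omega)) ha

theorem collapse (k : Type) [Field k] [Infinite k] [PerfectField k] :
    ∃ G : PFamily k, (∀ m, G.vars m = W m) ∧ (∀ m, (G.poly m).totalDegree ≤ W m) ∧
      ∀ (s n : ℕ) (f : MvPolynomial (Fin n) k), n ≤ s → f.totalDegree ≤ s → LNapp G f ≤ s → L G f ≤ W s + 1 := by
  obtain ⟨g, hg⟩ := VPE.exists_seq (α := fun i => {g : MvPolynomial (Fin (W i)) k // g.totalDegree ≤ W i})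
    (fun m prev g => ∀ n ≤ m, ∀ f : MvPolynomial (Fin n) k, f.totalDegree ≤ m → LNapp (trN m prev) f ≤ m →
        ∃ a : Fin (W m) → MvPolynomial (Fin n) k, (∀ i, Avail [] (a i)) ∧ f = aeval a g.1)
    (by
      intro m prev
      obtain ⟨g, hg1, hg2⟩ := stepC (trN m prev) le_W m (by
        intro i hi
        have hi' : W i < m := hi
        by_cases h : i < m
        · show (if h : i < m then (prev i h).1 else 0).totalDegree ≤ m
          rw [dif_pos h]
          exact (prev i h).2.trans hi'.le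
        · show (if h : i < m then (prev i h).1 else 0).totalDegree ≤ m
          rw [dif_neg h]
          simp)
      exact ⟨⟨g, hg1⟩, hg2⟩)
  refine ⟨faN g, fun m => rfl, fun m => (g m).2, fun m n f h2 h3 h1 => ?_⟩
  obtain ⟨F, hF1, d, q, hd, hq, hFq⟩ := exists_LNapp (faN g) f
  obtain ⟨l, hl1, hl2⟩ := computedBy_L (faN g) q
  have h4 : LNapp (trN m fun i _ => g i) f ≤ m :=
    (LNapp_le hF1 ⟨d, q, hd, (L_le ⟨l, trN_comp g hl1 (hq.trans h1), hl2⟩).trans hq, hFq⟩).trans h1
  obtain ⟨a, ha1, ha2⟩ := hg m n h2 f h3 h4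
  have h5 : L (faN g) f ≤ 0 + (W m + 1) := by
    refine L_le ⟨_, Comp.oracle (G := faN g) m a Comp.nil ha1, Or.inr (Or.inr ?_)⟩
    exact List.mem_singleton.mpr ha2
  omega

theorem VP_eq_of_boundN {k : Type} [Field k] {G : PFamily k}
    (h : ∀ (s n : ℕ) (f : MvPolynomial (Fin n) k), n ≤ s → f.totalDegree ≤ s → LNapp G f ≤ s → L G f ≤ W s + 1) :
    VNPbar G ⊆ VP G := by
  rintro f ⟨p1, hp1⟩
  obtain ⟨p2, hp2⟩ := f.vars_bdd
  obtain ⟨p3, hp3⟩ := f.deg_bdd
  refine ⟨32 * (p1 + p2 + p3 + 2) ^ 8 + 1, fun n => ?_⟩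
  obtain ⟨m, hm⟩ : ∃ m, m = (p1 + p2 + p3).eval n := ⟨_, rfl⟩
  have hm' : m = p1.eval n + p2.eval n + p3.eval n := by rw [hm]; simp
  have h1 : LNapp G (f.poly n) ≤ m := (hp1 n).trans (by omega)
  have h2 : f.vars n ≤ m := (hp2 n).trans (by omega)
  have h3 : (f.poly n).totalDegree ≤ m := (hp3 n).trans (by omega)
  have h6 : W m + 1 = (32 * (p1 + p2 + p3 + 2) ^ 8 + 1 : Polynomial ℕ).eval n := by
    unfold W
    rw [hm]
    simp
  rw [← h6]
  exact h m (f.vars n) (f.poly n) h2 h3 h1

end Pool.Agent.VPN
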