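import Pool.Agent.VPN.LowerC

/-!
# The lower bound
-/

set_option autoImplicit false

open Finset Pool.Agent.VPO

namespace Pool.Agent.VPN

variable {K0 k : Type} [Field K0] [Field k] [Algebra K0 k] {n : ℕ}

theorem cc_of_Frm (α : (Σ m, Ind m) → k) (u : ∀ m, (Fin (W m) → Fin (W m + 1)) → k) {m : ℕ} {i : Ind m}
    (hi : Frm m i) : cc α u m i = α ⟨m, i⟩ := by
  rcases i with ⟨ξ, b⟩ | i
  · exact if_pos hi
  · rfl

theorem cc_mem {α : (Σ m, Ind m) → k} {u : ∀ m, (Fin (W m) → Fin (W m + 1)) → k} {m : ℕ}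
    {E : IntermediateField K0 k} (hu : ∀ ξ, u m ξ ∈ E) (i : Ind m) (hi : Frm m i → α ⟨m, i⟩ ∈ E) :
    cc α u m i ∈ E := by
  rcases i with ⟨ξ, b⟩ | i
  · unfold cc
    dsimp only
    split_ifs with h1 h2
    · exact hi h1
    · exact hu ξ
    · exact zero_mem _
  · exact hi trivial

theorem sum_eH (α : (Σ m, Ind m) → k) (u : ∀ m, (Fin (W m) → Fin (W m + 1)) → k) {R : ℕ} (hR : 0 < R)
    (β : Fin n → Fin 2) :
    ∑ i, eH R β i * cv α u n R i = MvPolynomial.eval (bp k β) (bsum (hpoly α n)) := by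
  rw [bsum_hpoly, map_sum, Fintype.sum_sigma, sum_eq_single ⟨0, hR⟩]
  · rw [Fintype.sum_sum_type]
    have h1 : ∑ i : IC (n + ((⟨0, hR⟩ : Fin R) : ℕ)), eH R β ⟨⟨0, hR⟩, Sum.inl i⟩ * cv α u n R ⟨⟨0, hR⟩, Sum.inl i⟩ = 0 := by
      apply sum_eq_zero
      intro i _
      exact zero_mul _
    rw [h1, zero_add]
    apply sum_congr rfl
    intro i _
    rw [map_mul, MvPolynomial.eval_C, map_mon]
    have h2 : eH R β ⟨⟨0, hR⟩, Sum.inr i⟩ =
        mon (fun j : Fin n => xb k β j) i.1 * ∑ y : Fin n → Fin 2, mon (bp k y) i.2 := rfl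
    have h3 : (fun j : Fin n => xb k β j) = bp k β := by
      funext j
      unfold xb
      rw [dif_pos j.2]
    rw [h2, h3]
    simp only [MvPolynomial.eval_X]
    have h4 : cv α u n R ⟨⟨0, hR⟩, Sum.inr i⟩ = α ⟨n, Sum.inr i⟩ := rfl
    rw [h4]
    show mon (bp k β) i.1 * (∑ y : Fin n → Fin 2, mon (bp k y) i.2) * α ⟨n, Sum.inr i⟩ =
      α ⟨n, Sum.inr i⟩ * (∑ y : Fin n → Fin 2, mon (bp k y) i.2) * mon (bp k β) i.1
    ring
  · intro t _ ht
    apply sum_eq_zero
    rintro (i | i) _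
    · exact zero_mul _
    · have h1 : eH (k := k) R β ⟨t, Sum.inr i⟩ = (0 : k) := if_neg fun h => ht (Fin.ext h)
      rw [h1, zero_mul]
  · intro h
    exact absurd (mem_univ _) h

theorem eH_mem {E : IntermediateField K0 k} {R : ℕ} (β : Fin n → Fin 2) (i : Ii n R) : eH R β i ∈ E := by
  obtain ⟨t, i | i⟩ := i
  · exact zero_mem _
  · unfold eH
    dsimp only
    split_ifs
    · refine mul_mem (mon_mem (fun j => ?_) _) (sum_mem fun y _ => mon_mem (fun j => bp_mem _ _ _) _)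
      unfold xb
      split_ifs
      · exact bp_mem _ _ _
      · exact zero_mem _
    · exact zero_mem _

/-- the lower bound -/
theorem lowerN {α : (Σ m, Ind m) → k} {u : ∀ m, (Fin (W m) → Fin (W m + 1)) → k}
    (hα : ∀ m < n, ∀ i : Ind m, ∃ z : K0, algebraMap K0 k z = cc α u m i) {r : ℕ}
    (h2 : AlgebraicIndependent K0 (fun i : {i : Ii n (r + 1) // Fr i} => cv α u n (r + 1) i))
    (h3 : ∀ (t : Fin (r + 1)) (E : IntermediateField K0 k),
      (∀ t' : Fin (r + 1), t' < t → ∀ i, Frm (n + t') i → cc α u (n + t') i ∈ E) → ∀ ξ, u (n + t) ξ ∈ E)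
    (hc : ComputedBy (orc α u) (bsum (hpoly α n)) r) : 2 ^ n < 2 * (r + 1) ^ 2 := by
  classical
  by_contra hcon
  push Not at hcon
  obtain ⟨l, hl, hf⟩ := hc
  have hT : 2 * r + 2 ≤ (univ : Finset (Fin n → Fin 2)).card := by
    rw [card_univ, Fintype.card_fun, Fintype.card_fin, Fintype.card_fin]
    nlinarith
  obtain ⟨T, -, hTc⟩ := exists_subset_card_eq hT
  obtain ⟨s0, P, h0⟩ := main_indN (R := r + 1) hα hl (by omega) T
  obtain ⟨s, h1, h2', h3'⟩ := h0.avail hf
  have hP : P.card < 2 ^ n := by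
    have := h2'.card
    rw [hTc] at this
    nlinarith
  have heb : ∀ β ∈ T, RatV (IntermediateField.adjoin K0 (s : Set k)) (cv α u n (r + 1)) (eH (r + 1) β) := by
    intro β hβ
    refine ⟨eH_mem β, ?_⟩
    rw [sum_eH α u (Nat.succ_pos r)]
    exact h3' β hβ
  have hgain : ∀ T' ⊆ T, Inv K0 (cv α u n (r + 1)) s ((nf n : Nd k (r + 1) → Ii n (r + 1) → k) '' P ∪
      eH (r + 1) '' (T' : Set (Fin n → Fin 2))) T'.card (2 * r + 1) := by
    intro T'
    induction T' using Finset.induction_on with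
    | empty =>
      intro _
      simpa using h2'.inv
    | insert β T' hβ ih =>
      intro hsub
      have hT' : T' ⊆ T := (subset_insert _ _).trans hsub
      have hβT : β ∈ T := hsub (mem_insert_self _ _)
      have h4 : (nf n : Nd k (r + 1) → Ii n (r + 1) → k) '' P ∪ eH (r + 1) '' ((insert β T' : Finset _) : Set _) =
          (insert (eH (r + 1) β) ((nf n : Nd k (r + 1) → Ii n (r + 1) → k) '' P ∪
            eH (r + 1) '' (T' : Set (Fin n → Fin 2))) : Set (Ii n (r + 1) → k)) := by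
        rw [coe_insert, Set.image_insert_eq, Set.union_insert]
      rw [h4, card_insert_of_notMem hβ]
      refine (ih hT').gain (heb β hβT) ?_
      intro hmem
      obtain ⟨Θ, hΘ1, hΘ2⟩ := exists_functionalH (Nat.succ_pos r) P hP β
      have h5 : Submodule.span k ((nf n : Nd k (r + 1) → Ii n (r + 1) → k) '' P ∪
          eH (r + 1) '' (T' : Set (Fin n → Fin 2))) ≤ LinearMap.ker Θ := by
        rw [Submodule.span_le]
        rintro v (⟨p, hp, rfl⟩ | ⟨β', hβ', rfl⟩)
        · exact hΘ1 p hp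
        · show Θ _ = 0
          rw [hΘ2, if_neg]
          rintro rfl
          exact hβ hβ'
      have h6 : Θ (eH (r + 1) β) = 0 := h5 hmem
      rw [hΘ2, if_pos rfl] at h6
      exact one_ne_zero h6
  have h4 := hgain T (Subset.refl _)
  have h5 := count_levels h2 h3 s _ h4.rat (by
    rintro v (⟨q, _, rfl⟩ | ⟨β, _, rfl⟩)
    · refine ⟨q.1, fun i hi => ?_⟩
      by_contra hne
      exact hi (if_neg hne)
    · refine ⟨⟨0, Nat.succ_pos r⟩, fun i hi => ?_⟩
      obtain ⟨t, i | i⟩ := i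
      · exact absurd rfl hi
      · by_contra hne
        exact hi (if_neg fun h => hne (Fin.ext h)))
    (fun v hv hv0 => eq_zero_of_span P hP _ v hv hv0)
  have h6 := h4.card
  rw [hTc] at h6
  omega

theorem separation_boundN {α : (Σ m, Ind m) → k} (hα : AlgebraicIndependent K0 α)
    {u : ∀ m, (Fin (W m) → Fin (W m + 1)) → k}
    (hu : ∀ (m : ℕ) (E : IntermediateField K0 k), (∀ j < m, ∀ i, Frm j i → α ⟨j, i⟩ ∈ E) → ∀ ξ, u m ξ ∈ E) (n : ℕ) :
    2 ^ n < 2 * (L (orc α u) ((fam α).poly n) + 1) ^ 2 := by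
  let D : Set (Σ m, Ind m) := {i | i.1 < n}
  let K1 := IntermediateField.adjoin K0 (α '' D)
  have hK1 : ∀ j < n, ∀ i, α ⟨j, i⟩ ∈ K1 := fun j hj i =>
    IntermediateField.subset_adjoin _ _ ⟨⟨j, i⟩, hj, rfl⟩
  have h1 : AlgebraicIndepOn (Algebra.adjoin K0 (α '' D)) α Dᶜ := ((AlgebraicIndependent.iff_adjoin_image D).1 hα).2
  have h2 : AlgebraicIndependent K1 (fun i : (Dᶜ : Set (Σ m, Ind m)) => α i) :=
    IntermediateField.algebraicIndependent_adjoin_iff.2 h1
  have h3 : AlgebraicIndependent K1 (fun i : {i : Ii n (L (orc α u) ((fam α).poly n) + 1) // Fr i} =>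
      cv α u n (L (orc α u) ((fam α).poly n) + 1) i) := by
    have h4 := h2.comp (fun i : {i : Ii n (L (orc α u) ((fam α).poly n) + 1) // Fr i} =>
      (⟨⟨n + i.1.1, i.1.2⟩, by simp [D]⟩ : (Dᶜ : Set (Σ m, Ind m)))) (by
        rintro ⟨⟨t, i⟩, hi⟩ ⟨⟨t', i'⟩, hi'⟩ hij
        have h5 : (⟨n + t, i⟩ : Σ m, Ind m) = ⟨n + t', i'⟩ :=
          congrArg (fun x : (Dᶜ : Set (Σ m, Ind m)) => (x : Σ m, Ind m)) hij
        have h6 : (n + (t : ℕ)) = n + (t' : ℕ) := congrArg Sigma.fst h5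
        have h7 : t = t' := Fin.ext (by omega)
        subst h7
        have h8 : i = i' := by simpa using h5
        subst h8
        rfl)
    have h5 : (fun i : {i : Ii n (L (orc α u) ((fam α).poly n) + 1) // Fr i} =>
        cv α u n (L (orc α u) ((fam α).poly n) + 1) i) = (fun i : (Dᶜ : Set (Σ m, Ind m)) => α i) ∘
          (fun i : {i : Ii n (L (orc α u) ((fam α).poly n) + 1) // Fr i} =>
            (⟨⟨n + i.1.1, i.1.2⟩, by simp [D]⟩ : (Dᶜ : Set (Σ m, Ind m)))) := by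
      funext i
      exact cc_of_Frm α u i.2
    rw [h5]
    exact h4
  refine lowerN (K0 := K1) ?_ h3 ?_ (computedBy_L _ _)
  · intro m hm i
    have h4 : cc α u m i ∈ K1 := cc_mem (hu m K1 fun j hj i _ => hK1 j (by omega) i) i fun _ => hK1 m hm i
    exact ⟨⟨_, h4⟩, rfl⟩
  · intro t E hE ξ
    have h4 : u (n + t) ξ ∈ E.restrictScalars K0 := by
      refine hu (n + t) (E.restrictScalars K0) (fun j hj i hi => ?_) ξ
      show α ⟨j, i⟩ ∈ E
      by_cases hjn : j < n
      · have h5 : algebraMap K1 k ⟨α ⟨j, i⟩, hK1 j hjn i⟩ ∈ E := IntermediateField.algebraMap_mem _ _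
        exact h5
      · obtain ⟨t', rfl⟩ := Nat.exists_eq_add_of_le (not_lt.1 hjn)
        have ht' : t' < L (orc α u) ((fam α).poly n) + 1 := by
          have := t.2
          omega
        have h5 := hE ⟨t', ht'⟩ (by
          show t' < (t : ℕ)
          omega) i hi
        rw [cc_of_Frm α u hi] at h5
        exact h5
    exact h4

end Pool.Agent.VPN
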