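import Pool.Agent.VPE.Lim
import Pool.Agent.VPN.Orc

/-!
# [VPN-UPPER] border programs with one gate, and the family `fam` is in `VNP`

`Lapp_castLE`: take `F` for `rename (castLE hn) f` (`VPE.exists_Lapp`), substitute `X_i` for `i < n`, `C 0` for `i ≥ n` (all results of a program, cf. `VPE.Comp.rename`;
`Avail` is preserved, for oracle gates `comp_aeval_apply`), `coeff ν` of the result is `coeff (ν.mapDomain castLE) F` (`MvPolynomial.killCompl`, or directly), and
`coeff_rename_mapDomain`.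

`border`: let `Y = RatFunc.X`. For `φ : RatFunc k` there is `N0` with `HasValueAtZero (Y ^ N * φ) 0` for `N ≥ N0`. One gate `m` of `orc α u` at `X = a`, `x = 0`, `y_j = C ((Y ^ (N * 3 ^ j))⁻¹)`, `w = 0`
(arguments for the unused variables `C 0`: `Function.extend (emb m) _ (fun _ => C 0)`, `aeval_rename`, `aeval_qpoly`), then multiplication by `C (Y ^ (N * wt (one m)))`. The result is
`∑ ξ, C (u m ξ) * mon a ξ` plus the sum over `b` with `wt b < wt (one m)` of `C (Y ^ (N * (wt (one m) - wt b))) * ∑ ξ, C (α _) * mon a ξ`; the coefficients of the latter have value `0` at `0`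
for large `N`. Cf. `mon_C_pow`, `upper` in VPO/Upper.

`fam_mem_VNP`: `u n = n`, `g n = hpoly α n`, degree `≤ 3 n`; `hpoly α n` is the difference of two gates at `X = 0`, `x`, `y`, `w = 1` and `X = 0`, `x`, `y`, `w = 0`, cost `2 * (NV n + 1) + 1`.
-/

set_option autoImplicit false

open MvPolynomial Pool.Agent.VPO Pool.Agent.VPE

namespace Pool.Agent.VPN

variable {k : Type} [Field k]

private theorem avail_kill {F : Type} [Field F] {n m : ℕ} {ρ : Fin n → Fin m} (hρ : Function.Injective ρ)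
    {l : List (MvPolynomial (Fin m) F)} {p : MvPolynomial (Fin m) F} (h : Avail l p) :
    Avail (l.map (killCompl hρ)) (killCompl hρ p) := by
  rcases h with ⟨c, rfl⟩ | ⟨i, rfl⟩ | h
  · exact Or.inl ⟨c, killCompl_C hρ c⟩
  · by_cases h : i ∈ Set.range ρ
    · obtain ⟨j, rfl⟩ := h
      refine Or.inr (Or.inl ⟨j, ?_⟩)
      rw [← rename_X, killCompl_rename_app]
    · refine Or.inl ⟨0, ?_⟩
      rw [killCompl, aeval_X, dif_neg h, C_0]
  · exact Or.inr (Or.inr (List.mem_map_of_mem h))

private theorem comp_kill (G : PFamily k) {F : Type} [Field F] [Algebra k F] {n m : ℕ} {ρ : Fin n → Fin m}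
    (hρ : Function.Injective ρ) {r : ℕ} {l : List (MvPolynomial (Fin m) F)} (h : Comp G r l) :
    Comp G r (l.map (killCompl hρ)) := by
  induction h with
  | nil => exact VPO.Comp.nil
  | add _ hp hq ih =>
    rw [List.map_cons, map_add]
    exact VPO.Comp.add ih (avail_kill hρ hp) (avail_kill hρ hq)
  | sub _ hp hq ih =>
    rw [List.map_cons, map_sub]
    exact VPO.Comp.sub ih (avail_kill hρ hp) (avail_kill hρ hq)
  | mul _ hp hq ih =>
    rw [List.map_cons, map_mul]
    exact VPO.Comp.mul ih (avail_kill hρ hp) (avail_kill hρ hq)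
  | oracle j a _ ha ih =>
    rw [List.map_cons]
    have h1 : killCompl hρ (MvPolynomial.aeval a (G.poly j)) =
        MvPolynomial.aeval (fun i => killCompl hρ (a i)) (G.poly j) := by
      have h2 : ((killCompl hρ : MvPolynomial (Fin m) F →ₐ[F] MvPolynomial (Fin n) F).restrictScalars k)
          (MvPolynomial.aeval a (G.poly j)) =
          MvPolynomial.aeval (fun i => ((killCompl hρ :
            MvPolynomial (Fin m) F →ₐ[F] MvPolynomial (Fin n) F).restrictScalars k) (a i)) (G.poly j) := by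
        rw [← MvPolynomial.comp_aeval_apply]
      exact h2
    rw [h1]
    exact VPO.Comp.oracle j _ ih fun i => avail_kill hρ (ha i)

theorem Lapp_castLE (G : PFamily k) {n m : ℕ} (hn : n ≤ m) (f : MvPolynomial (Fin n) k) :
    Lapp G f ≤ Lapp G (rename (Fin.castLE hn) f) := by
  have hρ : Function.Injective (Fin.castLE hn) := Fin.castLE_injective hn
  obtain ⟨F, h1, l, h2, h3⟩ := exists_Lapp G (rename (Fin.castLE hn) f)
  refine Lapp_le (F := killCompl hρ F) ?_ ⟨_, comp_kill G hρ h2, avail_kill hρ h3⟩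
  intro ν
  rw [coeff_killCompl, ← coeff_rename_mapDomain (Fin.castLE hn) hρ f ν]
  exact h1 _

theorem hv_zero : HasValueAtZero (0 : RatFunc k) 0 := by
  have h := hasValueAtZero_algebraMap (0 : Polynomial k)
  rw [map_zero, Polynomial.eval_zero] at h
  exact h

theorem hv_const (c : k) : HasValueAtZero (algebraMap k (RatFunc k) c) c := by
  have h1 := hasValueAtZero_algebraMap (Polynomial.C c)
  rw [Polynomial.eval_C] at h1
  exact h1

theorem hv_sum {ι : Type} (s : Finset ι) (x : ι → RatFunc k) (h : ∀ i ∈ s, HasValueAtZero (x i) 0) :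
    HasValueAtZero (∑ i ∈ s, x i) 0 := by
  classical
  induction s using Finset.induction_on with
  | empty => rw [Finset.sum_empty]; exact hv_zero
  | insert a s ha ih =>
    rw [Finset.sum_insert ha]
    have h1 := HasValueAtZero.add (h a (Finset.mem_insert_self _ _)) (ih fun i hi => h i (Finset.mem_insert_of_mem hi))
    rwa [add_zero] at h1

/-- large powers of `ε` kill poles -/
theorem exists_pow (φ : RatFunc k) : ∃ N0 : ℕ, ∀ N ≥ N0, HasValueAtZero (RatFunc.X ^ N * φ) 0 := by
  have hq : φ.denom ≠ 0 := RatFunc.denom_ne_zero φ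
  obtain ⟨g, hg, hg0⟩ := Polynomial.exists_eq_pow_rootMultiplicity_mul_and_not_dvd φ.denom hq 0
  set r := φ.denom.rootMultiplicity 0 with hr
  rw [Polynomial.C_0, sub_zero] at hg hg0
  refine ⟨r + 1, fun N hN => ⟨Polynomial.X ^ (N - r) * φ.num, g, ?_, ?_, ?_⟩⟩
  · intro h
    apply hg0
    have h2 := Polynomial.dvd_iff_isRoot.2 h
    rwa [Polynomial.C_0, sub_zero] at h2
  · have hX : (RatFunc.X : RatFunc k) ≠ 0 := RatFunc.X_ne_zero
    have hg1 : algebraMap (Polynomial k) (RatFunc k) g ≠ 0 := by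
      intro h
      have h3 : g = 0 := RatFunc.algebraMap_injective k (by rw [h, map_zero])
      rw [h3] at hg0
      exact hg0 (dvd_zero _)
    conv_lhs => rw [← RatFunc.num_div_denom φ, hg]
    rw [map_mul, map_mul, map_pow, map_pow, RatFunc.algebraMap_X]
    have h4 : (RatFunc.X : RatFunc k) ^ N = RatFunc.X ^ (N - r) * RatFunc.X ^ r := by
      rw [← pow_add]
      congr 1
      omega
    rw [h4]
    field_simp
  · rw [Polynomial.eval_mul, Polynomial.eval_pow, Polynomial.eval_X, zero_pow (by omega), zero_mul, zero_div]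

/-- uniformly in finitely many polynomials and all monomials -/
theorem exists_pow_unif {ι : Type} [Fintype ι] {n : ℕ} (p : ι → MvPolynomial (Fin n) (RatFunc k)) :
    ∃ N0 : ℕ, ∀ N ≥ N0, ∀ i ν, HasValueAtZero (RatFunc.X ^ N * coeff ν (p i)) 0 := by
  classical
  choose M hM using fun φ : RatFunc k => exists_pow φ
  refine ⟨Finset.univ.sup fun i => (p i).support.sup fun ν => M (coeff ν (p i)), fun N hN i ν => ?_⟩
  by_cases h : ν ∈ (p i).support
  · refine hM _ _ ?_
    refine le_trans ?_ hN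
    refine le_trans ?_ (Finset.le_sup (f := fun i => (p i).support.sup fun ν => M (coeff ν (p i)))
      (Finset.mem_univ i))
    exact Finset.le_sup (f := fun ν => M (coeff ν (p i))) h
  · rw [notMem_support_iff] at h
    rw [h, mul_zero]
    exact hv_zero

/-- the value of a gate at the point `p` -/
theorem gate_value (α : (Σ m, Ind m) → k) (u : ∀ m, (Fin (W m) → Fin (W m + 1)) → k) (m : ℕ) {n : ℕ}
    {F : Type} [Field F] [Algebra k F] (p : Var m → MvPolynomial (Fin n) F) :
    aeval (Function.extend (emb m) p fun _ => C 0) ((orc α u).poly m) =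
      ∑ i : Ind m, C (algebraMap k F (cc α u m i)) * me p i := by
  show aeval (Function.extend (emb m) p fun _ => C 0) (rename (emb m) (qpoly (cc α u m))) = _
  rw [aeval_rename, aeval_qpoly]
  apply Finset.sum_congr rfl
  intro i _
  congr 1
  congr 1
  funext v
  exact (emb m).injective.extend_apply _ _ _

theorem gate_avail (m : ℕ) {n : ℕ} {F : Type} [Field F] {l : List (MvPolynomial (Fin n) F)}
    (p : Var m → MvPolynomial (Fin n) F) (hp : ∀ v, Avail l (p v)) (i : Fin (NV m)) :
    Avail l (Function.extend (emb m) p (fun _ => C 0) i) := by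
  by_cases h : ∃ v, emb m v = i
  · obtain ⟨v, rfl⟩ := h
    rw [(emb m).injective.extend_apply]
    exact hp v
  · rw [Function.extend_apply' _ _ _ h]
    exact Or.inl ⟨0, rfl⟩

theorem border (α : (Σ m, Ind m) → k) (u : ∀ m, (Fin (W m) → Fin (W m + 1)) → k) (m : ℕ)
    (a : Fin (W m) → MvPolynomial (Fin m) (RatFunc k)) (ha : ∀ i, Avail [] (a i)) (f : MvPolynomial (Fin m) k)
    (hf : ∀ ν, HasValueAtZero (coeff ν (∑ ξ : Fin (W m) → Fin (W m + 1),
      C (algebraMap k (RatFunc k) (u m ξ)) * mon a ξ)) (coeff ν f)) :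
    Lapp (orc α u) f ≤ NV m + 2 := by
  classical
  obtain ⟨N, hN⟩ := exists_pow_unif (fun ξ : Fin (W m) → Fin (W m + 1) => mon a ξ)
  let Y : RatFunc k := RatFunc.X
  have hY : Y ≠ 0 := RatFunc.X_ne_zero
  let x : RatFunc k := Y ^ N
  have hx : x ≠ 0 := pow_ne_zero _ hY
  let p : Var m → MvPolynomial (Fin m) (RatFunc k) := Sum.elim a (Sum.elim (fun _ => C 0)
    (Sum.elim (fun j => C ((x ^ 3 ^ (j : ℕ))⁻¹)) fun _ => C 0))
  have hp : ∀ v, Avail [] (p v) := by
    rintro (v | v | v | v)
    · exact ha v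
    · exact Or.inl ⟨0, rfl⟩
    · exact Or.inl ⟨_, rfl⟩
    · exact Or.inl ⟨0, rfl⟩
  obtain ⟨g, hg⟩ : ∃ g, g = aeval (Function.extend (emb m) p fun _ => C 0) ((orc α u).poly m) := ⟨_, rfl⟩
  have h1 : Comp (orc α u) (0 + (NV m + 1)) [g] := by
    rw [hg]
    exact Comp.oracle (G := orc α u) m _ Comp.nil (gate_avail m p hp)
  have h2 : Comp (orc α u) (0 + (NV m + 1) + 1) [C (x ^ wt (one m)) * g, g] :=
    Comp.mul h1 (Or.inl ⟨_, rfl⟩) (Or.inr (Or.inr List.mem_cons_self))
  have h3 : ComputedBy (orc α u) (C (x ^ wt (one m)) * g) (NV m + 2) := by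
    have h5 : 0 + (NV m + 1) + 1 = NV m + 2 := by ring
    rw [h5] at h2
    exact ⟨_, h2, Or.inr (Or.inr List.mem_cons_self)⟩
  refine Lapp_le ?_ h3
  -- the value of the gate
  have hg1 : g = ∑ i : IC m, C (algebraMap k (RatFunc k) (cc α u m (Sum.inl i))) *
      (mon a i.1 * C ((x ^ wt i.2)⁻¹)) := by
    rw [hg, gate_value, Fintype.sum_sum_type]
    have h0 : ∑ i : IH m, C (algebraMap k (RatFunc k) (cc α u m (Sum.inr i))) * me p (Sum.inr i) = 0 := by
      apply Finset.sum_eq_zero
      rintro ⟨e, b⟩ _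
      show _ * (pw p * _) = 0
      have : pw p = 0 := by
        show (C 0 : MvPolynomial (Fin m) (RatFunc k)) = 0
        exact C_0
      rw [this, zero_mul, mul_zero]
    rw [h0, add_zero]
    apply Finset.sum_congr rfl
    rintro ⟨ξ, b⟩ _
    show _ * (mon (pX p) ξ * mon (py p) b) = _
    have e1 : mon (py p) b = C ((x ^ wt b)⁻¹) := by
      rw [← mon_C_pow]
      rfl
    rw [e1]
    rfl
  have hF : C (x ^ wt (one m)) * g =
      (∑ ξ : Fin (W m) → Fin (W m + 1), C (algebraMap k (RatFunc k) (u m ξ)) * mon a ξ) +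
      ∑ i : IC m, (if wt i.2 < wt (one m) then
        C (x ^ (wt (one m) - wt i.2) * algebraMap k (RatFunc k) (α ⟨m, Sum.inl i⟩)) * mon a i.1 else 0) := by
    rw [hg1, Finset.mul_sum]
    have e2 : ∀ i : IC m, C (x ^ wt (one m)) * (C (algebraMap k (RatFunc k) (cc α u m (Sum.inl i))) *
        (mon a i.1 * C ((x ^ wt i.2)⁻¹))) =
        (if i.2 = one m then C (algebraMap k (RatFunc k) (u m i.1)) * mon a i.1 else 0) +
        (if wt i.2 < wt (one m) then
          C (x ^ (wt (one m) - wt i.2) * algebraMap k (RatFunc k) (α ⟨m, Sum.inl i⟩)) * mon a i.1 else 0) := by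
      rintro ⟨ξ, b⟩
      have hxw : ∀ w : ℕ, x ^ w ≠ 0 := fun w => pow_ne_zero _ hx
      have e3 : C (x ^ wt (one m)) * (C (algebraMap k (RatFunc k) (cc α u m (Sum.inl (ξ, b)))) *
        (mon a ξ * C ((x ^ wt b)⁻¹))) =
        C (x ^ wt (one m) * (x ^ wt b)⁻¹ * algebraMap k (RatFunc k) (cc α u m (Sum.inl (ξ, b)))) * mon a ξ := by
        rw [C_mul, C_mul]
        ring
      show C (x ^ wt (one m)) * (C (algebraMap k (RatFunc k) (cc α u m (Sum.inl (ξ, b)))) *
        (mon a ξ * C ((x ^ wt b)⁻¹))) = _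
      rw [e3]
      show C (x ^ wt (one m) * (x ^ wt b)⁻¹ * algebraMap k (RatFunc k)
        (if wt b < wt (one m) then α ⟨m, Sum.inl (ξ, b)⟩ else if b = one m then u m ξ else 0)) * mon a ξ = 
        (if b = one m then C (algebraMap k (RatFunc k) (u m ξ)) * mon a ξ else 0) +
        (if wt b < wt (one m) then
          C (x ^ (wt (one m) - wt b) * algebraMap k (RatFunc k) (α ⟨m, Sum.inl (ξ, b)⟩)) * mon a ξ else 0)
      by_cases hb : wt b < wt (one m)
      · have hb1 : b ≠ one m := by
          rintro rfl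
          exact lt_irrefl _ hb
        rw [if_pos hb, if_pos hb, if_neg hb1, zero_add]
        have e4 : x ^ wt (one m) * (x ^ wt b)⁻¹ = x ^ (wt (one m) - wt b) := by
          have e5 : x ^ wt (one m) = x ^ (wt (one m) - wt b) * x ^ wt b := by
            rw [← pow_add, Nat.sub_add_cancel hb.le]
          rw [e5, mul_assoc, mul_inv_cancel₀ (hxw _), mul_one]
        rw [e4]
      · rw [if_neg hb, if_neg hb, add_zero]
        by_cases hb1 : b = one m
        · rw [if_pos hb1, if_pos hb1, hb1, mul_inv_cancel₀ (hxw _), one_mul]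
        · rw [if_neg hb1, if_neg hb1, map_zero, mul_zero, C_0, zero_mul]
    rw [Finset.sum_congr rfl fun i _ => e2 i, Finset.sum_add_distrib]
    congr 1
    rw [Fintype.sum_prod_type]
    apply Finset.sum_congr rfl
    intro ξ _
    exact Finset.sum_ite_eq' Finset.univ (one m) _ |>.trans (if_pos (Finset.mem_univ _))
  intro ν
  rw [hF, coeff_add]
  have h6 : HasValueAtZero (coeff ν (∑ i : IC m, (if wt i.2 < wt (one m) then
        C (x ^ (wt (one m) - wt i.2) * algebraMap k (RatFunc k) (α ⟨m, Sum.inl i⟩)) * mon a i.1 else 0))) 0 := by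
    rw [coeff_sum]
    apply hv_sum
    intro i _
    split_ifs with hb
    · rw [coeff_C_mul]
      have h7 := hN (N * (wt (one m) - wt i.2)) (Nat.le_mul_of_pos_right _ (by omega)) i.1 ν
      have h8 := HasValueAtZero.mul (hv_const (α ⟨m, Sum.inl i⟩)) h7
      rw [mul_zero] at h8
      have h9 : x ^ (wt (one m) - wt i.2) * algebraMap k (RatFunc k) (α ⟨m, Sum.inl i⟩) * coeff ν (mon a i.1) =
          algebraMap k (RatFunc k) (α ⟨m, Sum.inl i⟩) *
            (RatFunc.X ^ (N * (wt (one m) - wt i.2)) * coeff ν (mon a i.1)) := by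
        show (Y ^ N) ^ (wt (one m) - wt i.2) * _ * _ = _
        rw [← pow_mul]
        show Y ^ _ * _ * _ = _ * (Y ^ _ * _)
        ring
      rw [h9]
      exact h8
    · rw [coeff_zero]
      exact hv_zero
  have h10 := HasValueAtZero.add (hf ν) h6
  rwa [add_zero] at h10

theorem totalDegree_hpoly_le (α : (Σ m, Ind m) → k) (n : ℕ) : (hpoly α n).totalDegree ≤ 3 * n := by
  unfold hpoly
  refine totalDegree_finsetSum_le ?_
  intro i _
  refine (totalDegree_mul _ _).trans ?_
  rw [totalDegree_C, zero_add]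
  refine (totalDegree_mul _ _).trans ?_
  have h1 := totalDegree_mon_le 1 (le_refl _) (fun j => (X (Fin.castAdd n j) : MvPolynomial (Fin (n + n)) k))
    (fun j => totalDegree_X_le _) i.1
  have h2 := totalDegree_mon_le 2 (le_refl _) (fun j => (X (Fin.natAdd n j) : MvPolynomial (Fin (n + n)) k))
    (fun j => totalDegree_X_le _) i.2
  omega

theorem L_hpoly_le (α : (Σ m, Ind m) → k) (u : ∀ m, (Fin (W m) → Fin (W m + 1)) → k) (n : ℕ) :
    L (orc α u) (hpoly α n) ≤ 2 * NV n + 3 := by
  classical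
  let p : k → Var n → MvPolynomial (Fin (n + n)) k := fun w => Sum.elim (fun _ => C 0)
    (Sum.elim (fun j => X (Fin.castAdd n j)) (Sum.elim (fun j => X (Fin.natAdd n j)) fun _ => C w))
  have hp : ∀ w l v, Avail l (p w v) := by
    rintro w l (v | v | v | v)
    · exact Or.inl ⟨0, rfl⟩
    · exact Or.inr (Or.inl ⟨_, rfl⟩)
    · exact Or.inr (Or.inl ⟨_, rfl⟩)
    · exact Or.inl ⟨w, rfl⟩
  obtain ⟨g, hg⟩ : ∃ g : k → MvPolynomial (Fin (n + n)) k,
    ∀ w, g w = aeval (Function.extend (emb n) (p w) fun _ => C 0) ((orc α u).poly n) := ⟨_, fun _ => rfl⟩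
  have h1 : Comp (orc α u) (0 + (NV n + 1)) [g 0] := by
    rw [hg]
    exact Comp.oracle (G := orc α u) n _ Comp.nil (gate_avail n (p 0) (hp 0 _))
  have h2 : Comp (orc α u) (0 + (NV n + 1) + (NV n + 1)) [g 1, g 0] := by
    rw [hg 1]
    exact Comp.oracle (G := orc α u) n _ h1 (gate_avail n (p 1) (hp 1 _))
  have h3 : Comp (orc α u) (0 + (NV n + 1) + (NV n + 1) + 1) [g 1 - g 0, g 1, g 0] :=
    Comp.sub h2 (Or.inr (Or.inr (by simp))) (Or.inr (Or.inr (by simp)))
  have h4 : g 1 - g 0 = hpoly α n := by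
    rw [hg, hg, gate_value, gate_value, Fintype.sum_sum_type, Fintype.sum_sum_type]
    have e1 : ∀ i : IC n, me (p 1) (Sum.inl i) = me (p 0) (Sum.inl i) := fun i => rfl
    have e2 : ∀ i : IH n, me (p 0) (Sum.inr i) = 0 := by
      rintro ⟨e, b⟩
      show pw (p 0) * _ = 0
      have : pw (p 0) = 0 := by
        show (C 0 : MvPolynomial (Fin (n + n)) k) = 0
        exact C_0
      rw [this, zero_mul]
    have e3 : ∀ i : IH n, me (p 1) (Sum.inr i) =
        mon (fun j => X (Fin.castAdd n j)) i.1 * mon (fun j => X (Fin.natAdd n j)) i.2 := by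
      rintro ⟨e, b⟩
      show pw (p 1) * (mon (px (p 1)) e * mon (py (p 1)) b) = _
      have : pw (p 1) = 1 := by
        show (C 1 : MvPolynomial (Fin (n + n)) k) = 1
        exact C_1
      rw [this, one_mul]
      rfl
    simp only [e1, e2, e3, mul_zero, Finset.sum_const_zero, add_zero, add_sub_cancel_left]
    rfl
  rw [h4] at h3
  have h5 : 0 + (NV n + 1) + (NV n + 1) + 1 = 2 * NV n + 3 := by ring
  rw [h5] at h3
  exact L_le ⟨_, h3, Or.inr (Or.inr List.mem_cons_self)⟩

theorem fam_mem_VNP (α : (Σ m, Ind m) → k) (u : ∀ m, (Fin (W m) → Fin (W m + 1)) → k) :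
    fam α ∈ VNP (orc α u) := by
  refine ⟨fun n => n, fun n => hpoly α n, pbounded_of_le 1 fun n => by omega,
    pbounded_of_le 3 fun n => totalDegree_hpoly_le α n, ?_, fun n => rfl⟩
  obtain ⟨q, hq⟩ := NV_bdd (t := NV) fun n => le_rfl
  refine ⟨2 * q + 3, fun n => (L_hpoly_le α u n).trans ?_⟩
  have h1 := hq n
  have h2 : (2 * q + 3).eval n = 2 * q.eval n + 3 := by simp
  rw [h2]
  omega

end Pool.Agent.VPN
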