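import Pool.Agent.VPE.Final
import Pool.Agent.VPO.Final
import Pool.Agent.VPN.LowerD
import Pool.Agent.VPN.StepN
import Pool.Agent.VPN.UpperN

/-!
# The oracle with closure of `VP` equal to the closure of `VNP`, and `VP ≠ VNP`
-/

set_option autoImplicit false

open MvPolynomial Pool.Agent.VPO

namespace Pool.Agent.VPN

variable {k : Type} [Field k]

/-! ### Generalities on exponential sums -/

theorem bsum_zero {F : Type} [Field F] {n : ℕ} (f : MvPolynomial (Fin (n + 0)) F) : bsum f = f := by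
  unfold bsum
  rw [Fintype.sum_unique]
  have h : ∀ c : Fin 0 → MvPolynomial (Fin n) F, Fin.append (X : Fin n → MvPolynomial (Fin n) F) c = X := by
    intro c
    funext i
    exact Fin.append_left (X : Fin n → MvPolynomial (Fin n) F) _ i
  refine (congrArg (fun x : Fin (n + 0) → MvPolynomial (Fin n) F => aeval x f) (h _)).trans ?_
  exact aeval_X_left_apply f

theorem sumComputedBy_L (G : PFamily k) {F : Type} [Field F] [Algebra k F] {n : ℕ} (f : MvPolynomial (Fin n) F) :
    SumComputedBy G f (L G f) :=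
  ⟨0, f, Nat.zero_le _, le_rfl, (bsum_zero f).symm⟩

theorem SumComputedBy.mono {G : PFamily k} {F : Type} [Field F] [Algebra k F] {n : ℕ} {f : MvPolynomial (Fin n) F}
    {r r' : ℕ} (h : SumComputedBy G f r) (hr : r ≤ r') : SumComputedBy G f r' := by
  obtain ⟨u, g, h1, h2, h3⟩ := h
  exact ⟨u, g, h1.trans hr, h2.trans hr, h3⟩

theorem sumComputedBy_LN (G : PFamily k) {F : Type} [Field F] [Algebra k F] {n : ℕ} (f : MvPolynomial (Fin n) F) :
    SumComputedBy G f (LN G f) :=
  Nat.sInf_mem (s := {r | SumComputedBy G f r}) ⟨_, sumComputedBy_L G f⟩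

theorem LN_le {G : PFamily k} {F : Type} [Field F] [Algebra k F] {n : ℕ} {f : MvPolynomial (Fin n) F} {r : ℕ}
    (h : SumComputedBy G f r) : LN G f ≤ r := Nat.sInf_le h

theorem LNapp_le {G : PFamily k} {n : ℕ} {f : MvPolynomial (Fin n) k} {F : MvPolynomial (Fin n) (RatFunc k)} {r : ℕ}
    (h : ∀ m, HasValueAtZero (coeff m F) (coeff m f)) (hF : SumComputedBy G F r) : LNapp G f ≤ r :=
  (Nat.sInf_le (⟨F, h, rfl⟩ : LN G F ∈ {r | ∃ F : MvPolynomial (Fin n) (RatFunc k),
    (∀ m, HasValueAtZero (coeff m F) (coeff m f)) ∧ LN G F = r})).trans (LN_le hF)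

theorem hasValue_map {n : ℕ} (f : MvPolynomial (Fin n) k) (m : Fin n →₀ ℕ) :
    HasValueAtZero (coeff m (MvPolynomial.map (algebraMap k (RatFunc k)) f)) (coeff m f) := by
  rw [coeff_map]
  have h1 := hasValueAtZero_algebraMap (Polynomial.C (coeff m f))
  rw [Polynomial.eval_C] at h1
  exact h1

theorem exists_LNapp (G : PFamily k) {n : ℕ} (f : MvPolynomial (Fin n) k) :
    ∃ F : MvPolynomial (Fin n) (RatFunc k), (∀ ν, HasValueAtZero (coeff ν F) (coeff ν f)) ∧
      SumComputedBy G F (LNapp G f) := by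
  have hne : {r | ∃ F : MvPolynomial (Fin n) (RatFunc k),
      (∀ m, HasValueAtZero (coeff m F) (coeff m f)) ∧ LN G F = r}.Nonempty :=
    ⟨_, MvPolynomial.map (algebraMap k (RatFunc k)) f, hasValue_map f, rfl⟩
  obtain ⟨F, h1, h2⟩ := Nat.sInf_mem hne
  refine ⟨F, h1, ?_⟩
  have h3 := sumComputedBy_LN G F
  rw [h2] at h3
  exact h3

theorem LNapp_le_Lapp (G : PFamily k) {n : ℕ} (f : MvPolynomial (Fin n) k) : LNapp G f ≤ Lapp G f := by
  obtain ⟨F, h1, h2⟩ := VPE.exists_Lapp G f
  exact LNapp_le h1 ((sumComputedBy_L G F).mono (L_le h2))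

theorem map_bsum {F F' : Type} [Field F] [Field F'] (φ : F →+* F') {n u : ℕ} (g : MvPolynomial (Fin (n + u)) F) :
    MvPolynomial.map φ (bsum g) = bsum (MvPolynomial.map φ g) := by
  unfold bsum
  rw [map_sum]
  apply Finset.sum_congr rfl
  intro e _
  have h : ∀ p : MvPolynomial (Fin (n + u)) F, MvPolynomial.map φ (aeval (Fin.append (X : Fin n → MvPolynomial (Fin n) F)
      fun j => C ((e j : ℕ) : F)) p) = aeval (Fin.append (X : Fin n → MvPolynomial (Fin n) F')
      fun j => C ((e j : ℕ) : F')) (MvPolynomial.map φ p) := by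
    intro p
    induction p using MvPolynomial.induction_on with
    | C a => simp [algebraMap_eq]
    | add p q hp hq => simp only [map_add, hp, hq]
    | mul_X p i hp =>
      simp only [map_mul, hp, map_X, aeval_X]
      congr 1
      refine Fin.addCases (fun j => ?_) (fun j => ?_) i
      · rw [Fin.append_left, Fin.append_left, map_X]
      · rw [Fin.append_right, Fin.append_right, map_C, map_natCast]
  exact h g

theorem LNapp_le_of_sum (G : PFamily k) {n u r : ℕ} (g : MvPolynomial (Fin (n + u)) k) (hu : u ≤ r) (hg : L G g ≤ r) :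
    LNapp G (bsum g) ≤ r := by
  refine LNapp_le (F := MvPolynomial.map (algebraMap k (RatFunc k)) (bsum g)) (hasValue_map _)
    ⟨u, MvPolynomial.map (algebraMap k (RatFunc k)) g, hu, ?_, map_bsum _ g⟩
  obtain ⟨l, h1, h2⟩ := computedBy_L G g
  exact (L_le ⟨_, h1.map, h2.map _⟩).trans hg

theorem VP_subset_VNP (G : PFamily k) : VP G ⊆ VNP G := by
  intro f hf
  refine ⟨fun _ => 0, fun n => f.poly n, ⟨0, fun n => Nat.zero_le _⟩, f.deg_bdd, hf, fun n => (bsum_zero _).symm⟩

theorem VNP_subset_VNPbar (G : PFamily k) : VNP G ⊆ VNPbar G := by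
  rintro f ⟨u, g, ⟨p1, hp1⟩, _, ⟨p2, hp2⟩, hf⟩
  refine ⟨p1 + p2, fun n => ?_⟩
  show LNapp G (f.poly n) ≤ _
  rw [hf n, Polynomial.eval_add]
  exact LNapp_le_of_sum G (g n) ((hp1 n).trans (Nat.le_add_right _ _)) ((hp2 n).trans (Nat.le_add_left _ _))

theorem VPbar_subset_VNPbar (G : PFamily k) : VPbar G ⊆ VNPbar G := by
  rintro f ⟨p, hp⟩
  exact ⟨p, fun n => (LNapp_le_Lapp G _).trans (hp n)⟩

/-! ### The recursion -/

/-- exponents as a finitely supported function -/
noncomputable def exW {W : ℕ} (ξ : Fin W → Fin (W + 1)) : Fin W →₀ ℕ :=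
  Finsupp.equivFunOnFinite.symm fun v => (ξ v : ℕ)

theorem exW_apply {W : ℕ} (ξ : Fin W → Fin (W + 1)) (v : Fin W) : exW ξ v = (ξ v : ℕ) := rfl

theorem exW_inj {W : ℕ} : Function.Injective (exW : (Fin W → Fin (W + 1)) → (Fin W →₀ ℕ)) := by
  intro j j' h
  funext i
  apply Fin.ext
  rw [← exW_apply, ← exW_apply, h]

theorem sum_exW {W : ℕ} {F : Type} [Field F] (g : MvPolynomial (Fin W) F) (hg : g.totalDegree ≤ W) :
    ∑ ξ : Fin W → Fin (W + 1), monomial (exW ξ) (coeff (exW ξ) g) = g := by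
  classical
  ext ν
  rw [coeff_sum]
  simp only [coeff_monomial]
  by_cases h : ∃ j, exW j = ν
  · obtain ⟨j, rfl⟩ := h
    rw [Finset.sum_eq_single j]
    · rw [if_pos rfl]
    · intro j' _ hj'
      rw [if_neg (fun h => hj' (exW_inj h))]
    · intro h; exact absurd (Finset.mem_univ _) h
  · have h0 : coeff ν g = 0 := by
      by_contra h1
      apply h
      have h2 : ν ∈ g.support := mem_support_iff.2 h1
      have h3 : ν.sum (fun _ x => x) ≤ W := (le_totalDegree h2).trans hg
      rw [Finsupp.sum_fintype _ _ (fun _ => rfl)] at h3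
      have h4 : ∀ i, ν i < W + 1 := fun i =>
        Nat.lt_succ_of_le ((Finset.single_le_sum (f := fun i => ν i) (fun _ _ => Nat.zero_le _)
          (Finset.mem_univ i)).trans h3)
      refine ⟨fun i => ⟨ν i, h4 i⟩, ?_⟩
      ext i
      rw [exW_apply]
    rw [h0]
    exact Finset.sum_eq_zero fun j _ => if_neg (fun h' => h ⟨j, h'⟩)

theorem aeval_eq_sum {W : ℕ} {B : Type} [CommRing B] [Algebra k B] (g : MvPolynomial (Fin W) k) (hg : g.totalDegree ≤ W)
    (a : Fin W → B) : aeval a g = ∑ ξ : Fin W → Fin (W + 1), algebraMap k B (coeff (exW ξ) g) * mon a ξ := by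
  conv_lhs => rw [← sum_exW g hg]
  rw [map_sum]
  apply Finset.sum_congr rfl
  intro ξ _
  rw [aeval_monomial]
  congr 1
  unfold mon
  rw [Finsupp.prod_fintype _ _ fun i => pow_zero _]
  rfl

theorem cc_congr (α : (Σ m, Ind m) → k) {u u' : ∀ m, (Fin (W m) → Fin (W m + 1)) → k} {m : ℕ} (h : u m = u' m) :
    cc α u m = cc α u' m := by
  funext i
  rcases i with ⟨ξ, b⟩ | i
  · unfold cc
    dsimp only
    rw [h]
  · rfl

theorem comp_congr (α : (Σ m, Ind m) → k) {u u' : ∀ m, (Fin (W m) → Fin (W m + 1)) → k} {m : ℕ}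
    (h : ∀ j < m, u j = u' j) {F : Type} [Field F] [Algebra k F] {n r : ℕ} {l : List (MvPolynomial (Fin n) F)}
    (hc : Comp (orc α u) r l) (hr : r ≤ m) : Comp (orc α u') r l := by
  induction hc with
  | nil => exact Comp.nil
  | add _ hp hq ih => exact Comp.add (ih (by omega)) hp hq
  | sub _ hp hq ih => exact Comp.sub (ih (by omega)) hp hq
  | mul _ hp hq ih => exact Comp.mul (ih (by omega)) hp hq
  | oracle i a _ ha ih =>
    have hv : (orc α u).vars i = NV i := rfl
    rw [hv] at hr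
    have hi : i < m := by
      have := le_NV i
      omega
    have e : (orc α u).poly i = (orc α u').poly i := by
      show rename (emb i) (qpoly (cc α u i)) = rename (emb i) (qpoly (cc α u' i))
      rw [cc_congr α (h i hi)]
    rw [e]
    exact Comp.oracle (G := orc α u') i a (ih (by omega)) ha

theorem sumComputedBy_congr (α : (Σ m, Ind m) → k) {u u' : ∀ m, (Fin (W m) → Fin (W m + 1)) → k} {m : ℕ}
    (h : ∀ j < m, u j = u' j) {F : Type} [Field F] [Algebra k F] {n : ℕ} {f : MvPolynomial (Fin n) F}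
    (hf : SumComputedBy (orc α u) f m) : SumComputedBy (orc α u') f m := by
  obtain ⟨d, g, h1, h2, h3⟩ := hf
  obtain ⟨l, h4, h5⟩ := computedBy_L (orc α u) g
  exact ⟨d, g, h1, (L_le ⟨l, comp_congr α h h4 h2, h5⟩).trans h2, h3⟩

theorem map_qpoly {A B : Type} [CommRing A] [CommRing B] (φ : A →+* B) {m : ℕ} (c : Ind m → A) :
    MvPolynomial.map φ (qpoly c) = qpoly fun i => φ (c i) := by
  unfold qpoly
  rw [map_sum]
  apply Finset.sum_congr rfl
  intro i _
  rw [map_mul, map_C, map_me]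
  simp only [map_X]

theorem coeff_poly_mem (A : Subring k) {m : ℕ} (c : Ind m → k) (hc : ∀ i, c i ∈ A) (ν : Fin (NV m) →₀ ℕ) :
    coeff ν (rename (emb m) (qpoly c)) ∈ A := by
  have h : rename (emb m) (qpoly c) = MvPolynomial.map A.subtype (rename (emb m) (qpoly fun i => (⟨c i, hc i⟩ : A))) := by
    rw [map_rename, map_qpoly]
    rfl
  rw [h, coeff_map]
  exact (coeff ν (rename (emb m) (qpoly fun i => (⟨c i, hc i⟩ : A)))).2

theorem exists_u (α : (Σ m, Ind m) → k) : ∃ u : ∀ m, (Fin (W m) → Fin (W m + 1)) → k,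
    (∀ (m : ℕ) (A : Subring k), (∀ j < m, ∀ i, Frm j i → α ⟨j, i⟩ ∈ A) → ∀ ξ, u m ξ ∈ A) ∧
    ∀ (m : ℕ) (F : Type) [Field F] [Algebra k F] (n : ℕ) (hn : n ≤ m) (f : MvPolynomial (Fin n) F),
      SumComputedBy (orc α u) f m → ∃ a : Fin (W m) → MvPolynomial (Fin m) F, (∀ i, Avail [] (a i)) ∧
        ∑ ξ : Fin (W m) → Fin (W m + 1), C (algebraMap k F (u m ξ)) * mon a ξ =
          ∑ j : Fin m → Fin (m + 1), monomial (ex m j) (coeff (ex m j) (rename (Fin.castLE hn) f)) := by
  obtain ⟨u, hu⟩ := VPE.exists_seq (α := fun m => (Fin (W m) → Fin (W m + 1)) → k)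
    (fun m prev g =>
      (∀ A : Subring k, (∀ i, NV i < m → ∀ ν, coeff ν ((orc α fun j => if h : j < m then prev j h else 0).poly i) ∈ A) →
        ∀ ξ, g ξ ∈ A) ∧
      ∀ (F : Type) [Field F] [Algebra k F] (n : ℕ) (hn : n ≤ m) (f : MvPolynomial (Fin n) F),
        SumComputedBy (orc α fun j => if h : j < m then prev j h else 0) f m →
        ∃ a : Fin (W m) → MvPolynomial (Fin m) F, (∀ i, Avail [] (a i)) ∧
          ∑ ξ : Fin (W m) → Fin (W m + 1), C (algebraMap k F (g ξ)) * mon a ξ =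
            ∑ j : Fin m → Fin (m + 1), monomial (ex m j) (coeff (ex m j) (rename (Fin.castLE hn) f)))
    (by
      intro m prev
      obtain ⟨g, h1, h2, h3⟩ := stepN (orc α fun j => if h : j < m then prev j h else 0) le_NV m (by
        intro i hi
        have hi' : NV i < m := hi
        exact ((totalDegree_rename_le _ _).trans (totalDegree_qpoly_le _)).trans hi'.le)
      refine ⟨fun ξ => coeff (exW ξ) g, fun A hA ξ => h2 A hA _, ?_⟩
      intro F _ _ n hn f hf
      obtain ⟨a, ha1, ha2⟩ := h3 F n hn f hf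
      refine ⟨a, ha1, ?_⟩
      rw [← ha2, aeval_eq_sum g h1]
      rfl)
  have hcongr : ∀ m, ∀ j < m, u j = (fun j => if _ : j < m then u j else 0) j := by
    intro m j hj
    show u j = if _ : j < m then u j else 0
    rw [dif_pos hj]
  refine ⟨u, ?_, ?_⟩
  · intro m
    induction m using Nat.strong_induction_on with
    | _ m ih =>
      intro A hA
      refine (hu m).1 A fun i hi ν => ?_
      have him : i < m := lt_of_le_of_lt (le_NV i) hi
      have h1 : cc α (fun j => if _ : j < m then u j else 0) i = cc α u i := cc_congr α (hcongr m i him).symm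
      refine coeff_poly_mem A _ (fun x => ?_) ν
      rw [h1]
      have h2 := ih i him A fun j hj => hA j (hj.trans him)
      rcases x with ⟨ξ, b⟩ | x
      · unfold cc
        dsimp only
        split_ifs with h3 h4
        · exact hA i him _ h3
        · exact h2 ξ
        · exact zero_mem _
      · exact hA i him _ trivial
  · intro m F _ _ n hn f hf
    exact (hu m).2 F n hn f (sumComputedBy_congr α (hcongr m) hf)

/-! ### The closure -/

theorem Lapp_le_of_LNapp (α : (Σ m, Ind m) → k) (u : ∀ m, (Fin (W m) → Fin (W m + 1)) → k)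
    (hu : ∀ (m : ℕ) (F : Type) [Field F] [Algebra k F] (n : ℕ) (hn : n ≤ m) (f : MvPolynomial (Fin n) F),
      SumComputedBy (orc α u) f m → ∃ a : Fin (W m) → MvPolynomial (Fin m) F, (∀ i, Avail [] (a i)) ∧
        ∑ ξ : Fin (W m) → Fin (W m + 1), C (algebraMap k F (u m ξ)) * mon a ξ =
          ∑ j : Fin m → Fin (m + 1), monomial (ex m j) (coeff (ex m j) (rename (Fin.castLE hn) f)))
    {s n : ℕ} (f : MvPolynomial (Fin n) k) (hn : n ≤ s) (hf : f.totalDegree ≤ s) (hL : LNapp (orc α u) f ≤ s) :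
    Lapp (orc α u) f ≤ NV s + 2 := by
  classical
  obtain ⟨F, h1, h2⟩ := exists_LNapp (orc α u) f
  obtain ⟨a, ha1, ha2⟩ := hu s (RatFunc k) n hn F (h2.mono hL)
  refine (Lapp_castLE _ hn f).trans (border α u s a ha1 _ fun ν => ?_)
  rw [ha2]
  simp only [show ∀ j : Fin s → Fin (s + 1), ex s j = exW j from fun _ => rfl]
  have hval : ∀ ν, HasValueAtZero (coeff ν (rename (Fin.castLE hn) F)) (coeff ν (rename (Fin.castLE hn) f)) := by
    intro ν
    by_cases h : ∃ u : Fin n →₀ ℕ, u.mapDomain (Fin.castLE hn) = ν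
    · obtain ⟨u, rfl⟩ := h
      rw [coeff_rename_mapDomain _ (Fin.castLE_injective hn), coeff_rename_mapDomain _ (Fin.castLE_injective hn)]
      exact h1 u
    · have e1 : coeff ν (rename (Fin.castLE hn) F) = 0 :=
        coeff_rename_eq_zero _ F ν fun u hu => absurd ⟨u, hu⟩ h
      have e2 : coeff ν (rename (Fin.castLE hn) f) = 0 :=
        coeff_rename_eq_zero _ f ν fun u hu => absurd ⟨u, hu⟩ h
      rw [e1, e2]
      have h := hasValueAtZero_algebraMap (0 : Polynomial k)
      rw [map_zero, Polynomial.eval_zero] at h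
      exact h
  rw [coeff_sum]
  simp only [coeff_monomial]
  by_cases h : ∃ j, exW j = ν
  · obtain ⟨j, rfl⟩ := h
    rw [Finset.sum_eq_single j]
    · rw [if_pos rfl]
      exact hval _
    · intro j' _ hj'
      rw [if_neg (fun h => hj' (exW_inj h))]
    · intro h; exact absurd (Finset.mem_univ _) h
  · rw [Finset.sum_eq_zero fun j _ => if_neg (fun h' => h ⟨j, h'⟩)]
    have h0 : coeff ν (rename (Fin.castLE hn) f) = 0 := by
      by_contra h1
      apply h
      have h2 : ν ∈ (rename (Fin.castLE hn) f).support := mem_support_iff.2 h1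
      have h3 : ν.sum (fun _ x => x) ≤ s :=
        (le_totalDegree h2).trans ((totalDegree_rename_le _ _).trans hf)
      rw [Finsupp.sum_fintype _ _ (fun _ => rfl)] at h3
      have h4 : ∀ i, ν i < s + 1 := fun i =>
        Nat.lt_succ_of_le ((Finset.single_le_sum (f := fun i => ν i) (fun _ _ => Nat.zero_le _)
          (Finset.mem_univ i)).trans h3)
      refine ⟨fun i => ⟨ν i, h4 i⟩, ?_⟩
      ext i
      rw [exW_apply]
    rw [h0]
    have h := hasValueAtZero_algebraMap (0 : Polynomial k)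
    rw [map_zero, Polynomial.eval_zero] at h
    exact h

theorem VNPbar_eq_of_bound {G : PFamily k}
    (h : ∀ (s n : ℕ) (f : MvPolynomial (Fin n) k), n ≤ s → f.totalDegree ≤ s → LNapp G f ≤ s →
        Lapp G f ≤ NV s + 2) : VNPbar G = VPbar G := by
  apply Set.Subset.antisymm _ (VPbar_subset_VNPbar G)
  rintro f ⟨p1, hp1⟩
  obtain ⟨p2, hp2⟩ := f.vars_bdd
  obtain ⟨p3, hp3⟩ := f.deg_bdd
  refine ⟨(32 * (p1 + p2 + p3 + 2) ^ 8) * (32 * (p1 + p2 + p3 + 2) ^ 8) + 2 * (p1 + p2 + p3) + 1 + 2, fun n => ?_⟩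
  obtain ⟨m, hm⟩ : ∃ m, m = (p1 + p2 + p3).eval n := ⟨_, rfl⟩
  have hm' : m = p1.eval n + p2.eval n + p3.eval n := by rw [hm]; simp
  have h1 : LNapp G (f.poly n) ≤ m := (hp1 n).trans (by omega)
  have h2 : f.vars n ≤ m := (hp2 n).trans (by omega)
  have h3 : (f.poly n).totalDegree ≤ m := (hp3 n).trans (by omega)
  have h6 : NV m + 2 = ((32 * (p1 + p2 + p3 + 2) ^ 8) * (32 * (p1 + p2 + p3 + 2) ^ 8) + 2 * (p1 + p2 + p3) + 1 + 2 :
      Polynomial ℕ).eval n := by
    unfold NV W
    rw [hm]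
    simp
  rw [← h6]
  exact h m (f.vars n) (f.poly n) h2 h3 h1

theorem main (k : Type) [Field k]
    (hk : Uncountable k ∨ ∃ (K0 : Subfield k) (x : ℕ → k), AlgebraicIndependent K0 x) :
    ∃ G f : PFamily k,
      (∀ n, G.vars n = NV n ∧ (G.poly n).totalDegree ≤ NV n ∧ f.vars n = n ∧ (f.poly n).totalDegree ≤ n) ∧
      f ∈ VNP G ∧
      (∀ n, 2 ^ n < 2 * (L G (f.poly n) + 1) ^ 2) ∧
      ∀ (s n : ℕ) (g : MvPolynomial (Fin n) k), n ≤ s → g.totalDegree ≤ s → LNapp G g ≤ s →
        Lapp G g ≤ NV s + 2 := by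
  have key : ∃ (K0 : Subfield k) (α : (Σ m, Ind m) → k), AlgebraicIndependent K0 α := by
    rcases hk with hk | ⟨K0, x, hx⟩
    · obtain ⟨α, hα⟩ := exists_algebraicIndependent k (Σ m, Ind m)
      exact ⟨_, α, hα⟩
    · obtain ⟨g, hg⟩ := exists_injective_nat (Σ m, Ind m)
      exact ⟨K0, x ∘ g, hx.comp g hg⟩
  obtain ⟨K0, α, hα⟩ := key
  obtain ⟨u, hu1, hu2⟩ := exists_u α
  refine ⟨orc α u, fam α, fun n => ⟨rfl, ?_, rfl, totalDegree_bsum_hpoly_le α n⟩, fam_mem_VNP α u, fun n => ?_, ?_⟩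
  · exact (totalDegree_rename_le _ _).trans (totalDegree_qpoly_le _)
  · refine separation_boundN hα (fun m E hE ξ => ?_) n
    exact hu1 m E.toSubalgebra.toSubring hE ξ
  · intro s n g hn hg hL
    exact Lapp_le_of_LNapp α u hu2 g hn hg hL

end Pool.Agent.VPN
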