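import Pool.Agent.VPN.Orc

/-!
# The lower bound, first part: the run of a program
-/

set_option autoImplicit false

open Finset Pool.Agent.VPO

namespace Pool.Agent.VPN

variable {K0 k : Type} [Field K0] [Field k] [Algebra K0 k] {n R : ℕ}

/-- the indices of the coefficients of the oracle polynomials of level `n, ..., n + R - 1` -/
abbrev Ii (n R : ℕ) : Type := Σ t : Fin R, Ind (n + t)

/-- a level and a point for every level (only the one for that level matters) -/
abbrev Nd (k : Type) (R : ℕ) : Type := Fin R × (∀ m, Var m → k)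

/-- the value of the oracle polynomial of level `m` at `p` as a linear form in its coefficients -/
def evp {m : ℕ} (p : Var m → k) : Ind m → k
  | Sum.inl (ξ, b) => if wt b ≤ wt (one m) then me p (Sum.inl (ξ, b)) else 0
  | Sum.inr i => me p (Sum.inr i)

/-- the linear form of a node -/
def nf (n : ℕ) (q : Nd k R) : Ii n R → k := fun i => if i.1 = q.1 then evp (q.2 (n + i.1)) i.2 else 0

/-- the coefficients of level `n, ..., n + R - 1` -/
noncomputable def cv (α : (Σ m, Ind m) → k) (u : ∀ m, (Fin (W m) → Fin (W m + 1)) → k) (n R : ℕ) : Ii n R → k :=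
  fun i => cc α u (n + i.1) i.2

theorem cc_evp (α : (Σ m, Ind m) → k) (u : ∀ m, (Fin (W m) → Fin (W m + 1)) → k) {m : ℕ} (p : Var m → k)
    (i : Ind m) : cc α u m i * me p i = evp p i * cc α u m i := by
  rcases i with ⟨ξ, b⟩ | i
  · unfold evp cc
    dsimp only
    by_cases h1 : wt b < wt (one m)
    · rw [if_pos h1, if_pos h1.le, mul_comm]
    · rw [if_neg h1]
      by_cases h2 : b = one m
      · rw [if_pos h2, if_pos (by rw [h2]), mul_comm]
      · rw [if_neg h2, zero_mul, mul_zero]
  · exact mul_comm _ _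

theorem eval_orc (α : (Σ m, Ind m) → k) (u : ∀ m, (Fin (W m) → Fin (W m + 1)) → k) {d m : ℕ}
    (a : Fin (NV m) → MvPolynomial (Fin d) k) (z : Fin d → k) :
    MvPolynomial.eval z (MvPolynomial.aeval a ((orc α u).poly m)) =
      ∑ i : Ind m, evp (fun v => MvPolynomial.eval z (a (emb m v))) i * cc α u m i := by
  have h1 : MvPolynomial.aeval a ((orc α u).poly m) =
      MvPolynomial.aeval (a ∘ emb m) (qpoly (cc α u m)) := MvPolynomial.aeval_rename _ _ _
  rw [h1, aeval_qpoly, map_sum]
  apply sum_congr rfl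
  intro i _
  rw [map_mul, MvPolynomial.algebraMap_eq, MvPolynomial.eval_C, map_me, ← cc_evp]
  rfl

theorem me_mem {E : IntermediateField K0 k} {m : ℕ} {p : Var m → k} (hp : ∀ v, p v ∈ E) (i : Ind m) :
    me p i ∈ E := by
  rcases i with ⟨ξ, b⟩ | ⟨e, b⟩
  · exact mul_mem (mon_mem (fun j => hp _) _) (mon_mem (fun j => hp _) _)
  · exact mul_mem (hp _) (mul_mem (mon_mem (fun j => hp _) _) (mon_mem (fun j => hp _) _))

theorem evp_mem {E : IntermediateField K0 k} {m : ℕ} {p : Var m → k} (hp : ∀ v, p v ∈ E) (i : Ind m) :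
    evp p i ∈ E := by
  rcases i with ⟨ξ, b⟩ | i
  · unfold evp
    dsimp only
    split_ifs
    · exact me_mem hp _
    · exact zero_mem _
  · show me p (Sum.inr i) ∈ E
    exact me_mem hp _

/-- the state reached after some steps of a program -/
structure StG (K0 : Type) {k : Type} [Field K0] [Field k] [Algebra K0 k] {n : ℕ} {ι Q : Type} [Fintype ι]
    (fm : Q → ι → k) (c : ι → k) (T : Finset (Fin n → Fin 2)) (l : List (MvPolynomial (Fin n) k)) (s : Finset k)
    (P : Finset Q) (b d : ℕ) : Prop where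
  inv : Inv K0 c s (fm '' P) 0 b
  card : P.card ≤ d
  val : ∀ p ∈ l, ∀ β ∈ T, MvPolynomial.eval (bp k β) p ∈ IntermediateField.adjoin K0 (s : Set k)

section

variable {ι Q : Type} [Fintype ι] {fm : Q → ι → k} {c : ι → k} {T : Finset (Fin n → Fin 2)}
  {l : List (MvPolynomial (Fin n) k)} {s : Finset k} {P : Finset Q} {b d : ℕ}

theorem StG.avail (h : StG K0 fm c T l s P b d) {p : MvPolynomial (Fin n) k} (hp : Avail l p) :
    ∃ s', s ⊆ s' ∧ StG K0 fm c T l s' P (b + 1) d ∧
      ∀ β ∈ T, MvPolynomial.eval (bp k β) p ∈ IntermediateField.adjoin K0 (s' : Set k) := by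
  have key : ∀ x : k, ∃ s', s ⊆ s' ∧ x ∈ IntermediateField.adjoin K0 (s' : Set k) ∧
      StG K0 fm c T l s' P (b + 1) d := by
    intro x
    obtain ⟨s', h1, h2, h3⟩ := h.inv.const x
    exact ⟨s', h1, h2, h3, h.card, fun p hp β hβ => adj_mono h1 (h.val p hp β hβ)⟩
  rcases hp with ⟨x, rfl⟩ | ⟨i, rfl⟩ | hp
  · obtain ⟨s', h1, h2, h3⟩ := key x
    refine ⟨s', h1, h3, fun β _ => ?_⟩
    rw [MvPolynomial.eval_C]
    exact h2
  · obtain ⟨s', h1, h2, h3⟩ := key 0
    refine ⟨s', h1, h3, fun β _ => ?_⟩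
    rw [MvPolynomial.eval_X]
    exact bp_mem _ _ _
  · obtain ⟨s', h1, h2, h3⟩ := key 0
    exact ⟨s', h1, h3, fun β hβ => h3.val p hp β hβ⟩

theorem StG.avail_many (h : StG K0 fm c T l s P b d) {q : ℕ} (a : Fin q → MvPolynomial (Fin n) k)
    (ha : ∀ i, Avail l (a i)) (J : Finset (Fin q)) :
    ∃ s', s ⊆ s' ∧ StG K0 fm c T l s' P (b + J.card) d ∧
      ∀ i ∈ J, ∀ β ∈ T, MvPolynomial.eval (bp k β) (a i) ∈ IntermediateField.adjoin K0 (s' : Set k) := by
  classical
  induction J using Finset.induction_on with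
  | empty => exact ⟨s, Subset.refl _, h, fun i hi => absurd hi (notMem_empty i)⟩
  | insert j J hj ih =>
    obtain ⟨s1, h1, h2, h3⟩ := ih
    obtain ⟨s2, h4, h5, h6⟩ := h2.avail (ha j)
    refine ⟨s2, h1.trans h4, ?_, ?_⟩
    · rw [card_insert_of_notMem hj]
      exact h5
    · intro i hi β hβ
      rcases mem_insert.1 hi with rfl | hi
      · exact h6 β hβ
      · exact adj_mono h4 (h3 i hi β hβ)

theorem StG.cons {r : ℕ} (h : StG K0 fm c T l s P b d) {p : MvPolynomial (Fin n) k}
    (hp : ∀ β ∈ T, MvPolynomial.eval (bp k β) p ∈ IntermediateField.adjoin K0 (s : Set k)) (hr : d ≤ r) :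
    StG K0 fm c T (p :: l) s P b r := by
  refine ⟨h.inv, h.card.trans hr, ?_⟩
  intro q hq β hβ
  rcases List.mem_cons.1 hq with rfl | hq
  · exact hp β hβ
  · exact h.val q hq β hβ

theorem StG.two (h : StG K0 fm c T l s P b d) {p q : MvPolynomial (Fin n) k} (hp : Avail l p) (hq : Avail l q) :
    ∃ s', s ⊆ s' ∧ StG K0 fm c T l s' P (b + 2) d ∧
      (∀ β ∈ T, MvPolynomial.eval (bp k β) p ∈ IntermediateField.adjoin K0 (s' : Set k)) ∧
      ∀ β ∈ T, MvPolynomial.eval (bp k β) q ∈ IntermediateField.adjoin K0 (s' : Set k) := by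
  obtain ⟨s1, h1, h2, h3⟩ := h.avail hp
  obtain ⟨s2, h4, h5, h6⟩ := h2.avail hq
  exact ⟨s2, h1.trans h4, h5, fun β hβ => adj_mono h4 (h3 β hβ), h6⟩

end

theorem nf_mem {E : IntermediateField K0 k} (q : Nd k R) (hq : ∀ v, q.2 (n + q.1) v ∈ E) (i : Ii n R) :
    nf n q i ∈ E := by
  unfold nf
  split_ifs with h
  · obtain ⟨t, i⟩ := i
    dsimp only at h ⊢
    subst h
    exact evp_mem hq i
  · exact zero_mem _

theorem sum_nf (α : (Σ m, Ind m) → k) (u : ∀ m, (Fin (W m) → Fin (W m + 1)) → k) (q : Nd k R) :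
    ∑ i, nf n q i * cv α u n R i = ∑ i : Ind (n + q.1), evp (q.2 (n + q.1)) i * cc α u (n + q.1) i := by
  rw [Fintype.sum_sigma, sum_eq_single q.1]
  · apply sum_congr rfl
    intro i _
    unfold nf cv
    rw [if_pos rfl]
  · intro t _ ht
    apply sum_eq_zero
    intro i _
    unfold nf
    rw [if_neg ht, zero_mul]
  · intro h
    exact absurd (mem_univ _) h

theorem main_indN {α : (Σ m, Ind m) → k} {u : ∀ m, (Fin (W m) → Fin (W m + 1)) → k}
    (hα : ∀ m < n, ∀ i : Ind m, ∃ z : K0, algebraMap K0 k z = cc α u m i)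
    {r : ℕ} {l : List (MvPolynomial (Fin n) k)} (hc : Comp (orc α u) r l) (hr : r ≤ R) (T : Finset (Fin n → Fin 2)) :
    ∃ s P, StG K0 (nf n : Nd k R → Ii n R → k) (cv α u n R) T l s P (2 * r) (r * T.card) := by
  classical
  induction hc with
  | nil =>
    refine ⟨∅, ∅, ⟨?_, ?_⟩, ?_, ?_⟩
    · intro v hv
      simp at hv
    · simp
    · simp
    · intro p hp
      simp at hp
  | @add r l p q hc hp hq ih =>
    obtain ⟨s, P, h⟩ := ih (by omega)
    obtain ⟨s', h1, h2, h3, h4⟩ := h.two hp hq
    refine ⟨s', P, h2.cons ?_ (Nat.mul_le_mul_right _ (by omega))⟩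
    intro β hβ
    rw [map_add]
    exact add_mem (h3 β hβ) (h4 β hβ)
  | @sub r l p q hc hp hq ih =>
    obtain ⟨s, P, h⟩ := ih (by omega)
    obtain ⟨s', h1, h2, h3, h4⟩ := h.two hp hq
    refine ⟨s', P, h2.cons ?_ (Nat.mul_le_mul_right _ (by omega))⟩
    intro β hβ
    rw [map_sub]
    exact sub_mem (h3 β hβ) (h4 β hβ)
  | @mul r l p q hc hp hq ih =>
    obtain ⟨s, P, h⟩ := ih (by omega)
    obtain ⟨s', h1, h2, h3, h4⟩ := h.two hp hq
    refine ⟨s', P, h2.cons ?_ (Nat.mul_le_mul_right _ (by omega))⟩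
    intro β hβ
    rw [map_mul]
    exact mul_mem (h3 β hβ) (h4 β hβ)
  | @oracle r l m a hc ha ih =>
    have hvars : (orc α u).vars m = NV m := rfl
    rw [hvars] at hr
    obtain ⟨s, P, h⟩ := ih (by omega)
    obtain ⟨s1, h1, h2, h3⟩ := h.avail_many a ha univ
    have hcard : (univ : Finset (Fin ((orc α u).vars m))).card = NV m := by
      rw [card_univ, Fintype.card_fin]
      rfl
    rw [hcard] at h2
    have hval : ∀ (j : Fin ((orc α u).vars m)), ∀ β ∈ T,
        MvPolynomial.eval (bp k β) (a j) ∈ IntermediateField.adjoin K0 (s1 : Set k) :=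
      fun j β hβ => h3 j (mem_univ _) β hβ
    by_cases hm : n ≤ m
    · obtain ⟨t, rfl⟩ := Nat.exists_eq_add_of_le hm
      have ht : t < R := by
        have := le_NV (n + t)
        omega
      let node : (Fin n → Fin 2) → Nd k R := fun β =>
        (⟨t, ht⟩, Function.update (β := fun m => Var m → k) (fun _ _ => 0) (n + t)
          fun v => MvPolynomial.eval (bp k β) (a (emb (n + t) v)))
      have hnode : ∀ β, (node β).2 (n + (node β).1) = fun v => MvPolynomial.eval (bp k β) (a (emb (n + t) v)) :=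
        fun β => Function.update_self (β := fun m => Var m → k) (n + t)
          (fun v => MvPolynomial.eval (bp k β) (a (emb (n + t) v))) (fun _ _ => 0)
      obtain ⟨s2, h4, h5⟩ := h2.inv.add_many (T.image node) (nf n : Nd k R → Ii n R → k) (by
        intro p hp i
        obtain ⟨β, hβ, rfl⟩ := mem_image.1 hp
        refine nf_mem _ ?_ i
        rw [hnode]
        exact fun v => hval _ β hβ)
      have hU : (nf n : Nd k R → Ii n R → k) '' (P : Set (Nd k R)) ∪ nf n '' ((T.image node : Finset _) : Set _) =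
          (nf n '' ((P ∪ T.image node : Finset _) : Set _) : Set (Ii n R → k)) := by
        rw [coe_union, Set.image_union]
      rw [hU] at h5
      refine ⟨s2, P ∪ T.image node, ⟨⟨h5.rat, ?_⟩, ?_, ?_⟩⟩
      · have h6 := h5.card
        rw [hvars]
        omega
      · have h6 := card_union_le P (T.image node)
        have h7 : (T.image node).card ≤ T.card := card_image_le
        have h8 := h2.card
        rw [hvars]
        calc (P ∪ T.image node).card ≤ r * T.card + T.card := by omega
          _ = (r + 1) * T.card := by ring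
          _ ≤ _ := Nat.mul_le_mul_right _ (by omega)
      · intro q hq β hβ
        rcases List.mem_cons.1 hq with rfl | hq
        · have h6 := (h5.rat (nf n (node β)) (Set.mem_image_of_mem _ (by
            rw [mem_coe, mem_union]
            exact Or.inr (mem_image_of_mem _ hβ)))).2
          have h7 : MvPolynomial.eval (bp k β) (MvPolynomial.aeval a ((orc α u).poly (n + t))) =
              ∑ i, nf n (node β) i * cv α u n R i := by
            refine (eval_orc α u a (bp k β)).trans ?_
            rw [sum_nf, hnode]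
          rw [h7]
          exact h6
        · exact adj_mono h4 (h2.val q hq β hβ)
    · refine ⟨s1, P, ⟨⟨h2.inv.rat, ?_⟩, ?_, ?_⟩⟩
      · have h6 := h2.inv.card
        rw [hvars]
        omega
      · exact h2.card.trans (Nat.mul_le_mul_right _ (by omega))
      · intro q hq β hβ
        rcases List.mem_cons.1 hq with rfl | hq
        · have h7 : MvPolynomial.eval (bp k β) (MvPolynomial.aeval a ((orc α u).poly m)) = _ :=
            eval_orc α u a (bp k β)
          rw [h7]
          refine sum_mem fun i _ => mul_mem (evp_mem (fun v => hval _ β hβ) _) ?_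
          obtain ⟨z, hz⟩ := hα m (by omega) i
          rw [← hz]
          exact IntermediateField.algebraMap_mem _ z
        · exact h2.val q hq β hβ

end Pool.Agent.VPN
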