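import Pool.Agent.VPN.LowerA

/-!
# The lower bound, second part: functionals
-/

set_option autoImplicit false

open Finset Pool.Agent.VPO

namespace Pool.Agent.VPN

variable {k : Type} [Field k]

/-- a polynomial in `y` with exponents at most `2` which vanishes at fewer than `2 ^ m` given points and whose
values at the Boolean points have the sum `1` -/
theorem exists_relH {m : ℕ} (P : Finset (Fin m → k)) (hP : P.card < 2 ^ m) :
    ∃ f : (Fin m → Fin 3) → k, (∀ Y ∈ P, ∑ b, f b * mon Y b = 0) ∧
      ∑ y : Fin m → Fin 2, ∑ b, f b * mon (bp k y) b = 1 := by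
  classical
  let Λ : ((Fin m → Fin 2) → k) →ₗ[k] (P → k) :=
    { toFun := fun c Y => ∑ β, c β * mon (Y : Fin m → k) β
      map_add' := by
        intro c d
        funext Y
        simp only [Pi.add_apply, add_mul, sum_add_distrib]
      map_smul' := by
        intro a c
        funext Y
        simp only [Pi.smul_apply, smul_eq_mul, RingHom.id_apply, mul_sum, mul_assoc] }
  have hker : LinearMap.ker Λ ≠ ⊥ := by
    apply LinearMap.ker_ne_bot_of_finrank_lt
    rw [Module.finrank_fintype_fun_eq_card, Module.finrank_fintype_fun_eq_card]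
    simpa using hP
  obtain ⟨c, hc, hne⟩ := Submodule.exists_mem_ne_zero_of_ne_bot hker
  let U : Matrix (Fin m → Fin 2) (Fin m → Fin 2) k := fun y e => ∏ j, w k (y j) (e j)
  let M : Matrix (Fin m → Fin 2) (Fin m → Fin 2) k := fun e y => mon (bp k y) e
  have hUM : U * M = 1 := by
    ext y0 y
    rw [Matrix.mul_apply]
    have h1 : ∑ e, U y0 e * M e y = if y = y0 then 1 else 0 := by
      rw [← prod_w, ← sum_w]
    rw [h1, Matrix.one_apply]
    by_cases h : y = y0
    · rw [if_pos h, if_pos h.symm]
    · rw [if_neg h, if_neg fun h' => h h'.symm]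
  have hMU : M * U = 1 := mul_eq_one_comm.1 hUM
  obtain ⟨y0, hy0⟩ : ∃ y0, ∑ β, c β * mon (bp k y0) β ≠ 0 := by
    by_contra hcon
    push Not at hcon
    apply hne
    have h1 : Matrix.vecMul c M = 0 := by
      funext y
      exact hcon y
    have h2 : Matrix.vecMul (Matrix.vecMul c M) U = c := by
      rw [Matrix.vecMul_vecMul, hMU, Matrix.vecMul_one]
    rw [← h2, h1, Matrix.zero_vecMul]
  have hlt : ∀ (β e : Fin m → Fin 2) (j : Fin m), (β j : ℕ) + (e j : ℕ) < 3 := by
    intro β e j
    have h1 := (β j).2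
    have h2 := (e j).2
    omega
  let sh : (Fin m → Fin 2) → (Fin m → Fin 2) → (Fin m → Fin 3) := fun β e j => ⟨(β j : ℕ) + (e j : ℕ), hlt β e j⟩
  have hmon : ∀ (Y : Fin m → k) β e, mon Y (sh β e) = mon Y β * mon Y e := by
    intro Y β e
    unfold mon
    rw [← prod_mul_distrib]
    apply prod_congr rfl
    intro j _
    rw [← pow_add]
  have hf : ∀ Y : Fin m → k,
      ∑ b, (∑ β, ∑ e, if sh β e = b then c β * U y0 e / (∑ β, c β * mon (bp k y0) β) else 0) * mon Y b =
        (∑ β, c β * mon Y β) * (∑ e, U y0 e * mon Y e) / (∑ β, c β * mon (bp k y0) β) := by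
    intro Y
    have h1 : ∀ b, (∑ β, ∑ e, if sh β e = b then c β * U y0 e / (∑ β, c β * mon (bp k y0) β) else 0) * mon Y b =
        ∑ β, ∑ e, if sh β e = b then c β * U y0 e / (∑ β, c β * mon (bp k y0) β) * mon Y b else 0 := by
      intro b
      rw [sum_mul]
      apply sum_congr rfl
      intro β _
      rw [sum_mul]
      apply sum_congr rfl
      intro e _
      split_ifs <;> simp
    rw [sum_congr rfl fun b _ => h1 b, sum_comm, sum_mul_sum, sum_div]
    apply sum_congr rfl
    intro β _
    rw [sum_comm, sum_div]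
    apply sum_congr rfl
    intro e _
    rw [sum_ite_eq, if_pos (mem_univ _), hmon]
    ring
  refine ⟨fun b => ∑ β, ∑ e, if sh β e = b then c β * U y0 e / (∑ β, c β * mon (bp k y0) β) else 0, ?_, ?_⟩
  · intro Y hY
    rw [hf Y]
    have h0 : ∑ β, c β * mon Y β = 0 := by
      have := congrFun (LinearMap.mem_ker.1 hc) ⟨Y, hY⟩
      exact this
    rw [h0, zero_mul, zero_div]
  · rw [sum_congr rfl fun y _ => hf (bp k y), sum_eq_single y0]
    · have h1 : ∑ e, U y0 e * mon (bp k y0) e = 1 := by
        have h2 := sum_w (k := k) y0 (bp k y0)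
        rw [prod_w, if_pos rfl] at h2
        exact h2
      rw [h1, mul_one, div_self hy0]
    · intro y _ hy
      have h1 : ∑ e, U y0 e * mon (bp k y) e = 0 := by
        have h2 := sum_w (k := k) y0 (bp k y)
        rw [prod_w, if_neg hy] at h2
        exact h2
      rw [h1, mul_zero, zero_div]
    · intro h
      exact absurd (mem_univ _) h

variable {n R : ℕ}

/-- the coordinates of a Boolean point, and `0` -/
def xb (k : Type) [Field k] {n : ℕ} (β : Fin n → Fin 2) (j : ℕ) : k := if h : j < n then bp k β ⟨j, h⟩ else 0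

/-- the value of the member `n` of the family at a Boolean point, as a linear form in the coefficients -/
def eH (R : ℕ) (β : Fin n → Fin 2) : Ii n R → k
  | ⟨_, Sum.inl _⟩ => 0
  | ⟨t, Sum.inr i⟩ => if (t : ℕ) = 0 then
      mon (fun j : Fin (n + t) => xb k β j) i.1 * ∑ y : Fin (n + t) → Fin 2, mon (bp k y) i.2 else 0

theorem exists_functionalH (hR : 0 < R) (P : Finset (Nd k R)) (hP : P.card < 2 ^ n) (β0 : Fin n → Fin 2) :
    ∃ Θ : (Ii n R → k) →ₗ[k] k, (∀ q ∈ P, Θ (nf n q) = 0) ∧
      ∀ β, Θ (eH R β) = if β = β0 then 1 else 0 := by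
  classical
  obtain ⟨f, hf1, hf2⟩ := exists_relH (P.image fun q : Nd k R => py (q.2 (n + 0)))
    (lt_of_le_of_lt card_image_le hP)
  let uu : (Fin n → Fin 2) → k := fun e => ∏ j, w k (β0 j) (e j)
  let ix : IH n → Ii n R := fun i => ⟨⟨0, hR⟩, Sum.inr i⟩
  refine ⟨{ toFun := fun v => ∑ i : IH n, v (ix i) * (uu i.1 * f i.2), map_add' := ?_, map_smul' := ?_ }, ?_, ?_⟩
  · intro a b
    simp only [Pi.add_apply, add_mul, sum_add_distrib]
  · intro a b
    simp only [Pi.smul_apply, smul_eq_mul, RingHom.id_apply, mul_sum, mul_assoc]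
  · intro q hq
    show ∑ i : IH n, nf n q (ix i) * (uu i.1 * f i.2) = 0
    by_cases h0 : (⟨0, hR⟩ : Fin R) = q.1
    · have h1 : ∀ i : IH n, nf n q (ix i) = pw (q.2 (n + 0)) * (mon (px (q.2 (n + 0))) i.1 * mon (py (q.2 (n + 0))) i.2) := by
        intro i
        show (if (⟨0, hR⟩ : Fin R) = q.1 then _ else _) = _
        rw [if_pos h0]
        rfl
      have h2 : ∑ i : IH n, nf n q (ix i) * (uu i.1 * f i.2) =
          pw (q.2 (n + 0)) * ((∑ e, uu e * mon (px (q.2 (n + 0))) e) * ∑ b, f b * mon (py (q.2 (n + 0))) b) := by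
        rw [sum_mul_sum, mul_sum, Fintype.sum_prod_type]
        apply sum_congr rfl
        intro e _
        rw [mul_sum]
        apply sum_congr rfl
        intro b _
        rw [h1]
        ring
      rw [h2, hf1 _ (mem_image_of_mem _ hq), mul_zero, mul_zero]
    · apply sum_eq_zero
      intro i _
      have h1 : nf n q (ix i) = 0 := if_neg h0
      rw [h1, zero_mul]
  · intro β
    show ∑ i : IH n, eH R β (ix i) * (uu i.1 * f i.2) = _
    have h1 : ∀ i : IH n, eH R β (ix i) = mon (bp k β) i.1 * ∑ y : Fin n → Fin 2, mon (bp k y) i.2 := by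
      intro i
      have h2 : eH R β (ix i) = mon (fun j : Fin n => xb k β j) i.1 * ∑ y : Fin n → Fin 2, mon (bp k y) i.2 := rfl
      rw [h2]
      congr 2
      funext j
      unfold xb
      rw [dif_pos j.2]
    have h3 : ∑ i : IH n, eH R β (ix i) * (uu i.1 * f i.2) =
        (∑ e, uu e * mon (bp k β) e) * ∑ b, (∑ y : Fin n → Fin 2, mon (bp k y) b) * f b := by
      rw [sum_mul_sum, Fintype.sum_prod_type]
      apply sum_congr rfl
      intro e _
      apply sum_congr rfl
      intro b _
      rw [h1]
      ring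
    have h4 : ∑ b, (∑ y : Fin n → Fin 2, mon (bp k y) b) * f b = 1 := by
      rw [← hf2, sum_comm]
      apply sum_congr rfl
      intro b _
      rw [sum_mul]
      apply sum_congr rfl
      intro y _
      ring
    rw [h3, h4, mul_one, sum_w, prod_w]

/-- the indices of the generic coefficients -/
def Frm (m : ℕ) : Ind m → Prop
  | Sum.inl i => wt i.2 < wt (one m)
  | Sum.inr _ => True

/-- the indices of the generic coefficients of level at least `n` -/
def Fr (i : Ii n R) : Prop := Frm (n + i.1) i.2

theorem eq_zero_of_span (P : Finset (Nd k R)) (hP : P.card < 2 ^ n) (T : Set (Fin n → Fin 2)) (v : Ii n R → k)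
    (hv : v ∈ Submodule.span k ((nf n : Nd k R → Ii n R → k) '' P ∪ eH R '' T)) (h0 : ∀ i, Fr i → v i = 0) : v = 0 := by
  classical
  -- coordinates of too large weight vanish on the span
  have hbig : ∀ (t : Fin R) (ξ : Fin (W (n + t)) → Fin (W (n + t) + 1)) (b : Fin (n + t) → Fin 3),
      wt (one (n + t)) < wt b → v ⟨t, Sum.inl (ξ, b)⟩ = 0 := by
    intro t ξ b hb
    have h1 : Submodule.span k ((nf n : Nd k R → Ii n R → k) '' P ∪ eH R '' T) ≤
        LinearMap.ker (LinearMap.proj (R := k) (φ := fun _ : Ii n R => k) ⟨t, Sum.inl (ξ, b)⟩) := by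
      rw [Submodule.span_le]
      rintro x (⟨q, _, rfl⟩ | ⟨β, _, rfl⟩)
      · show nf n q ⟨t, Sum.inl (ξ, b)⟩ = 0
        unfold nf
        dsimp only
        split_ifs
        · exact if_neg (by omega)
        · rfl
      · rfl
    exact h1 hv
  funext i
  obtain ⟨t, ⟨ξ, b⟩ | i⟩ := i
  · rcases lt_trichotomy (wt b) (wt (one (n + t))) with hb | hb | hb
    · exact h0 _ hb
    · have hb' : b = one (n + t) := wt_injective hb
      subst hb'
      have hP' : (P.image fun q : Nd k R => py (q.2 (n + t))).card < 2 ^ (n + t) :=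
        lt_of_le_of_lt card_image_le (hP.trans_le (Nat.pow_le_pow_right (by norm_num) (by omega)))
      obtain ⟨f, hf1, hf2, hf3⟩ := exists_rel _ hP'
      let Λ : (Ii n R → k) →ₗ[k] k :=
        { toFun := fun v => ∑ b, f b * v ⟨t, Sum.inl (ξ, b)⟩
          map_add' := by
            intro c d
            simp only [Pi.add_apply, mul_add, sum_add_distrib]
          map_smul' := by
            intro a c
            simp only [Pi.smul_apply, smul_eq_mul, RingHom.id_apply, mul_sum]
            apply sum_congr rfl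
            intro b _
            ring }
      have h1 : Submodule.span k ((nf n : Nd k R → Ii n R → k) '' P ∪ eH R '' T) ≤ LinearMap.ker Λ := by
        rw [Submodule.span_le]
        rintro x (⟨q, hq, rfl⟩ | ⟨β, _, rfl⟩)
        · show ∑ b, f b * nf n q ⟨t, Sum.inl (ξ, b)⟩ = 0
          by_cases ht : t = q.1
          · have h2 : ∀ b, f b * nf n q ⟨t, Sum.inl (ξ, b)⟩ =
                mon (pX (q.2 (n + t))) ξ * (f b * mon (py (q.2 (n + t))) b) := by
              intro b
              have h3 : nf n q ⟨t, Sum.inl (ξ, b)⟩ = if wt b ≤ wt (one (n + t)) then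
                  mon (pX (q.2 (n + t))) ξ * mon (py (q.2 (n + t))) b else 0 := if_pos ht
              rw [h3]
              split_ifs with h4
              · ring
              · rw [hf1 b (by omega)]
                ring
            rw [sum_congr rfl fun b _ => h2 b, ← mul_sum, hf3 _ (mem_image_of_mem _ hq), mul_zero]
          · apply sum_eq_zero
            intro b _
            have h3 : nf n q ⟨t, Sum.inl (ξ, b)⟩ = 0 := if_neg ht
            rw [h3, mul_zero]
        · show ∑ b, f b * (0 : k) = 0
          simp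
      have h2 : ∑ b, f b * v ⟨t, Sum.inl (ξ, b)⟩ = 0 := h1 hv
      rw [sum_eq_single (one (n + t))] at h2
      · rw [hf2, one_mul] at h2
        exact h2
      · intro b _ hb1
        rcases lt_trichotomy (wt b) (wt (one (n + t))) with h3 | h3 | h3
        · rw [h0 ⟨t, Sum.inl (ξ, b)⟩ h3, mul_zero]
        · exact absurd (wt_injective h3) hb1
        · rw [hf1 b h3, zero_mul]
      · intro h
        exact absurd (mem_univ _) h
    · exact hbig t ξ b hb
  · exact h0 _ trivial

end Pool.Agent.VPN
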