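import Pool.Agent.VPN.LowerB

/-!
# The lower bound, third part: counting level by level
-/

set_option autoImplicit false

open Finset Pool.Agent.VPO

namespace Pool.Agent.VPN

theorem exists_J {k ι : Type} [Field k] [Fintype ι] [DecidableEq ι] (S : Set (ι → k)) (Q : Finset ι) :
    ∃ J ⊆ Q, (∀ i ∈ Q, (Pi.single i 1 : ι → k) ∈ Submodule.span k (S ∪ (fun i => Pi.single i 1) '' (J : Set ι))) ∧
      J.card + Module.finrank k (Submodule.span k S) ≤
        Module.finrank k (Submodule.span k (S ∪ (fun i => Pi.single i (1 : k)) '' (J : Set ι))) := by
  induction Q using Finset.induction_on with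
  | empty => exact ⟨∅, Subset.refl _, fun i hi => absurd hi (notMem_empty i), by
      rw [coe_empty, Set.image_empty, Set.union_empty, card_empty, zero_add]⟩
  | insert i Q hi ih =>
    obtain ⟨J, h1, h2, h3⟩ := ih
    by_cases hmem : (Pi.single i 1 : ι → k) ∈ Submodule.span k (S ∪ (fun i => Pi.single i 1) '' (J : Set ι))
    · refine ⟨J, h1.trans (subset_insert _ _), ?_, h3⟩
      intro j hj
      rcases mem_insert.1 hj with rfl | hj
      · exact hmem
      · exact h2 j hj
    · have hU : S ∪ (fun i => Pi.single i 1) '' ((insert i J : Finset ι) : Set ι) =
          (insert (Pi.single i 1) (S ∪ (fun i => Pi.single i 1) '' (J : Set ι)) : Set (ι → k)) := by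
        rw [coe_insert, Set.image_insert_eq, Set.union_insert]
      refine ⟨insert i J, insert_subset_insert _ h1, ?_, ?_⟩
      · intro j hj
        rw [hU]
        rcases mem_insert.1 hj with rfl | hj
        · exact Submodule.subset_span (Set.mem_insert _ _)
        · exact Submodule.span_mono (Set.subset_insert _ _) (h2 j hj)
      · rw [hU, card_insert_of_notMem (fun h => hi (h1 h))]
        have h4 := finrank_lt_insert hmem
        omega

variable {K0 k : Type} [Field K0] [Field k] [Algebra K0 k] {n R : ℕ}

/-- the projection to the coordinates with `p` -/
noncomputable def pr (k : Type) [Field k] {ι : Type} (p : ι → Prop) [DecidablePred p] : (ι → k) →ₗ[k] (ι → k) :=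
  { toFun := fun v i => if p i then v i else 0
    map_add' := by
      intro a b
      funext i
      simp only [Pi.add_apply]
      split_ifs <;> simp
    map_smul' := by
      intro a b
      funext i
      simp only [Pi.smul_apply, smul_eq_mul, RingHom.id_apply]
      split_ifs <;> simp }

theorem pr_apply {ι : Type} (p : ι → Prop) [DecidablePred p] (v : ι → k) (i : ι) :
    pr k p v i = if p i then v i else 0 := rfl

/-- All generic coefficients are in a field with `s.card + N - rank` generators, where `N` is the number of the
generic coefficients. -/
theorem count_levels {α : (Σ m, Ind m) → k} {u : ∀ m, (Fin (W m) → Fin (W m + 1)) → k}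
    (h2 : AlgebraicIndependent K0 (fun i : {i : Ii n R // Fr i} => cv α u n R i))
    (h3 : ∀ (t : Fin R) (E : IntermediateField K0 k),
      (∀ t' : Fin R, t' < t → ∀ i, Frm (n + t') i → cc α u (n + t') i ∈ E) → ∀ ξ, u (n + t) ξ ∈ E)
    (s : Finset k) (S : Set (Ii n R → k)) (hS : ∀ v ∈ S, RatV (IntermediateField.adjoin K0 (s : Set k)) (cv α u n R) v)
    (hlev : ∀ v ∈ S, ∃ t : Fin R, ∀ i, v i ≠ 0 → i.1 = t)
    (hinj : ∀ v ∈ Submodule.span k S, (∀ i, Fr i → v i = 0) → v = 0) :
    Module.finrank k (Submodule.span k S) ≤ s.card := by
  classical
  let π := pr k (Fr : Ii n R → Prop)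
  let Q : Finset (Ii n R) := univ.filter Fr
  obtain ⟨J, hJ1, hJ2, hJ3⟩ := exists_J (π '' S) Q
  -- the rank does not change under the projection
  have hrank : Module.finrank k (Submodule.span k S) ≤ Module.finrank k (Submodule.span k (π '' S)) := by
    rw [← Submodule.map_span]
    have h4 : Function.Injective (π.domRestrict (Submodule.span k S)) := by
      rw [← LinearMap.ker_eq_bot, LinearMap.ker_eq_bot']
      rintro ⟨v, hv⟩ h5
      apply Subtype.ext
      refine hinj v hv fun i hi => ?_
      have h6 := congrFun h5 i
      have h7 : (π.domRestrict (Submodule.span k S)) ⟨v, hv⟩ i = if Fr i then v i else 0 := rfl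
      rw [h7, if_pos hi] at h6
      exact h6
    have h5 := LinearMap.finrank_range_of_inj h4
    rw [LinearMap.range_domRestrict] at h5
    exact h5.ge
  -- all of this is in the space of the vectors supported on `Q`
  have htop : Module.finrank k (Submodule.span k (π '' S ∪ (fun i => Pi.single i (1 : k)) '' (J : Set (Ii n R)))) ≤
      Q.card := by
    have h4 : Submodule.span k (π '' S ∪ (fun i => Pi.single i (1 : k)) '' (J : Set (Ii n R))) ≤
        Submodule.span k ((Q.image fun i => (Pi.single i 1 : Ii n R → k) : Finset _) : Set (Ii n R → k)) := by
      rw [Submodule.span_le]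
      rintro x (⟨v, _, rfl⟩ | ⟨i, hi, rfl⟩)
      · have h5 : π v = ∑ i ∈ Q, v i • (Pi.single i 1 : Ii n R → k) := by
          funext j
          rw [pr_apply, Finset.sum_apply]
          simp only [Pi.smul_apply, smul_eq_mul]
          by_cases hj : Fr j
          · rw [if_pos hj, sum_eq_single j]
            · rw [Pi.single_eq_same, mul_one]
            · intro i _ hi
              rw [Pi.single_eq_of_ne hi.symm, mul_zero]
            · intro h6
              exact absurd (mem_filter.2 ⟨mem_univ _, hj⟩) h6
          · rw [if_neg hj]
            symm
            apply sum_eq_zero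
            intro i hi
            rw [Pi.single_eq_of_ne, mul_zero]
            rintro rfl
            exact hj (mem_filter.1 hi).2
        rw [SetLike.mem_coe, h5]
        refine Submodule.sum_mem _ fun i hi => Submodule.smul_mem _ _ (Submodule.subset_span ?_)
        rw [coe_image]
        exact ⟨i, hi, rfl⟩
      · refine Submodule.subset_span ?_
        rw [coe_image]
        exact ⟨i, hJ1 hi, rfl⟩
    refine (Submodule.finrank_mono h4).trans ((finrank_span_finset_le_card _).trans card_image_le)
  let sf : Finset k := s ∪ J.image (cv α u n R)
  have hsf : s ⊆ sf := subset_union_left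
  have hcard : sf.card ≤ s.card + J.card := (card_union_le _ _).trans (Nat.add_le_add_left card_image_le _)
  -- all generic coefficients are in the field generated by `sf`
  have key : ∀ (t : ℕ) (ht : t < R) (i : Ind (n + t)), Fr (n := n) (R := R) ⟨⟨t, ht⟩, i⟩ →
      cv α u n R ⟨⟨t, ht⟩, i⟩ ∈ IntermediateField.adjoin K0 (sf : Set k) := by
    intro t
    induction t using Nat.strong_induction_on with
    | _ t ih =>
      intro ht i hi
      have hu : ∀ ξ, u (n + t) ξ ∈ IntermediateField.adjoin K0 (sf : Set k) := by
        refine h3 ⟨t, ht⟩ _ fun t' ht' i' hi' => ?_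
        exact ih t' ht' t'.2 i' hi'
      let ρ := pr k (fun i : Ii n R => i.1 = ⟨t, ht⟩)
      have hspan : (Pi.single ⟨⟨t, ht⟩, i⟩ 1 : Ii n R → k) ∈
          Submodule.span k (ρ '' (π '' S ∪ (fun i => Pi.single i 1) '' (J : Set (Ii n R)))) := by
        rw [← Submodule.map_span]
        refine ⟨Pi.single ⟨⟨t, ht⟩, i⟩ 1, hJ2 _ (mem_filter.2 ⟨mem_univ _, hi⟩), ?_⟩
        funext j
        rw [pr_apply]
        split_ifs with hj
        · rfl
        · rw [Pi.single_eq_of_ne]
          rintro rfl
          exact hj rfl
      have hsub : ∀ v ∈ ρ '' (π '' S ∪ (fun i => Pi.single i 1) '' (J : Set (Ii n R))),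
          RatV (IntermediateField.adjoin K0 (sf : Set k)) (cv α u n R) v := by
        rintro _ ⟨_, (⟨v, hv, rfl⟩ | ⟨j, hj, rfl⟩), rfl⟩
        · have hRv := (hS v hv).mono (adj_mono hsf)
          obtain ⟨t1, ht1⟩ := hlev v hv
          refine ⟨?_, ?_⟩
          · intro i
            rw [pr_apply, pr_apply]
            split_ifs
            · exact hRv.1 i
            · exact zero_mem _
            · exact zero_mem _
          · by_cases htt : t1 = ⟨t, ht⟩
            · have h4 : ∀ i, ρ (π v) i * cv α u n R i = v i * cv α u n R i - (if Fr i then 0 else v i * cv α u n R i) := by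
                intro i
                rw [pr_apply, pr_apply]
                by_cases hi0 : v i = 0
                · rw [hi0]
                  split_ifs <;> simp
                · rw [if_pos ((ht1 i hi0).trans htt)]
                  split_ifs <;> simp
              rw [sum_congr rfl fun i _ => h4 i, sum_sub_distrib]
              refine sub_mem hRv.2 (sum_mem fun i _ => ?_)
              split_ifs with hFi
              · exact zero_mem _
              · by_cases hi0 : v i = 0
                · rw [hi0, zero_mul]
                  exact zero_mem _
                · refine mul_mem (hRv.1 i) ?_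
                  have hi1 : i.1 = ⟨t, ht⟩ := (ht1 i hi0).trans htt
                  obtain ⟨t2, ⟨ξ, b⟩ | i2⟩ := i
                  · dsimp only at hi1
                    subst hi1
                    show cc α u (n + t) (Sum.inl (ξ, b)) ∈ _
                    unfold cc
                    dsimp only
                    have hb : ¬ wt b < wt (one (n + t)) := hFi
                    rw [if_neg hb]
                    split_ifs
                    · exact hu ξ
                    · exact zero_mem _
                  · exact absurd trivial hFi
            · have h4 : ∀ i, ρ (π v) i * cv α u n R i = 0 := by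
                intro i
                rw [pr_apply, pr_apply]
                by_cases hi0 : v i = 0
                · rw [hi0]
                  split_ifs <;> simp
                · rw [if_neg, zero_mul]
                  intro h5
                  exact htt ((ht1 i hi0).symm.trans h5)
              rw [sum_congr rfl fun i _ => h4 i, sum_const_zero]
              exact zero_mem _
        · have hcj : cv α u n R j ∈ IntermediateField.adjoin K0 (sf : Set k) := by
            refine IntermediateField.subset_adjoin _ _ ?_
            rw [mem_coe]
            exact mem_union_right _ (mem_image_of_mem _ hj)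
          refine ⟨?_, ?_⟩
          · intro i
            rw [pr_apply]
            split_ifs
            · show (Pi.single j (1 : k) : Ii n R → k) i ∈ _
              rcases eq_or_ne i j with rfl | hij
              · rw [Pi.single_eq_same]
                exact one_mem _
              · rw [Pi.single_eq_of_ne hij]
                exact zero_mem _
            · exact zero_mem _
          · refine sum_mem fun i _ => ?_
            rw [pr_apply]
            split_ifs
            · show (Pi.single j (1 : k) : Ii n R → k) i * _ ∈ _
              rcases eq_or_ne i j with rfl | hij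
              · rw [Pi.single_eq_same, one_mul]
                exact hcj
              · rw [Pi.single_eq_of_ne hij, zero_mul]
                exact zero_mem _
            · rw [zero_mul]
              exact zero_mem _
      have hfin := (descent hsub (v := Pi.single ⟨⟨t, ht⟩, i⟩ 1) (by
        intro j
        rcases eq_or_ne j ⟨⟨t, ht⟩, i⟩ with rfl | hij
        · rw [Pi.single_eq_same]
          exact one_mem _
        · rw [Pi.single_eq_of_ne hij]
          exact zero_mem _) hspan).2
      rw [sum_eq_single ⟨⟨t, ht⟩, i⟩] at hfin
      · rwa [Pi.single_eq_same, one_mul] at hfin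
      · intro j _ hj
        rw [Pi.single_eq_of_ne hj, zero_mul]
      · intro h
        exact absurd (mem_univ _) h
  have hfinal := card_le_of_algebraicIndependent h2 sf fun i => by
    obtain ⟨⟨⟨t, ht⟩, i⟩, hi⟩ := i
    exact key t ht i hi
  have hQ : Q.card = Fintype.card {i : Ii n R // Fr i} := by
    rw [Fintype.card_subtype]
  omega

end Pool.Agent.VPN
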